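import Pool.Agent.H81.Balls.Surface

set_option autoImplicit false

open Classical

namespace Pool.Agent.BTD

open Pool.Agent.H81.Balls

universe u

/-- Region certificates.  `inc e x`: the centre-object `e` covers the point `x`.
For every `X ⊆ P₀` and `e ∈ C₀` with `inc e x ↔ s = true` on `X` there are hints from `X`
(`H` many slots) and a tag such that the decoded region contains `e`, lies in `C₀` and all its
members `e'` satisfy `inc e' x ↔ s = true` on `X`. -/
def CertHT {C P : Type*} (s : Bool) (inc : C → P → Prop) (C₀ : Set C) (P₀ : Set P)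
    (H T : Type) : Prop :=
  ∃ dec : (H → Option P) → T → Set C,
    ∀ X : Set P, X ⊆ P₀ → ∀ e ∈ C₀, (∀ x ∈ X, (inc e x ↔ s = true)) →
      ∃ (h : H → Option P) (t : T), (∀ i x, h i = some x → x ∈ X) ∧ e ∈ dec h t ∧
        ∀ e' ∈ dec h t, e' ∈ C₀ ∧ ∀ x ∈ X, (inc e' x ↔ s = true)

/-- At most `N` hints and at most `N` tags. -/
def Cert {C P : Type*} (s : Bool) (N : ℕ) (inc : C → P → Prop) (C₀ : Set C) (P₀ : Set P) : Prop :=
  ∃ (H T : Type) (_ : Fintype H) (_ : Fintype T), Fintype.card H ≤ N ∧ Fintype.card T ≤ N ∧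
    CertHT s inc C₀ P₀ H T

/-- A length metric on a graph: `D v x` is the distance from `v` to the root `x`. -/
structure LMet {V : Type u} (G : SimpleGraph V) where
  len : V → V → ℕ
  D : V → V → ℕ∞
  len_pos : ∀ v w, G.Adj v w → 0 < len v w
  D_self : ∀ x, D x x = 0
  D_le : ∀ v w x, G.Adj v w → D v x ≤ len v w + D w x
  D_par : ∀ v x, v ≠ x → D v x ≠ ⊤ → ∃ w, G.Adj v w ∧ D v x = len v w + D w x

/-- A ball `(w, ρ)` covers the weighted site `(q, o)`. -/
def LMet.inc {V : Type u} {G : SimpleGraph V} (M : LMet G) (e x : V × ℕ) : Prop :=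
  M.D e.1 x.1 + x.2 ≤ e.2

end Pool.Agent.BTD
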