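import Pool.Agent.BTD.CDefs

/-! Core CAa: parents. -/

set_option autoImplicit false

open Classical

namespace Pool.Agent.BTD

universe u

variable {V : Type u} {G : SimpleGraph V} {M : LMet G}

namespace LMet

lemma par_root {q : V} : M.par q q = q := by
  unfold par
  rw [dif_neg]
  rintro ⟨h, -⟩
  exact h rfl

lemma CAa_par_spec {q v : V} (h : v ≠ q) (h' : M.D v q ≠ ⊤) :
    G.Adj v (M.par q v) ∧ M.D v q = M.len v (M.par q v) + M.D (M.par q v) q := by
  have e : M.par q v = (M.D_par v q h h').choose := by
    unfold par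
    rw [dif_pos ⟨h, h'⟩]
  rw [e]
  exact (M.D_par v q h h').choose_spec

lemma par_adj {q v : V} (h : v ≠ q) (h' : M.D v q ≠ ⊤) : G.Adj v (M.par q v) :=
  (CAa_par_spec h h').1

lemma par_D {q v : V} (h : v ≠ q) (h' : M.D v q ≠ ⊤) :
    M.D v q = M.len v (M.par q v) + M.D (M.par q v) q :=
  (CAa_par_spec h h').2

lemma par_of_top {q v : V} (h : M.D v q = ⊤) : M.par q v = v := by
  unfold par
  rw [dif_neg]
  rintro ⟨-, h'⟩
  exact h' h

lemma par_ne_top {q v : V} (h : M.D v q ≠ ⊤) : M.D (M.par q v) q ≠ ⊤ := by
  by_cases hv : v = q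
  · subst hv
    rw [par_root]
    exact h
  · have := par_D hv h
    intro h2
    rw [h2] at this
    exact h (by rw [this]; simp)

lemma par_lt {q v : V} (h : v ≠ q) (h' : M.D v q ≠ ⊤) : M.D (M.par q v) q < M.D v q := by
  have h1 := par_D h h'
  have h2 := M.len_pos _ _ (par_adj h h')
  have h3 := par_ne_top h'
  rw [h1]
  obtain ⟨n, hn⟩ := ENat.ne_top_iff_exists.mp h3
  rw [← hn]
  norm_cast
  omega

/-- being in the component of `q`. -/
lemma ne_top_iff {q v : V} : M.D v q ≠ ⊤ ↔ G.Reachable v q := by
  constructor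
  · intro h
    have key : ∀ n : ℕ, ∀ w : V, M.D w q ≠ ⊤ → (M.D w q).toNat ≤ n → G.Reachable w q := by
      intro n
      induction n with
      | zero =>
        intro w hw hn
        by_cases hwq : w = q
        · subst hwq
          exact SimpleGraph.Reachable.refl _
        · exfalso
          have h1 := par_lt hwq hw
          have h3 := par_ne_top hw
          obtain ⟨n, hn'⟩ := ENat.ne_top_iff_exists.mp h3
          obtain ⟨m, hm'⟩ := ENat.ne_top_iff_exists.mp hw
          rw [← hm'] at hn h1
          rw [← hn'] at h1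
          simp only [ENat.toNat_natCast] at hn
          norm_cast at h1
          omega
      | succ n ih =>
        intro w hw hn
        by_cases hwq : w = q
        · subst hwq
          exact SimpleGraph.Reachable.refl _
        · have h1 := par_lt hwq hw
          have h3 := par_ne_top hw
          have h4 := ih (M.par q w) h3 (by
            obtain ⟨n', hn'⟩ := ENat.ne_top_iff_exists.mp h3
            obtain ⟨m, hm'⟩ := ENat.ne_top_iff_exists.mp hw
            rw [← hm'] at hn h1
            rw [← hn'] at h1 ⊢
            simp only [ENat.toNat_natCast] at hn ⊢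
            norm_cast at h1
            omega)
          exact (par_adj hwq hw).reachable.trans h4
    exact key _ v h le_rfl
  · rintro ⟨p⟩
    induction p with
    | nil => rw [M.D_self]; simp
    | @cons a b c hadj _ ih =>
      have h1 := M.D_le _ _ c hadj
      intro h2
      rw [h2, top_le_iff] at h1
      obtain ⟨n, hn⟩ := ENat.ne_top_iff_exists.mp ih
      rw [← hn] at h1
      norm_cast at h1

lemma wd_ne_top {x : V × ℕ} {y : V} : M.wd x y ≠ ⊤ ↔ M.D y x.1 ≠ ⊤ := by
  unfold wd
  constructor
  · intro h h'
    apply h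
    rw [h']
    simp
  · intro h h'
    obtain ⟨n, hn⟩ := ENat.ne_top_iff_exists.mp h
    rw [← hn] at h'
    norm_cast at h'

/-- finite distance (as a natural number) drops at the parent. -/
lemma toNat_par_lt {q v : V} (h : v ≠ q) (h' : M.D v q ≠ ⊤) :
    (M.D (M.par q v) q).toNat < (M.D v q).toNat := by
  have h1 := par_lt h h'
  have h3 := par_ne_top h'
  obtain ⟨n', hn'⟩ := ENat.ne_top_iff_exists.mp h3
  obtain ⟨m, hm'⟩ := ENat.ne_top_iff_exists.mp h'
  rw [← hn', ← hm'] at h1
  rw [← hn', ← hm']
  simp only [ENat.toNat_natCast]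
  norm_cast at h1

end LMet

end Pool.Agent.BTD
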