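import Pool.Agent.BTD.CAa

/-! Core CAb: ancestors, parent-closed sets, cells. -/

set_option autoImplicit false

open Classical

namespace Pool.Agent.BTD

universe u

variable {V : Type u} {G : SimpleGraph V} {M : LMet G}

namespace LMet

lemma anc_refl {q v : V} : M.Anc q v v := ⟨0, rfl⟩

lemma anc_trans {q a b v : V} (h : M.Anc q a b) (h' : M.Anc q b v) : M.Anc q a v := by
  obtain ⟨k, hk⟩ := h
  obtain ⟨l, hl⟩ := h'
  refine ⟨k + l, ?_⟩
  rw [Function.iterate_add_apply, hl, hk]

lemma anc_par {q v : V} : M.Anc q (M.par q v) v := ⟨1, rfl⟩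

/-- A proper ancestor of `v` is an ancestor of the parent of `v`. -/
lemma anc_par_of_ne {q a v : V} (h : M.Anc q a v) (hne : a ≠ v) : M.Anc q a (M.par q v) := by
  obtain ⟨k, hk⟩ := h
  cases k with
  | zero => exact absurd hk.symm hne
  | succ k =>
    refine ⟨k, ?_⟩
    rw [← hk, Function.iterate_succ_apply]

lemma CAb_iter_ne_top {q v : V} (hv : M.D v q ≠ ⊤) (k : ℕ) :
    M.D ((M.par q)^[k] v) q ≠ ⊤ := by
  induction k generalizing v with
  | zero => exact hv
  | succ k ih =>
    rw [Function.iterate_succ_apply]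
    exact ih (par_ne_top hv)

lemma CAb_iter_root {q : V} (k : ℕ) : (M.par q)^[k] q = q := by
  induction k with
  | zero => rfl
  | succ k ih =>
    rw [Function.iterate_succ_apply, par_root, ih]

lemma CAb_iter_toNat_le {q v : V} (hv : M.D v q ≠ ⊤) (k : ℕ) :
    (M.D ((M.par q)^[k] v) q).toNat ≤ (M.D v q).toNat := by
  induction k generalizing v with
  | zero => exact le_rfl
  | succ k ih =>
    rw [Function.iterate_succ_apply]
    refine (ih (par_ne_top hv)).trans ?_
    by_cases h : v = q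
    · subst h
      rw [par_root]
    · exact (toNat_par_lt h hv).le

lemma anc_root {q v : V} (h : M.D v q ≠ ⊤) : M.Anc q q v := by
  have key : ∀ n : ℕ, ∀ w : V, M.D w q ≠ ⊤ → (M.D w q).toNat ≤ n → M.Anc q q w := by
    intro n
    induction n with
    | zero =>
      intro w hw hn
      by_cases hwq : w = q
      · subst hwq
        exact anc_refl
      · have := toNat_par_lt hwq hw
        omega
    | succ n ih =>
      intro w hw hn
      by_cases hwq : w = q
      · subst hwq
        exact anc_refl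
      · have h1 := toNat_par_lt hwq hw
        exact anc_trans (ih _ (par_ne_top hw) (by omega)) anc_par
  exact key _ v h le_rfl

lemma Anc.ne_top {q a v : V} (h : M.Anc q a v) (hv : M.D v q ≠ ⊤) : M.D a q ≠ ⊤ := by
  obtain ⟨k, rfl⟩ := h
  exact CAb_iter_ne_top hv k

lemma CAb_anc_toNat_le {q a v : V} (h : M.Anc q a v) (hv : M.D v q ≠ ⊤) :
    (M.D a q).toNat ≤ (M.D v q).toNat := by
  obtain ⟨k, rfl⟩ := h
  exact CAb_iter_toNat_le hv k

/-- two vertices which are ancestors of each other are equal -/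
lemma anc_antisymm {q a b : V} (ha : M.D a q ≠ ⊤) (h : M.Anc q a b) (h' : M.Anc q b a) :
    a = b := by
  have hb : M.D b q ≠ ⊤ := Anc.ne_top h' ha
  by_contra hne
  have h1 := anc_par_of_ne h hne
  by_cases hbq : b = q
  · subst hbq
    rw [par_root] at h1
    obtain ⟨k, hk⟩ := h
    rw [CAb_iter_root] at hk
    exact hne hk.symm
  · have h2 := CAb_anc_toNat_le h1 (par_ne_top hb)
    have h3 := toNat_par_lt hbq hb
    have h4 := CAb_anc_toNat_le h' ha
    omega

lemma Cl.anc {q : V} {W : Set V} (h : M.Cl q W) {a v : V} (hv : v ∈ W) (ha : M.Anc q a v) :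
    a ∈ W := by
  obtain ⟨k, rfl⟩ := ha
  induction k generalizing v with
  | zero => exact hv
  | succ k ih =>
    rw [Function.iterate_succ_apply]
    exact ih (h v hv).2

lemma Cl.root {q : V} {W : Set V} (h : M.Cl q W) {v : V} (hv : v ∈ W) : q ∈ W :=
  Cl.anc h hv (anc_root (h v hv).1)

/-- The leg of `v ∉ W` leaves the parent-closed set `W ∋ q` at some `b`. -/
lemma exists_exit {q : V} {W : Set V} (h : M.Cl q W) (hq : q ∈ W) {v : V}
    (hv : M.D v q ≠ ⊤) (hvW : v ∉ W) :
    ∃ b, M.Anc q b v ∧ b ∉ W ∧ b ≠ q ∧ M.par q b ∈ W := by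
  obtain ⟨k, hk⟩ := anc_root hv
  have hex : ∃ k : ℕ, (M.par q)^[k] v ∈ W := ⟨k, by rw [hk]; exact hq⟩
  have h0 : Nat.find hex ≠ 0 := by
    intro h0
    have := Nat.find_spec hex
    rw [h0] at this
    exact hvW this
  obtain ⟨m, hm⟩ := Nat.exists_eq_succ_of_ne_zero h0
  have hm1 : (M.par q)^[m] v ∉ W := Nat.find_min hex (by omega)
  refine ⟨(M.par q)^[m] v, ⟨m, rfl⟩, hm1, ?_, ?_⟩
  · intro h2
    rw [h2] at hm1
    exact hm1 hq
  · have := Nat.find_spec hex
    rw [hm, Function.iterate_succ_apply'] at this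
    exact this

/-- Cells of weighted Voronoi diagrams are parent-closed for their own site. -/
lemma cell_cl (x : V × ℕ) (A B : Set (V × ℕ)) :
    M.Cl x.1 {y | M.wd x y ≠ ⊤ ∧ (∀ z ∈ A, M.wd x y ≤ M.wd z y) ∧
      ∀ z ∈ B, M.wd x y < M.wd z y} := by
  rintro y ⟨hy, hA, hB⟩
  have hD : M.D y x.1 ≠ ⊤ := wd_ne_top.mp hy
  refine ⟨hD, ?_⟩
  by_cases hyx : y = x.1
  · have : M.par x.1 y = y := by rw [hyx]; exact par_root
    rw [this]
    exact ⟨hy, hA, hB⟩
  · have hadj := par_adj hyx hD
    have hpD := par_D hyx hD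
    have hpt : M.D (M.par x.1 y) x.1 ≠ ⊤ := par_ne_top hD
    have hwx : M.wd x y = M.len y (M.par x.1 y) + M.wd x (M.par x.1 y) := by
      unfold wd
      rw [hpD, add_assoc]
    have hwz : ∀ z : V × ℕ, M.wd z y ≤ M.len y (M.par x.1 y) + M.wd z (M.par x.1 y) := by
      intro z
      unfold wd
      rw [← add_assoc]
      exact add_le_add_left (M.D_le _ _ z.1 hadj) _
    refine ⟨wd_ne_top.mpr hpt, ?_, ?_⟩
    · intro z hz
      have h1 := (hA z hz).trans (hwz z)
      rw [hwx] at h1
      exact (ENat.add_le_add_iff_left (ENat.natCast_ne_top _)).mp h1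
    · intro z hz
      have h1 := (hB z hz).trans_le (hwz z)
      rw [hwx] at h1
      exact (ENat.add_lt_add_iff_left (ENat.natCast_ne_top _)).mp h1

end LMet

end Pool.Agent.BTD
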