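import Pool.Agent.BTD.CAb

/-! Core CBa: frontier elements, counting of label changes. -/

set_option autoImplicit false

open Classical

namespace Pool.Agent.BTD

universe u

variable {V : Type u} {G : SimpleGraph V}

variable {M : LMet G} {B : ℕ} {r : V}

/-- Frontier elements are in the component of the root and are not the root. -/
lemma Fr.facts {N₀ W : Set V} (hN : M.Cl r N₀) (hr : r ∈ N₀) (hd : Disjoint N₀ W) {b : V}
    (hb : b ∈ Fr M r N₀ W) : M.D b r ≠ ⊤ ∧ b ≠ r ∧ b ∉ N₀ := by
  obtain ⟨h1, h2⟩ := hb
  have h3 : b ∉ N₀ := fun h => Set.disjoint_left.mp hd h h2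
  refine ⟨?_, ?_, h3⟩
  · intro h
    rw [LMet.par_of_top h] at h1
    exact h3 h1
  · rintro rfl
    exact h3 hr

/-- A frontier element is not a proper descendant of an element outside `N₀`. -/
lemma Fr.eq_of_anc {N₀ W : Set V} (hN : M.Cl r N₀) {a b : V} (hb : M.par r b ∈ N₀)
    (ha : a ∉ N₀) (h : M.Anc r a b) : a = b := by
  by_contra hne
  exact ha (LMet.Cl.anc hN hb (LMet.anc_par_of_ne h hne))

/-- The abstract counting lemma: `F` finite set with an injective rank, `λ : F → Bool`; if every
rank increasing list in `F` with alternating labels has length `≤ B`, then at most `B` elements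
labelled `true` have a successor labelled `false`. -/
lemma count_changes {F : Set V} (hF : F.Finite) (rk : V → ℕ)
    (hinj : ∀ a ∈ F, ∀ b ∈ F, rk a = rk b → a = b) (lab : V → Prop) (B : ℕ)
    (halt : ∀ l : List V, l.Pairwise (fun a b => rk a < rk b) → (∀ b ∈ l, b ∈ F) →
      l.IsChain (fun a b => lab a ↔ ¬ lab b) → l.length ≤ B) :
    {b | b ∈ F ∧ lab b ∧ ∃ b' ∈ F, ¬ lab b' ∧ rk b < rk b' ∧
      ∀ d ∈ F, ¬ (rk b < rk d ∧ rk d < rk b')}.ncard ≤ B := by
  set S : Set V := {b | b ∈ F ∧ lab b ∧ ∃ b' ∈ F, ¬ lab b' ∧ rk b < rk b' ∧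
      ∀ d ∈ F, ¬ (rk b < rk d ∧ rk d < rk b')} with hS
  have hSF : S ⊆ F := fun b hb => hb.1
  have hSfin : S.Finite := hF.subset hSF
  have key : ∀ s : Finset V, (∀ x ∈ s, x ∈ S) →
      ∃ l : List V, l.Pairwise (fun a b => rk a < rk b) ∧ (∀ b ∈ l, b ∈ F) ∧
        l.IsChain (fun a b => lab a ↔ ¬ lab b) ∧ l.length = 2 * s.card ∧
        (∀ x ∈ l, ∃ b ∈ s, rk b ≤ rk x) ∧ (∀ x ∈ l.head?, lab x) := by
    intro s
    induction s using Finset.induction_on_min_value rk with
    | empty =>
      intro _
      exact ⟨[], List.Pairwise.nil, by simp, List.isChain_nil, by simp, by simp, by simp⟩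
    | insert a s has hmin ih =>
      intro hs
      obtain ⟨l, h1, h2, h3, h4, h5, h6⟩ := ih (fun x hx => hs x (Finset.mem_insert_of_mem hx))
      obtain ⟨haF, hal, a', ha'F, ha'l, haa', hsucc⟩ := hs a (Finset.mem_insert_self a s)
      have h7 : ∀ x ∈ l, rk a' < rk x := by
        intro x hx
        obtain ⟨b, hb, hbx⟩ := h5 x hx
        have hbS := hs b (Finset.mem_insert_of_mem hb)
        have hab : rk a < rk b := by
          rcases (hmin b hb).lt_or_eq with h | h
          · exact h
          · exact absurd (hinj a haF b hbS.1 h) (fun h => has (h ▸ hb))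
        have h8 : ¬ rk b < rk a' := fun h => hsucc b hbS.1 ⟨hab, h⟩
        have h9 : rk a' ≠ rk b := by
          intro h
          have := hinj a' ha'F b hbS.1 h
          rw [this] at ha'l
          exact ha'l hbS.2.1
        omega
      refine ⟨a :: a' :: l, ?_, ?_, ?_, ?_, ?_, ?_⟩
      · refine List.Pairwise.cons ?_ (List.Pairwise.cons h7 h1)
        intro x hx
        rcases List.mem_cons.mp hx with rfl | hx
        · exact haa'
        · exact haa'.trans (h7 x hx)
      · intro b hb
        rcases List.mem_cons.mp hb with rfl | hb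
        · exact haF
        · rcases List.mem_cons.mp hb with rfl | hb
          · exact ha'F
          · exact h2 b hb
      · cases l with
        | nil =>
          refine List.isChain_cons_cons.mpr ⟨?_, List.isChain_singleton _⟩
          simp [hal, ha'l]
        | cons c l =>
          have hc : lab c := h6 c (by simp)
          refine List.isChain_cons_cons.mpr ⟨?_, List.isChain_cons_cons.mpr ⟨?_, h3⟩⟩
          · simp [hal, ha'l]
          · simp [ha'l, hc]
      · rw [Finset.card_insert_of_notMem has]
        simp only [List.length_cons, h4]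
        ring
      · intro x hx
        refine ⟨a, Finset.mem_insert_self a s, ?_⟩
        rcases List.mem_cons.mp hx with rfl | hx
        · exact le_rfl
        · rcases List.mem_cons.mp hx with rfl | hx
          · exact haa'.le
          · exact (haa'.trans (h7 x hx)).le
      · intro x hx
        simp only [List.head?_cons, Option.mem_def, Option.some.injEq] at hx
        rw [← hx]
        exact hal
  obtain ⟨l, h1, h2, h3, h4, -, -⟩ := key hSfin.toFinset (by simp)
  have h5 := halt l h1 h2 h3
  rw [Set.ncard_eq_toFinset_card S hSfin]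
  omega

/-- A fixed enumeration of all small sets. -/
lemma exists_enum (V : Type u) [Fintype V] (B : ℕ) :
    ∃ en : Set V → Fin B → Option V, ∀ Q : Set V, Q.ncard ≤ B → ∀ b ∈ Q, ∃ i, en Q i = some b := by
  have key : ∀ Q : Set V, ∃ g : Fin B → Option V, Q.ncard ≤ B → ∀ b ∈ Q, ∃ i, g i = some b := by
    intro Q
    refine ⟨fun i => Q.toFinset.toList[(i : ℕ)]?, ?_⟩
    intro hQ b hb
    have hb' : b ∈ Q.toFinset.toList := by simpa using hb
    obtain ⟨n, hn, hnb⟩ := List.getElem_of_mem hb'
    have hlen : Q.toFinset.toList.length ≤ B := by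
      rw [Finset.length_toList, ← Set.ncard_eq_toFinset_card']
      exact hQ
    refine ⟨⟨n, hn.trans_le hlen⟩, ?_⟩
    simp only
    rw [List.getElem?_eq_getElem hn, hnb]
  choose g hg using key
  exact ⟨g, hg⟩

end Pool.Agent.BTD
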