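import Pool.Agent.BTD.CBa

/-! Core CBb: the decoded sets are small. -/

set_option autoImplicit false

open Classical

namespace Pool.Agent.BTD

universe u

variable {V : Type u} {G : SimpleGraph V}

variable {M : LMet G} {B : ℕ} {r : V}

variable [Fintype V]

lemma QS_card (O : RootOrd M B r) {N₀ V₁ V₂ : Set V} {q₁ q₂ : V} (h0 : M.Cl r N₀) (hr : r ∈ N₀)
    (h1 : M.Cl q₁ V₁) (h2 : M.Cl q₂ V₂) (h01 : Disjoint N₀ V₁) (h02 : Disjoint N₀ V₂)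
    (h12 : Disjoint V₁ V₂) : (QS M r O.rk N₀ V₁ V₂).ncard ≤ B := by
  have hd : Disjoint N₀ (V₁ ∪ V₂) := Set.disjoint_union_right.mpr ⟨h01, h02⟩
  have hcount := count_changes (F := Fr M r N₀ (V₁ ∪ V₂)) (Set.toFinite _) O.rk
    (fun a ha b hb hab => O.inj a b (Fr.facts h0 hr hd ha).1 (Fr.facts h0 hr hd hb).1 hab)
    (fun b => b ∈ V₁) B (by
      intro l hl hmem hch
      refine O.alt N₀ V₁ V₂ q₁ q₂ h0 hr h1 h2 h01 h02 h12 l hl hmem ?_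
      refine List.IsChain.imp_of_mem_imp ?_ hch
      intro a b _ hb hab
      rw [hab]
      rcases (hmem b hb).2 with hb1 | hb2
      · exact ⟨fun h => absurd hb1 h, fun h => absurd h (Set.disjoint_left.mp h12 hb1)⟩
      · exact ⟨fun _ => hb2, fun _ => Set.disjoint_right.mp h12 hb2⟩)
  refine le_trans (Set.ncard_le_ncard ?_ (Set.toFinite _)) hcount
  rintro b ⟨hb1, b', hb'2, hbF, hb'F, hlt, hno⟩
  exact ⟨hbF, hb1, b', hb'F, Set.disjoint_right.mp h12 hb'2, hlt, hno⟩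

lemma QP_card (O : RootOrd M B r) {N₀ V₁ V₂ : Set V} {q₁ q₂ : V} (h0 : M.Cl r N₀) (hr : r ∈ N₀)
    (h1 : M.Cl q₁ V₁) (h2 : M.Cl q₂ V₂) (h01 : Disjoint N₀ V₁) (h02 : Disjoint N₀ V₂)
    (h12 : Disjoint V₁ V₂) : (QP M r O.rk N₀ V₁ V₂).ncard ≤ B := by
  have hd : Disjoint N₀ (V₁ ∪ V₂) := Set.disjoint_union_right.mpr ⟨h01, h02⟩
  have hQS := QS_card O h0 hr h2 h1 h02 h01 h12.symm
  refine le_trans ?_ hQS
  have hex : ∀ b ∈ QP M r O.rk N₀ V₁ V₂, ∃ b' ∈ V₂, Succ3 M r O.rk N₀ V₁ V₂ b' b :=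
    fun b hb => hb.2
  let f : V → V := fun b =>
    if h : ∃ b' ∈ V₂, Succ3 M r O.rk N₀ V₁ V₂ b' b then h.choose else b
  have hf : ∀ b ∈ QP M r O.rk N₀ V₁ V₂, f b ∈ V₂ ∧ Succ3 M r O.rk N₀ V₁ V₂ (f b) b := by
    intro b hb
    have h := hex b hb
    have : f b = h.choose := dif_pos h
    rw [this]
    exact h.choose_spec
  refine Set.ncard_le_ncard_of_injOn f ?_ ?_ (Set.toFinite _)
  · intro b hb
    obtain ⟨hf1, hF1, hF2, hlt, hno⟩ := hf b hb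
    refine ⟨hf1, b, hb.1, ?_, ?_, hlt, ?_⟩
    · rw [Set.union_comm]; exact hF1
    · rw [Set.union_comm]; exact hF2
    · rw [Set.union_comm]; exact hno
  · intro b hb c hc hbc
    obtain ⟨_, _, hbF, hblt, hbno⟩ := hf b hb
    obtain ⟨_, _, hcF, hclt, hcno⟩ := hf c hc
    rw [← hbc] at hclt hcno
    have e1 : ¬ (O.rk c < O.rk b) := fun h => hbno c hcF ⟨hclt, h⟩
    have e2 : ¬ (O.rk b < O.rk c) := fun h => hcno b hbF ⟨hblt, h⟩
    exact O.inj b c (Fr.facts h0 hr hd hbF).1 (Fr.facts h0 hr hd hcF).1 (by omega)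

end Pool.Agent.BTD
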