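import Pool.Agent.BTD.CBa

/-! Core CDa: two- and three-site systems. -/

set_option autoImplicit false

open Classical

namespace Pool.Agent.BTD

universe u

variable {V : Type u} {G : SimpleGraph V} {M : LMet G}

lemma N2_cl (x0 x1 : V × ℕ) : M.Cl x0.1 (N2 M x0 x1) := by
  have h := LMet.cell_cl (M := M) x0 ∅ {x1}
  have e : N2 M x0 x1 = {y | M.wd x0 y ≠ ⊤ ∧ (∀ z ∈ (∅ : Set (V × ℕ)), M.wd x0 y ≤ M.wd z y) ∧
      ∀ z ∈ ({x1} : Set (V × ℕ)), M.wd x0 y < M.wd z y} := by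
    ext y
    constructor
    · intro hy
      have hy' : M.wd x0 y < M.wd x1 y := hy
      refine ⟨ne_top_of_lt hy', fun z hz => absurd hz (Set.notMem_empty z), ?_⟩
      intro z hz
      rw [Set.mem_singleton_iff] at hz
      rw [hz]
      exact hy'
    · rintro ⟨_, _, h3⟩
      exact h3 x1 rfl
  rw [e]
  exact h

lemma T_facts (x0 x1 a : V × ℕ) :
    M.Cl x0.1 (T0 M x0 x1 a) ∧ M.Cl x1.1 (T1 M x0 x1 a) ∧ M.Cl a.1 (T2 M x0 x1 a) ∧
      Disjoint (T0 M x0 x1 a) (T1 M x0 x1 a) ∧ Disjoint (T0 M x0 x1 a) (T2 M x0 x1 a) ∧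
      Disjoint (T1 M x0 x1 a) (T2 M x0 x1 a) := by
  refine ⟨?_, ?_, ?_, ?_, ?_, ?_⟩
  · have h := LMet.cell_cl (M := M) x0 ∅ {x1, a}
    have e : T0 M x0 x1 a = {y | M.wd x0 y ≠ ⊤ ∧
        (∀ z ∈ (∅ : Set (V × ℕ)), M.wd x0 y ≤ M.wd z y) ∧
        ∀ z ∈ ({x1, a} : Set (V × ℕ)), M.wd x0 y < M.wd z y} := by
      ext y
      constructor
      · rintro ⟨h1, h2⟩
        refine ⟨ne_top_of_lt h1, fun z hz => absurd hz (Set.notMem_empty z), ?_⟩
        rintro z (rfl | rfl)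
        · exact h1
        · exact h2
      · rintro ⟨_, _, h3⟩
        exact ⟨h3 x1 (Or.inl rfl), h3 a (Or.inr rfl)⟩
    rw [e]
    exact h
  · have h := LMet.cell_cl (M := M) x1 {x0} {a}
    have e : T1 M x0 x1 a = {y | M.wd x1 y ≠ ⊤ ∧
        (∀ z ∈ ({x0} : Set (V × ℕ)), M.wd x1 y ≤ M.wd z y) ∧
        ∀ z ∈ ({a} : Set (V × ℕ)), M.wd x1 y < M.wd z y} := by
      ext y
      constructor
      · rintro ⟨h1, h2⟩
        refine ⟨ne_top_of_lt h2, ?_, ?_⟩
        · rintro z rfl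
          exact h1
        · rintro z rfl
          exact h2
      · rintro ⟨_, h2, h3⟩
        exact ⟨h2 x0 rfl, h3 a rfl⟩
    rw [e]
    exact h
  · have h := LMet.cell_cl (M := M) a {x0, x1} ∅
    have e : T2 M x0 x1 a = {y | M.wd a y ≠ ⊤ ∧
        (∀ z ∈ ({x0, x1} : Set (V × ℕ)), M.wd a y ≤ M.wd z y) ∧
        ∀ z ∈ (∅ : Set (V × ℕ)), M.wd a y < M.wd z y} := by
      ext y
      constructor
      · rintro ⟨h1, h2, h3⟩
        refine ⟨h1, ?_, fun z hz => absurd hz (Set.notMem_empty z)⟩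
        rintro z (rfl | rfl)
        · exact h2
        · exact h3
      · rintro ⟨h1, h2, _⟩
        exact ⟨h1, h2 x0 (Or.inl rfl), h2 x1 (Or.inr rfl)⟩
    rw [e]
    exact h
  · rw [Set.disjoint_left]
    rintro y ⟨h1, _⟩ ⟨h2, _⟩
    exact absurd h1 (not_lt.mpr h2)
  · rw [Set.disjoint_left]
    rintro y ⟨_, h1⟩ ⟨_, h2, _⟩
    exact absurd h1 (not_lt.mpr h2)
  · rw [Set.disjoint_left]
    rintro y ⟨_, h1⟩ ⟨_, _, h2⟩
    exact absurd h1 (not_lt.mpr h2)

/-- facts on elements of `F2` -/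
lemma F2_facts {x0 x1 : V × ℕ} {c : V} (hc : c ∈ F2 M x0 x1) :
    M.wd x0 c ≠ ⊤ ∧ c ≠ x0.1 ∧ M.wd x1 c ≤ M.wd x0 c ∧
      M.wd x0 (M.par x0.1 c) < M.wd x1 (M.par x0.1 c) := by
  obtain ⟨h1, h2⟩ := hc
  have h1' : M.wd x0 (M.par x0.1 c) < M.wd x1 (M.par x0.1 c) := h1
  have h2' : ¬ (M.wd x0 c < M.wd x1 c) := h2
  refine ⟨?_, ?_, not_lt.mp h2', h1'⟩
  · intro ht
    have hD : M.D c x0.1 = ⊤ := by
      by_contra hne
      exact (LMet.wd_ne_top (M := M) (x := x0) (y := c)).mpr hne ht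
    rw [LMet.par_of_top hD] at h1'
    exact h2' h1'
  · intro he
    rw [he, LMet.par_root] at h1'
    rw [he] at h2'
    exact h2' h1'

private lemma CDa_anc_le {q b y : V} (hb : M.Anc q b y) (hy : M.D y q ≠ ⊤) (z : V × ℕ) :
    M.wd z y + M.D b q ≤ M.D y q + M.wd z b := by
  obtain ⟨k, hk⟩ := hb
  induction k generalizing y with
  | zero =>
    have : y = b := by simpa using hk
    subst this
    exact le_of_eq (add_comm _ _)
  | succ k ih =>
    rw [Function.iterate_succ_apply] at hk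
    have ih' := ih (LMet.par_ne_top hy) hk
    by_cases hq : y = q
    · subst hq
      rw [LMet.par_root] at ih'
      exact ih'
    · have h1 : M.D y q = M.len y (M.par q y) + M.D (M.par q y) q := LMet.par_D hq hy
      have h2 : M.wd z y ≤ M.len y (M.par q y) + M.wd z (M.par q y) := by
        have := M.D_le y (M.par q y) z.1 (LMet.par_adj hq hy)
        unfold LMet.wd
        calc M.D y z.1 + (z.2 : ℕ∞) ≤ (M.len y (M.par q y) + M.D (M.par q y) z.1) + (z.2 : ℕ∞) :=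
              add_le_add this le_rfl
          _ = _ := by rw [add_assoc]
      calc M.wd z y + M.D b q ≤ (M.len y (M.par q y) + M.wd z (M.par q y)) + M.D b q :=
            add_le_add h2 le_rfl
        _ = M.len y (M.par q y) + (M.wd z (M.par q y) + M.D b q) := by rw [add_assoc]
        _ ≤ M.len y (M.par q y) + (M.D (M.par q y) q + M.wd z b) := add_le_add le_rfl ih'
        _ = M.D y q + M.wd z b := by rw [h1, add_assoc]

private lemma CDa_safe {x0 a : V × ℕ} {b y : V} (hb : M.Anc x0.1 b y) (hy : M.D y x0.1 ≠ ⊤)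
    (h : M.wd a b ≤ M.wd x0 b) : M.wd a y ≤ M.wd x0 y := by
  have h1 := CDa_anc_le hb hy a
  have hbt : M.D b x0.1 ≠ ⊤ := LMet.Anc.ne_top hb hy
  have h2 : M.wd a y + M.D b x0.1 ≤ M.wd x0 y + M.D b x0.1 := by
    calc M.wd a y + M.D b x0.1 ≤ M.D y x0.1 + M.wd a b := h1
      _ ≤ M.D y x0.1 + M.wd x0 b := add_le_add le_rfl h
      _ = M.wd x0 y + M.D b x0.1 := by
        unfold LMet.wd
        rw [add_assoc, add_comm (M.D b x0.1) (x0.2 : ℕ∞)]
  exact (ENat.add_le_add_iff_right hbt).mp h2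

/-- elements alive for `a` and their descendants are safe for `a` -/
lemma alive_safe {x0 x1 a : V × ℕ} {c y : V} (hc : c ∈ F2 M x0 x1) (h : Alive M x0 x1 a c)
    (hy : M.wd x0 y ≠ ⊤) (hcy : M.Anc x0.1 c y) : M.wd a y ≤ M.wd x0 y := by
  obtain ⟨_, _, h3, _⟩ := F2_facts hc
  have hyD : M.D y x0.1 ≠ ⊤ := LMet.wd_ne_top.mp hy
  rcases h with h | h
  · have h' : M.wd a (M.par x0.1 c) ≤ M.wd x0 (M.par x0.1 c) := by
      by_contra hn
      exact h (not_le.mp hn)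
    exact CDa_safe (LMet.anc_trans LMet.anc_par hcy) hyD h'
  · exact CDa_safe hcy hyD (h.trans h3)

end Pool.Agent.BTD
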