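import Pool.Agent.BTD.CDa

/-! Core CDb: killed elements are frontier elements. -/

set_option autoImplicit false

open Classical

namespace Pool.Agent.BTD

universe u

variable {V : Type u} {G : SimpleGraph V} {M : LMet G}

/-- an element killed by `a` is in the three-site frontier, in `T1` -/
lemma killed_mem {x0 x1 a : V × ℕ} {c : V} (hc : c ∈ F2 M x0 x1) (h : ¬ Alive M x0 x1 a c) :
    c ∈ Fr M x0.1 (T0 M x0 x1 a) (T1 M x0 x1 a) := by
  obtain ⟨_, _, h3, h4⟩ := F2_facts hc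
  unfold Alive at h
  rw [not_or, not_not, not_le] at h
  exact ⟨⟨h4, h.1⟩, h3, h.2⟩

/-- conversely three-site frontier elements in `T1` are killed elements of `F2` -/
lemma killed_of_mem {x0 x1 a : V × ℕ} {c : V}
    (h : c ∈ Fr M x0.1 (T0 M x0 x1 a) (T1 M x0 x1 a)) :
    c ∈ F2 M x0 x1 ∧ ¬ Alive M x0 x1 a c := by
  obtain ⟨⟨h1, h2⟩, h3, h4⟩ := h
  refine ⟨⟨h1, fun hn => ?_⟩, ?_⟩
  · have hn' : M.wd x0 c < M.wd x1 c := hn
    exact absurd hn' (not_lt.mpr h3)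
  · unfold Alive
    rw [not_or, not_not, not_le]
    exact ⟨h2, h4⟩

/-- the leg of an alive element leaves `T0` into `T2` (here `x0.1 ∈ T0` is used) -/
lemma alive_exit {x0 x1 a : V × ℕ} {c : V} (hr : x0.1 ∈ T0 M x0 x1 a) (hc : c ∈ F2 M x0 x1)
    (h : Alive M x0 x1 a c) :
    ∃ b, b ∈ Fr M x0.1 (T0 M x0 x1 a) (T2 M x0 x1 a) ∧ M.Anc x0.1 b c := by
  obtain ⟨h1, _, h3, h4⟩ := F2_facts hc
  have hcl := (T_facts (M := M) x0 x1 a).1
  have hcT : c ∉ T0 M x0 x1 a := fun hn => absurd hn.1 (not_lt.mpr h3)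
  obtain ⟨b, hb, hbT, _, hbp⟩ := LMet.exists_exit hcl hr (LMet.wd_ne_top.mp h1) hcT
  refine ⟨b, ⟨hbp, ?_⟩, hb⟩
  by_cases hbc : b = c
  · subst hbc
    have h5 : M.wd a b ≤ M.wd x1 b := by
      rcases h with h | h
      · exact absurd (show M.par x0.1 b ∈ N2 M x0 a from hbp.2) h
      · exact h
    have h6 : M.wd a b ≤ M.wd x0 b := h5.trans h3
    exact ⟨ne_top_of_le_ne_top h1 h6, h6, h5⟩
  · have hbN : b ∈ N2 M x0 x1 :=
      LMet.Cl.anc (N2_cl x0 x1) (show M.par x0.1 c ∈ N2 M x0 x1 from h4)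
        (LMet.anc_par_of_ne hb hbc)
    have hbN' : M.wd x0 b < M.wd x1 b := hbN
    have h6 : M.wd a b ≤ M.wd x0 b := by
      by_contra hn
      exact hbT ⟨hbN', not_le.mp hn⟩
    exact ⟨ne_top_of_le_ne_top (ne_top_of_lt hbN') h6, h6, h6.trans hbN'.le⟩

end Pool.Agent.BTD
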