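import Pool.Agent.BTD.CDb

/-! Core CDc: ends of the alive run are label changes. -/

set_option autoImplicit false

open Classical

namespace Pool.Agent.BTD

universe u

variable {V : Type u} {G : SimpleGraph V} {M : LMet G}

variable {B : ℕ} [Fintype V]

/-- left end: the last killed element `c'` before `c` -/
lemma killed_left {x0 x1 a : V × ℕ} (O : RootOrd M B x0.1) {c c' : V} (hc : c ∈ F2 M x0 x1)
    (hc' : c' ∈ F2 M x0 x1) (hk : ¬ Alive M x0 x1 a c') (hlt : O.rk c' < O.rk c)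
    (hal : ∀ d ∈ F2 M x0 x1, O.rk c' < O.rk d → O.rk d ≤ O.rk c → Alive M x0 x1 a d) :
    c' ∈ QS M x0.1 O.rk (T0 M x0 x1 a) (T1 M x0 x1 a) (T2 M x0 x1 a) := by
  obtain ⟨hcl0, -, -, -, hd02, hd12⟩ := T_facts (M := M) x0 x1 a
  have hc'F := killed_mem hc' hk
  have hr : x0.1 ∈ T0 M x0 x1 a := hcl0.root hc'F.1
  obtain ⟨b, hbF, hbc⟩ := alive_exit hr hc (hal c hc hlt le_rfl)
  have hcfin : M.D c x0.1 ≠ ⊤ := LMet.wd_ne_top.1 (F2_facts hc).1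
  have hc'fin : M.D c' x0.1 ≠ ⊤ := LMet.wd_ne_top.1 (F2_facts hc').1
  have hbrk : O.rk b ≤ O.rk c := O.anc_le b c hcfin hbc
  have hlt' : O.rk c' < O.rk b := by
    by_contra hcon
    have hanc : M.Anc x0.1 b c' :=
      O.interval b c' c hc'fin hcfin hbc (not_lt.1 hcon) hlt.le
    have hne : b ≠ c' := by
      rintro rfl
      exact Set.disjoint_left.1 hd12 hc'F.2 hbF.2
    have h2 := LMet.anc_par_of_ne hanc hne
    exact Set.disjoint_left.1 hd02 (hcl0.anc hc'F.1 h2) hbF.2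
  set S : Set V := {d | d ∈ Fr M x0.1 (T0 M x0 x1 a) (T1 M x0 x1 a ∪ T2 M x0 x1 a) ∧
    O.rk c' < O.rk d} with hS
  have hbS : b ∈ S := ⟨⟨hbF.1, Or.inr hbF.2⟩, hlt'⟩
  obtain ⟨b', hb'S, hmin⟩ := Set.exists_min_image S O.rk (Set.toFinite S) ⟨b, hbS⟩
  have hb'T2 : b' ∈ T2 M x0 x1 a := by
    rcases hb'S.1.2 with h1 | h2
    · exfalso
      obtain ⟨hF2, hnal⟩ := killed_of_mem (c := b') ⟨hb'S.1.1, h1⟩
      exact hnal (hal b' hF2 hb'S.2 ((hmin b hbS).trans hbrk))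
    · exact h2
  refine ⟨hc'F.2, b', hb'T2, ⟨hc'F.1, Or.inl hc'F.2⟩, hb'S.1, hb'S.2, ?_⟩
  rintro d hd ⟨hd1, hd2⟩
  exact absurd hd2 (not_lt.2 (hmin d ⟨hd, hd1⟩))

/-- right end: the first killed element `c'` after `c` -/
lemma killed_right {x0 x1 a : V × ℕ} (O : RootOrd M B x0.1) {c c' : V} (hc : c ∈ F2 M x0 x1)
    (hc' : c' ∈ F2 M x0 x1) (hk : ¬ Alive M x0 x1 a c') (hlt : O.rk c < O.rk c')
    (hal : ∀ d ∈ F2 M x0 x1, O.rk c ≤ O.rk d → O.rk d < O.rk c' → Alive M x0 x1 a d) :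
    c' ∈ QP M x0.1 O.rk (T0 M x0 x1 a) (T1 M x0 x1 a) (T2 M x0 x1 a) := by
  obtain ⟨hcl0, -, -, -, hd02, hd12⟩ := T_facts (M := M) x0 x1 a
  have hc'F := killed_mem hc' hk
  have hr : x0.1 ∈ T0 M x0 x1 a := hcl0.root hc'F.1
  obtain ⟨b, hbF, hbc⟩ := alive_exit hr hc (hal c hc le_rfl hlt)
  have hcfin : M.D c x0.1 ≠ ⊤ := LMet.wd_ne_top.1 (F2_facts hc).1
  have hbrk : O.rk b ≤ O.rk c := O.anc_le b c hcfin hbc
  set S : Set V := {d | d ∈ Fr M x0.1 (T0 M x0 x1 a) (T1 M x0 x1 a ∪ T2 M x0 x1 a) ∧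
    O.rk d < O.rk c'} with hS
  have hbS : b ∈ S := ⟨⟨hbF.1, Or.inr hbF.2⟩, hbrk.trans_lt hlt⟩
  obtain ⟨b', hb'S, hmax⟩ := Set.exists_max_image S O.rk (Set.toFinite S) ⟨b, hbS⟩
  have hb'T2 : b' ∈ T2 M x0 x1 a := by
    rcases hb'S.1.2 with h1 | h2
    · exfalso
      obtain ⟨hF2, hnal⟩ := killed_of_mem (c := b') ⟨hb'S.1.1, h1⟩
      have hlt2 : O.rk b' < O.rk c := by
        by_contra hcon
        exact hnal (hal b' hF2 (not_lt.1 hcon) hb'S.2)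
      have hb'fin : M.D b' x0.1 ≠ ⊤ := LMet.wd_ne_top.1 (F2_facts hF2).1
      have hanc : M.Anc x0.1 b b' :=
        O.interval b b' c hb'fin hcfin hbc (hmax b hbS) hlt2.le
      have hne : b ≠ b' := by
        rintro rfl
        exact Set.disjoint_left.1 hd12 h1 hbF.2
      have h3 := LMet.anc_par_of_ne hanc hne
      exact Set.disjoint_left.1 hd02 (hcl0.anc hb'S.1.1 h3) hbF.2
    · exact h2
  refine ⟨hc'F.2, b', hb'T2, hb'S.1, ⟨hc'F.1, Or.inl hc'F.2⟩, hb'S.2, ?_⟩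
  rintro d hd ⟨hd1, hd2⟩
  exact absurd hd1 (not_lt.2 (hmax d ⟨hd, hd2⟩))

end Pool.Agent.BTD
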