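import Pool.Agent.BTD.Base

/-! Core: all definitions. -/

set_option autoImplicit false

open Classical

namespace Pool.Agent.BTD

universe u

variable {V : Type u} {G : SimpleGraph V} (M : LMet G)

namespace LMet

/-- A chosen parent of `v` towards the root `q` (`v` itself if `v = q` or `v` is not in the
component of `q`). -/
noncomputable def par (q v : V) : V :=
  if h : v ≠ q ∧ M.D v q ≠ ⊤ then (M.D_par v q h.1 h.2).choose else v

/-- `a` is an ancestor of `v` (possibly `a = v`) in the tree of `q`. -/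
def Anc (q a v : V) : Prop := ∃ k : ℕ, (M.par q)^[k] v = a

/-- `W` is in the component of `q` and closed under the parent map of `q`. -/
def Cl (q : V) (W : Set V) : Prop := ∀ v ∈ W, M.D v q ≠ ⊤ ∧ M.par q v ∈ W

/-- Distance of `y` to the weighted site `x = (q, o)`. -/
def wd (x : V × ℕ) (y : V) : ℕ∞ := M.D y x.1 + x.2

variable {M}

lemma inc_iff {e x : V × ℕ} : M.inc e x ↔ M.wd x e.1 ≤ e.2 := Iff.rfl

end LMet

/-- Elements of `W` whose parent (towards `r`) lies in `N₀`. -/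
def Fr (M : LMet G) (r : V) (N₀ W : Set V) : Set V := {b | M.par r b ∈ N₀ ∧ b ∈ W}

/-- A linear order (rank) of the component of `r` in which the subtrees of the tree of `r` are
intervals and such that in the frontier of three disjoint parent-closed sets the labels alternate
at most `B` times. -/
structure RootOrd (M : LMet G) (B : ℕ) (r : V) where
  rk : V → ℕ
  inj : ∀ v w, M.D v r ≠ ⊤ → M.D w r ≠ ⊤ → rk v = rk w → v = w
  anc_le : ∀ a v, M.D v r ≠ ⊤ → M.Anc r a v → rk a ≤ rk v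
  interval : ∀ a y v, M.D y r ≠ ⊤ → M.D v r ≠ ⊤ → M.Anc r a v → rk a ≤ rk y → rk y ≤ rk v →
    M.Anc r a y
  alt : ∀ (N₀ V₁ V₂ : Set V) (q₁ q₂ : V), M.Cl r N₀ → r ∈ N₀ → M.Cl q₁ V₁ → M.Cl q₂ V₂ →
    Disjoint N₀ V₁ → Disjoint N₀ V₂ → Disjoint V₁ V₂ →
    ∀ l : List V, l.Pairwise (fun a b => rk a < rk b) →
      (∀ b ∈ l, b ∈ Fr M r N₀ (V₁ ∪ V₂)) → l.IsChain (fun a b => a ∈ V₁ ↔ b ∈ V₂) →
      l.length ≤ B

/-- `b'` is the successor of `b` in the frontier of `N₀` towards `V₁ ∪ V₂`. -/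
def Succ3 (M : LMet G) (r : V) (rk : V → ℕ) (N₀ V₁ V₂ : Set V) (b b' : V) : Prop :=
  b ∈ Fr M r N₀ (V₁ ∪ V₂) ∧ b' ∈ Fr M r N₀ (V₁ ∪ V₂) ∧ rk b < rk b' ∧
    ∀ d ∈ Fr M r N₀ (V₁ ∪ V₂), ¬ (rk b < rk d ∧ rk d < rk b')

/-- Frontier elements in `V₁` whose successor is in `V₂`. -/
def QS (M : LMet G) (r : V) (rk : V → ℕ) (N₀ V₁ V₂ : Set V) : Set V :=
  {b | b ∈ V₁ ∧ ∃ b' ∈ V₂, Succ3 M r rk N₀ V₁ V₂ b b'}

/-- Frontier elements in `V₁` whose predecessor is in `V₂`. -/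
def QP (M : LMet G) (r : V) (rk : V → ℕ) (N₀ V₁ V₂ : Set V) : Set V :=
  {b | b ∈ V₁ ∧ ∃ b' ∈ V₂, Succ3 M r rk N₀ V₁ V₂ b' b}

/-- vertices strictly closer to `x0` than to `x1` -/
def N2 (M : LMet G) (x0 x1 : V × ℕ) : Set V := {y | M.wd x0 y < M.wd x1 y}

/-- the tree edges of `x0` leaving `N2` -/
def F2 (M : LMet G) (x0 x1 : V × ℕ) : Set V := Fr M x0.1 (N2 M x0 x1) (N2 M x0 x1)ᶜ

def T0 (M : LMet G) (x0 x1 a : V × ℕ) : Set V := {y | M.wd x0 y < M.wd x1 y ∧ M.wd x0 y < M.wd a y}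

def T1 (M : LMet G) (x0 x1 a : V × ℕ) : Set V := {y | M.wd x1 y ≤ M.wd x0 y ∧ M.wd x1 y < M.wd a y}

def T2 (M : LMet G) (x0 x1 a : V × ℕ) : Set V :=
  {y | M.wd a y ≠ ⊤ ∧ M.wd a y ≤ M.wd x0 y ∧ M.wd a y ≤ M.wd x1 y}

/-- the tree edge ending in `c` is alive for `a` -/
def Alive (M : LMet G) (x0 x1 a : V × ℕ) (c : V) : Prop :=
  M.par x0.1 c ∉ N2 M x0 a ∨ M.wd a c ≤ M.wd x1 c

/-- The region between two ranks. -/
def PosReg (M : LMet G) (rk : V → ℕ) (x0 x1 : V × ℕ) (lo hi : Option V) : Set (V × ℕ) :=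
  {e | M.wd x0 e.1 ≤ e.2 ∧ ∃ c ∈ F2 M x0 x1, M.Anc x0.1 c e.1 ∧
    (∀ l, lo = some l → rk l < rk c) ∧ (∀ l, hi = some l → rk c < rk l)}

/-- the closed cell of `u0` against all sites of `X` -/
def SU (M : LMet G) (X : Set (V × ℕ)) (u0 : V × ℕ) : Set V :=
  {y | M.wd u0 y ≠ ⊤ ∧ ∀ u ∈ X, M.wd u0 y ≤ M.wd u y}

/-- its frontier -/
def FU (M : LMet G) (X : Set (V × ℕ)) (u0 : V × ℕ) : Set V := Fr M u0.1 (SU M X u0) (SU M X u0)ᶜ

/-- the closed cell of `u0` against `u` -/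
def S2 (M : LMet G) (u0 u : V × ℕ) : Set V := {y | M.wd u0 y ≠ ⊤ ∧ M.wd u0 y ≤ M.wd u y}

def U0 (M : LMet G) (u0 u v : V × ℕ) : Set V :=
  {y | M.wd u0 y ≠ ⊤ ∧ M.wd u0 y ≤ M.wd u y ∧ M.wd u0 y ≤ M.wd v y}

def U1 (M : LMet G) (u0 u v : V × ℕ) : Set V := {y | M.wd u y < M.wd u0 y ∧ M.wd u y ≤ M.wd v y}

def U2 (M : LMet G) (u0 u v : V × ℕ) : Set V := {y | M.wd v y < M.wd u0 y ∧ M.wd v y < M.wd u y}

/-- The vertices in `A` between two optional bounds. -/
def Btw (rk : V → ℕ) (A : Set V) (lo hi : Option V) : Set V :=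
  {y | y ∈ A ∧ (∀ l, lo = some l → rk l < rk y) ∧ (∀ l, hi = some l → rk y < rk l)}

/-- preorder (with fuel) -/
def pre (ch : V → List V) : ℕ → V → List V
  | 0, v => [v]
  | n + 1, v => v :: (ch v).flatMap (pre ch n)

/-- A rooted tree on `comp`: parent map, height function, ordered lists of children. -/
structure PTree (V : Type u) where
  comp : Set V
  r : V
  p : V → V
  mu : V → ℕ
  ch : V → List V
  r_mem : r ∈ comp
  p_root : p r = r
  p_mem : ∀ v ∈ comp, p v ∈ comp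
  mu_lt : ∀ v ∈ comp, v ≠ r → mu (p v) < mu v
  mem_ch : ∀ v ∈ comp, ∀ w, w ∈ ch v ↔ w ∈ comp ∧ w ≠ r ∧ p w = v
  nodup : ∀ v ∈ comp, (ch v).Nodup

/-- `Lk fi fo x y [a₁, …, a_k]`: `x = fi a₁`, `fo a_i = fi a_(i+1)`, `fo a_k = y`
(`x = y` for the empty list). -/
def Lk {α : Type*} (fi fo : α → ZMod 2) : ZMod 2 → ZMod 2 → List α → Prop
  | x, y, [] => x = y
  | x, y, a :: l => x = fi a ∧ Lk fi fo (fo a) y l

/-! Embedding schemes -/

open Pool.Agent.H81.Balls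

section

variable (S : EmbeddingScheme G)

/-- the next dart at the same vertex in the orientation `o` -/
def nxt (o : Bool) (d : G.Dart) : G.Dart := if o then S.rot d else S.rot.symm d

/-- the face before `d` in the orientation `o` -/
def inD (o : Bool) (d : G.Dart) : S.Face := S.face d (!o)

/-- the face after `d` in the orientation `o` -/
def outD (o : Bool) (d : G.Dart) : S.Face := S.face d o

variable (M : LMet G)

/-- The ordered children of `w` in the tree of `r` (none if `w` has no darts). -/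
def IsCh (r : V) (o : V → Bool) (w : V) (l : List V) : Prop :=
  l.Nodup ∧ (∀ u, u ∈ l ↔ M.D u r ≠ ⊤ ∧ u ≠ r ∧ M.par r u = w) ∧
  ∃ L : List G.Dart, L.Nodup ∧ (∀ d ∈ L, d.fst = w) ∧ (w ≠ r → ∀ d ∈ L, d.snd ≠ M.par r w) ∧
    l = (L.filter (fun d => M.par r d.snd = w ∧ d.snd ≠ r)).map (fun d => d.snd) ∧
    ∀ K : Option S.Face → ZMod 2,
      (w = r → ∃ x, Lk (fun d => K (some (inD S (o w) d))) (fun d => K (some (outD S (o w) d))) x x L)
      ∧ (∀ d0 : G.Dart, w ≠ r → d0.fst = w → d0.snd = M.par r w →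
        Lk (fun d => K (some (inD S (o w) d))) (fun d => K (some (outD S (o w) d)))
          (K (some (outD S (o w) d0))) (K (some (inD S (o w) d0))) L)

/-- The face before (`i = false`) or after (`i = true`) the tree edge ending in `b`, read at the
parent. -/
noncomputable def ioF (r : V) (o : V → Bool) (i : Bool) (b : V) : Option S.Face :=
  if h : G.Adj (M.par r b) b then
    some (if i then outD S (o (M.par r b)) ⟨(M.par r b, b), h⟩
      else inD S (o (M.par r b)) ⟨(M.par r b, b), h⟩)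
  else none

/-- tree edges of `q` inside `W` -/
def TE (M : LMet G) (q : V) (W : Set V) : Set (Sym2 V) := {e | ∃ w ∈ W, w ≠ q ∧ e = s(w, M.par q w)}

/-- The skeleton of three parent-closed sets and finitely many frontier edges. -/
def Hed (M : LMet G) (r q₁ q₂ : V) (N₀ V₁ V₂ : Set V) {m : ℕ} (b : Fin m → V) : Set (Sym2 V) :=
  {e | e ∈ TE M r N₀ ∨ e ∈ TE M q₁ V₁ ∨ e ∈ TE M q₂ V₂ ∨ ∃ i, e = s(M.par r (b i), b i)}

/-- functions on the faces which are equal on both sides of all component edges outside the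
skeleton -/
def KK (r q₁ q₂ : V) (N₀ V₁ V₂ : Set V) {m : ℕ} (b : Fin m → V) : Set (Option S.Face → ZMod 2) :=
  {K | ∀ v u, G.Adj v u → G.Reachable r v → s(v, u) ∉ Hed M r q₁ q₂ N₀ V₁ V₂ b →
    K (S.side s(v, u) true) = K (S.side s(v, u) false)}

end

end Pool.Agent.BTD
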