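import Pool.Agent.BTD.CDa

/-! Core CEa: choice of the second site. -/

set_option autoImplicit false

open Classical

namespace Pool.Agent.BTD

universe u

variable {V : Type u} {G : SimpleGraph V} {M : LMet G}

private lemma CEa_le {m n : ℕ∞} (hm : m ≠ ⊤) (hn : n ≠ ⊤) (h : m.toNat ≤ n.toNat) : m ≤ n := by
  rw [← ENat.coe_toNat hm, ← ENat.coe_toNat hn]
  exact_mod_cast h

/-- Choice of the second site: the exit on the leg of `w` is the deepest, ties on the same edge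
are broken by the distance. -/
lemma exists_deepest {X : Set (V × ℕ)} {x0 : V × ℕ} {w : V} (hw : M.wd x0 w ≠ ⊤)
    (hmax : ∀ x ∈ X, M.wd x w ≤ M.wd x0 w) (hne : ∃ x ∈ X, x0.1 ∈ N2 M x0 x) :
    ∃ x1 ∈ X, ∃ c ∈ F2 M x0 x1, x0.1 ∈ N2 M x0 x1 ∧ M.Anc x0.1 c w ∧
      ∀ a ∈ X, Alive M x0 x1 a c := by
  have hDw : M.D w x0.1 ≠ ⊤ := LMet.wd_ne_top.mp hw
  have hexit : ∀ x ∈ X, x0.1 ∈ N2 M x0 x → ∃ c ∈ F2 M x0 x, M.Anc x0.1 c w := by
    intro x hx hr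
    have hwN : w ∉ N2 M x0 x := fun h => absurd (h : M.wd x0 w < M.wd x w) (not_lt.mpr (hmax x hx))
    obtain ⟨b, h1, h2, _, h4⟩ := LMet.exists_exit (N2_cl (M := M) x0 x) hr hDw hwN
    exact ⟨b, ⟨h4, h2⟩, h1⟩
  set B : ℕ := (M.wd x0 w).toNat with hB
  -- on the leg
  have hleg : ∀ x c, c ∈ F2 M x0 x → M.Anc x0.1 c w →
      (M.D c x0.1).toNat ≤ (M.D w x0.1).toNat ∧ (M.wd x c).toNat ≤ B ∧ M.wd x c ≠ ⊤ := by
    intro x c hc hcw
    have h1 := LMet.CAb_anc_toNat_le hcw hDw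
    obtain ⟨h2, _, h3, _⟩ := F2_facts hc
    have h4 : M.wd x0 c ≤ M.wd x0 w := by
      have h5 : M.D c x0.1 ≤ M.D w x0.1 := by
        exact CEa_le (LMet.wd_ne_top.mp h2) hDw h1
      unfold LMet.wd
      exact add_le_add h5 le_rfl
    refine ⟨h1, ENat.toNat_le_toNat (h3.trans h4) hw, ?_⟩
    exact ne_top_of_le_ne_top h2 h3
  let m : (V × ℕ) → V → ℕ := fun x c => (M.D c x0.1).toNat * (B + 1) + (M.wd x c).toNat
  let s : Set ℕ := {n | ∃ x ∈ X, x0.1 ∈ N2 M x0 x ∧ ∃ c ∈ F2 M x0 x, M.Anc x0.1 c w ∧ n = m x c}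
  have hs1 : s.Nonempty := by
    obtain ⟨x, hx, hr⟩ := hne
    obtain ⟨c, hc, hcw⟩ := hexit x hx hr
    exact ⟨_, x, hx, hr, c, hc, hcw, rfl⟩
  have hs2 : BddAbove s := by
    refine ⟨(M.D w x0.1).toNat * (B + 1) + B, ?_⟩
    rintro n ⟨x, _, _, c, hc, hcw, rfl⟩
    obtain ⟨h1, h2, _⟩ := hleg x c hc hcw
    exact Nat.add_le_add (Nat.mul_le_mul_right _ h1) h2
  obtain ⟨x1, hx1, hr1, c, hc, hcw, hmc⟩ := Nat.sSup_mem hs1 hs2
  have hle : ∀ x ∈ X, x0.1 ∈ N2 M x0 x → ∀ c' ∈ F2 M x0 x, M.Anc x0.1 c' w → m x c' ≤ m x1 c := by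
    intro x hx hr c' hc' hcw'
    rw [← hmc]
    exact le_csSup hs2 ⟨x, hx, hr, c', hc', hcw', rfl⟩
  refine ⟨x1, hx1, c, hc, hr1, hcw, ?_⟩
  intro a ha
  by_cases hp : M.par x0.1 c ∈ N2 M x0 a
  swap
  · exact Or.inl hp
  right
  have hra : x0.1 ∈ N2 M x0 a := LMet.Cl.root (N2_cl (M := M) x0 a) hp
  obtain ⟨h1, h2, h3⟩ := hleg x1 c hc hcw
  by_cases hca : c ∈ N2 M x0 a
  · exfalso
    obtain ⟨c', hc', hcw'⟩ := hexit a ha hra
    have hc'n : c' ∉ N2 M x0 a := hc'.2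
    obtain ⟨k, hk⟩ := hcw
    obtain ⟨k', hk'⟩ := hcw'
    have hanc : M.Anc x0.1 c c' := by
      rcases le_total k' k with h | h
      · refine ⟨k - k', ?_⟩
        rw [← hk', ← Function.iterate_add_apply, Nat.sub_add_cancel h, hk]
      · exfalso
        apply hc'n
        refine LMet.Cl.anc (N2_cl (M := M) x0 a) hca ⟨k' - k, ?_⟩
        rw [← hk, ← Function.iterate_add_apply, Nat.sub_add_cancel h, hk']
    have hne' : c ≠ c' := fun h => hc'n (h ▸ hca)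
    have hDc' : M.D c' x0.1 ≠ ⊤ := LMet.Anc.ne_top ⟨k', hk'⟩ hDw
    have hc'r : c' ≠ x0.1 := fun h => hc'n (h ▸ hra)
    have h5 := LMet.CAb_anc_toNat_le (LMet.anc_par_of_ne hanc hne') (LMet.par_ne_top hDc')
    have h6 := LMet.toNat_par_lt hc'r hDc'
    have h7 := hle a ha hra c' hc' ⟨k', hk'⟩
    have h8 : (M.D c x0.1).toNat + 1 ≤ (M.D c' x0.1).toNat := by omega
    have h9 := Nat.mul_le_mul_right (B + 1) h8
    have h10 : m a c' = (M.D c' x0.1).toNat * (B + 1) + (M.wd a c').toNat := rfl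
    have h11 : m x1 c = (M.D c x0.1).toNat * (B + 1) + (M.wd x1 c).toNat := rfl
    rw [h10, h11] at h7
    rw [add_mul] at h9
    omega
  · have hcF : c ∈ F2 M x0 a := ⟨hp, hca⟩
    have h7 := hle a ha hra c hcF hcw
    have h10 : m a c = (M.D c x0.1).toNat * (B + 1) + (M.wd a c).toNat := rfl
    have h11 : m x1 c = (M.D c x0.1).toNat * (B + 1) + (M.wd x1 c).toNat := rfl
    rw [h10, h11] at h7
    have h12 : (M.wd a c).toNat ≤ (M.wd x1 c).toNat := by omega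
    exact CEa_le (hleg a c hcF hcw).2.2 h3 h12

end Pool.Agent.BTD
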