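import Pool.Agent.BTD.CDc
import Pool.Agent.BTD.CEa

/-! Core CEb: positive regions. -/

set_option autoImplicit false

open Classical

namespace Pool.Agent.BTD

universe u

variable {V : Type u} {G : SimpleGraph V} {M : LMet G}

variable {B : ℕ} [Fintype V]

private lemma CEb_lo (rk : V → ℕ) (K : Set V) (n : ℕ) :
    ∃ lo : Option V, (∀ l, lo = some l → l ∈ K ∧ rk l < n) ∧
      ∀ d ∈ K, rk d < n → ∃ l, lo = some l ∧ rk d ≤ rk l := by
  by_cases h : ∃ d ∈ K, rk d < n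
  · obtain ⟨d0, hd0⟩ := h
    obtain ⟨l, hl, hmax⟩ := Set.exists_max_image {d | d ∈ K ∧ rk d < n} rk
      (Set.toFinite _) ⟨d0, hd0⟩
    refine ⟨some l, ?_, ?_⟩
    · intro l' hl'
      obtain rfl := Option.some.inj hl'
      exact hl
    · intro d hd hlt
      exact ⟨l, rfl, hmax d ⟨hd, hlt⟩⟩
  · refine ⟨none, ?_, ?_⟩
    · intro l hl
      cases hl
    · intro d hd hlt
      exact absurd ⟨d, hd, hlt⟩ h

private lemma CEb_hi (rk : V → ℕ) (K : Set V) (n : ℕ) :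
    ∃ hi : Option V, (∀ l, hi = some l → l ∈ K ∧ n < rk l) ∧
      ∀ d ∈ K, n < rk d → ∃ l, hi = some l ∧ rk l ≤ rk d := by
  by_cases h : ∃ d ∈ K, n < rk d
  · obtain ⟨d0, hd0⟩ := h
    obtain ⟨l, hl, hmin⟩ := Set.exists_min_image {d | d ∈ K ∧ n < rk d} rk
      (Set.toFinite _) ⟨d0, hd0⟩
    refine ⟨some l, ?_, ?_⟩
    · intro l' hl'
      obtain rfl := Option.some.inj hl'
      exact hl
    · intro d hd hlt
      exact ⟨l, rfl, hmin d ⟨hd, hlt⟩⟩
  · refine ⟨none, ?_, ?_⟩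
    · intro l hl
      cases hl
    · intro d hd hlt
      exact absurd ⟨d, hd, hlt⟩ h

lemma pos_region {X : Set (V × ℕ)} {x0 : V × ℕ} {e : V × ℕ} (O : RootOrd M B x0.1)
    (hx0 : M.inc e x0) (hmax : ∀ x ∈ X, M.wd x e.1 ≤ M.wd x0 e.1)
    (hne : ∃ x ∈ X, x0.1 ∈ N2 M x0 x) :
    ∃ x1 ∈ X, ∃ lo hi : Option V,
      (lo = none ∨ ∃ a ∈ X, x0.1 ∈ T0 M x0 x1 a ∧ ∃ c' ∈ QS M x0.1 O.rk (T0 M x0 x1 a)
        (T1 M x0 x1 a) (T2 M x0 x1 a), lo = some c') ∧
      (hi = none ∨ ∃ a ∈ X, x0.1 ∈ T0 M x0 x1 a ∧ ∃ c' ∈ QP M x0.1 O.rk (T0 M x0 x1 a)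
        (T1 M x0 x1 a) (T2 M x0 x1 a), hi = some c') ∧
      e ∈ PosReg M O.rk x0 x1 lo hi ∧
      ∀ e' ∈ PosReg M O.rk x0 x1 lo hi, ∀ x ∈ X, M.inc e' x := by
  have hinc : M.wd x0 e.1 ≤ e.2 := hx0
  have hw : M.wd x0 e.1 ≠ ⊤ := by
    intro htop
    rw [htop] at hinc
    exact absurd (top_le_iff.mp hinc) (ENat.coe_ne_top _)
  obtain ⟨x1, hx1, c, hcF, hrN, hce, halive⟩ := exists_deepest hw hmax hne
  have hFtop : ∀ d ∈ F2 M x0 x1, M.D d x0.1 ≠ ⊤ := fun d hd =>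
    LMet.wd_ne_top.mp (F2_facts hd).1
  have hinj : ∀ d ∈ F2 M x0 x1, O.rk d = O.rk c → d = c := fun d hd h =>
    O.inj d c (hFtop d hd) (hFtop c hcF) h
  let K : Set V := {d | d ∈ F2 M x0 x1 ∧ ∃ a ∈ X, ¬ Alive M x0 x1 a d}
  obtain ⟨lo, hlo1, hlo2⟩ := CEb_lo O.rk K (O.rk c)
  obtain ⟨hi, hhi1, hhi2⟩ := CEb_hi O.rk K (O.rk c)
  refine ⟨x1, hx1, lo, hi, ?_, ?_, ?_, ?_⟩
  · rcases lo with _ | l
    · exact Or.inl rfl
    · right
      obtain ⟨⟨hlF, a, haX, hla⟩, hlt⟩ := hlo1 l rfl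
      have hmem := killed_mem hlF hla
      refine ⟨a, haX, (T_facts x0 x1 a).1.root hmem.1, l, ?_, rfl⟩
      refine killed_left O hcF hlF hla hlt ?_
      intro d hd h1 h2
      by_contra hna
      rcases h2.lt_or_eq with h3 | h3
      · obtain ⟨l', hl', hle⟩ := hlo2 d ⟨hd, a, haX, hna⟩ h3
        obtain rfl := Option.some.inj hl'
        omega
      · have hdc := hinj d hd h3
        rw [hdc] at hna
        exact hna (halive a haX)
  · rcases hi with _ | l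
    · exact Or.inl rfl
    · right
      obtain ⟨⟨hlF, a, haX, hla⟩, hlt⟩ := hhi1 l rfl
      have hmem := killed_mem hlF hla
      refine ⟨a, haX, (T_facts x0 x1 a).1.root hmem.1, l, ?_, rfl⟩
      refine killed_right O hcF hlF hla hlt ?_
      intro d hd h1 h2
      by_contra hna
      rcases h1.lt_or_eq with h3 | h3
      · obtain ⟨l', hl', hle⟩ := hhi2 d ⟨hd, a, haX, hna⟩ h3
        obtain rfl := Option.some.inj hl'
        omega
      · have hdc := hinj d hd h3.symm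
        rw [hdc] at hna
        exact hna (halive a haX)
  · exact ⟨hinc, c, hcF, hce, fun l hl => (hlo1 l hl).2, fun l hl => (hhi1 l hl).2⟩
  · rintro e' ⟨hle, c', hc'F, hc'e, hb1, hb2⟩ x hx
    have hw' : M.wd x0 e'.1 ≠ ⊤ := by
      intro htop
      rw [htop] at hle
      exact absurd (top_le_iff.mp hle) (ENat.coe_ne_top _)
    have hal : Alive M x0 x1 x c' := by
      by_contra hna
      have hK : c' ∈ K := ⟨hc'F, x, hx, hna⟩
      rcases lt_trichotomy (O.rk c') (O.rk c) with h | h | h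
      · obtain ⟨l, hl, hle'⟩ := hlo2 c' hK h
        have := hb1 l hl
        omega
      · have hdc := hinj c' hc'F h
        rw [hdc] at hna
        exact hna (halive x hx)
      · obtain ⟨l, hl, hle'⟩ := hhi2 c' hK h
        have := hb2 l hl
        omega
    exact (alive_safe hc'F hal hw' hc'e).trans hle

end Pool.Agent.BTD
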