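import Pool.Agent.BTD.CEb
import Pool.Agent.BTD.CBb

/-! Core CEc: positive certificates. -/

set_option autoImplicit false

open Classical

namespace Pool.Agent.BTD

universe u

/-- decoder of an optional bound -/
noncomputable def CEc_dec {V : Type u} {B : ℕ} (en : Set V → Fin B → Option V)
    (Q : V × ℕ → Set V) (a : Option (V × ℕ)) (i : Option (Fin B)) : Option V :=
  match a, i with
  | some a, some i => en (Q a) i
  | _, _ => none

lemma CEc_dec_none {V : Type u} {B : ℕ} (en : Set V → Fin B → Option V)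
    (Q : V × ℕ → Set V) : CEc_dec en Q none none = none := rfl

lemma CEc_exists {V : Type u} {B : ℕ} (en : Set V → Fin B → Option V)
    (hen : ∀ Q : Set V, Q.ncard ≤ B → ∀ b ∈ Q, ∃ i, en Q i = some b)
    (Q : V × ℕ → Set V) (X : Set (V × ℕ)) (R : V × ℕ → Prop) (hQ : ∀ a, R a → (Q a).ncard ≤ B)
    (lo : Option V)
    (h : lo = none ∨ ∃ a ∈ X, R a ∧ ∃ c' ∈ Q a, lo = some c') :
    ∃ (a : Option (V × ℕ)) (i : Option (Fin B)), (∀ x, a = some x → x ∈ X) ∧
      CEc_dec en Q a i = lo := by
  rcases h with h | ⟨a, ha, hR, c', hc', h⟩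
  · exact ⟨none, none, by simp, by rw [h]; rfl⟩
  · obtain ⟨i, hi⟩ := hen (Q a) (hQ a hR) c' hc'
    refine ⟨some a, some i, ?_, ?_⟩
    · intro x hx
      cases hx
      exact ha
    · rw [h]
      exact hi

/-- Positive certificates. -/
theorem cert_pos (B : ℕ) : ∃ N : ℕ, ∀ (V : Type u) [Fintype V] (G : SimpleGraph V) (M : LMet G),
    (∀ r, Nonempty (RootOrd M B r)) → Cert true N M.inc Set.univ Set.univ := by
  refine ⟨4 + Fintype.card (Fin 3 × Option (Fin B) × Option (Fin B)), ?_⟩
  intro V _ G M hO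
  let O : ∀ r, RootOrd M B r := fun r => (hO r).some
  obtain ⟨en, hen⟩ := exists_enum V B
  let QL : V × ℕ → V × ℕ → V × ℕ → Set V := fun x0 x1 a =>
    QS M x0.1 (O x0.1).rk (T0 M x0 x1 a) (T1 M x0 x1 a) (T2 M x0 x1 a)
  let QR : V × ℕ → V × ℕ → V × ℕ → Set V := fun x0 x1 a =>
    QP M x0.1 (O x0.1).rk (T0 M x0 x1 a) (T1 M x0 x1 a) (T2 M x0 x1 a)
  refine ⟨Fin 4, Fin 3 × Option (Fin B) × Option (Fin B), inferInstance, inferInstance,
    by simp, by omega, ?_⟩
  refine ⟨fun h t => {e' | t.1 = 0 ∨ (t.1 = 1 ∧ ∃ x0, h 0 = some x0 ∧ M.wd x0 e'.1 ≤ e'.2) ∨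
    (t.1 = 2 ∧ ∃ x0 x1, h 0 = some x0 ∧ h 1 = some x1 ∧
      e' ∈ PosReg M (O x0.1).rk x0 x1 (CEc_dec en (QL x0 x1) (h 2) t.2.1)
        (CEc_dec en (QR x0 x1) (h 3) t.2.2))}, ?_⟩
  intro X _ e _ he
  have he' : ∀ x ∈ X, M.wd x e.1 ≤ e.2 := by
    intro x hx
    exact LMet.inc_iff.mp ((he x hx).mpr rfl)
  rcases X.eq_empty_or_nonempty with hX | hX
  · refine ⟨fun _ => none, (0, none, none), by simp, ?_, ?_⟩
    · left; rfl
    · intro e' _
      refine ⟨trivial, ?_⟩
      intro x hx
      rw [hX] at hx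
      exact absurd hx (Set.notMem_empty x)
  · -- the farthest site
    obtain ⟨x0, hx0, hmax⟩ : ∃ x0 ∈ X, ∀ x ∈ X, M.wd x e.1 ≤ M.wd x0 e.1 := by
      have hfin : ∀ x ∈ X, ((M.wd x e.1).toNat : ℕ∞) = M.wd x e.1 := by
        intro x hx
        exact ENat.natCast_toNat (ne_top_of_le_ne_top (ENat.natCast_ne_top _) (he' x hx))
      let S : Set ℕ := {n | ∃ x ∈ X, (M.wd x e.1).toNat = n}
      have hS : S.Nonempty := by
        obtain ⟨x, hx⟩ := hX
        exact ⟨_, x, hx, rfl⟩
      have hbd : BddAbove S := by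
        refine ⟨e.2, ?_⟩
        rintro n ⟨x, hx, rfl⟩
        have := he' x hx
        rw [← hfin x hx] at this
        exact_mod_cast this
      obtain ⟨x0, hx0, h0⟩ := Nat.sSup_mem hS hbd
      refine ⟨x0, hx0, ?_⟩
      intro x hx
      rw [← hfin x hx, ← hfin x0 hx0]
      have : (M.wd x e.1).toNat ≤ sSup S := le_csSup hbd ⟨x, hx, rfl⟩
      rw [← h0] at this
      exact_mod_cast this
    by_cases hne : ∃ x ∈ X, x0.1 ∈ N2 M x0 x
    · obtain ⟨x1, hx1, lo, hi, hlo, hhi, hmem, hall⟩ :=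
        pos_region (O x0.1) ((he x0 hx0).mpr rfl) hmax hne
      have hc1 : ∀ a, x0.1 ∈ T0 M x0 x1 a → (QL x0 x1 a).ncard ≤ B := by
        intro a ha
        obtain ⟨h0, h1, h2, h01, h02, h12⟩ := T_facts (M := M) x0 x1 a
        exact QS_card (O x0.1) h0 ha h1 h2 h01 h02 h12
      have hc2 : ∀ a, x0.1 ∈ T0 M x0 x1 a → (QR x0 x1 a).ncard ≤ B := by
        intro a ha
        obtain ⟨h0, h1, h2, h01, h02, h12⟩ := T_facts (M := M) x0 x1 a
        exact QP_card (O x0.1) h0 ha h1 h2 h01 h02 h12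
      obtain ⟨al, il, hal, hdl⟩ := CEc_exists en hen (QL x0 x1) X
        (fun a => x0.1 ∈ T0 M x0 x1 a) hc1 lo hlo
      obtain ⟨ar, ir, har, hdr⟩ := CEc_exists en hen (QR x0 x1) X
        (fun a => x0.1 ∈ T0 M x0 x1 a) hc2 hi hhi
      refine ⟨![some x0, some x1, al, ar], (2, il, ir), ?_, ?_, ?_⟩
      · intro i x hi'
        fin_cases i
        · simp only [Matrix.cons_val_zero, Fin.zero_eta] at hi'
          cases hi'
          exact hx0
        · have : some x1 = some x := hi'
          cases this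
          exact hx1
        · exact hal x hi'
        · exact har x hi'
      · right; right
        refine ⟨rfl, x0, x1, rfl, rfl, ?_⟩
        change e ∈ PosReg M (O x0.1).rk x0 x1 (CEc_dec en (QL x0 x1) al il)
          (CEc_dec en (QR x0 x1) ar ir)
        rw [hdl, hdr]
        exact hmem
      · intro e2 he2
        refine ⟨trivial, ?_⟩
        rcases he2 with h | h | h
        · exact absurd (show (2 : Fin 3) = 0 from h) (by decide)
        · exact absurd (show (2 : Fin 3) = 1 from h.1) (by decide)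
        · obtain ⟨_, y0, y1, h0, h1, h2⟩ := h
          have h0' : some x0 = some y0 := h0
          have h1' : some x1 = some y1 := h1
          cases h0'
          cases h1'
          have h2' : e2 ∈ PosReg M (O x0.1).rk x0 x1 (CEc_dec en (QL x0 x1) al il)
            (CEc_dec en (QR x0 x1) ar ir) := h2
          rw [hdl, hdr] at h2'
          intro x hx
          exact ⟨fun _ => rfl, fun _ => hall e2 h2' x hx⟩
    · push Not at hne
      refine ⟨fun _ => some x0, (1, none, none), ?_, ?_, ?_⟩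
      · intro i x hi'
        cases hi'
        exact hx0
      · right; left
        exact ⟨rfl, x0, rfl, he' x0 hx0⟩
      · intro e2 he2
        refine ⟨trivial, ?_⟩
        rcases he2 with h | h | h
        · exact absurd (show (1 : Fin 3) = 0 from h) (by decide)
        · obtain ⟨_, y0, h0, h1⟩ := h
          cases h0
          intro x hx
          refine ⟨fun _ => rfl, fun _ => ?_⟩
          rw [LMet.inc_iff]
          refine le_trans ?_ h1
          by_contra hlt
          have hm : e2.1 ∈ N2 M x0 x := lt_of_not_ge hlt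
          exact hne x hx ((N2_cl (M := M) x0 x).root hm)
        · exact absurd (show (1 : Fin 3) = 2 from h.1) (by decide)

end Pool.Agent.BTD
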