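import Pool.Agent.BTD.CBa

/-! Core CFa: the safe cell. -/

set_option autoImplicit false

open Classical

namespace Pool.Agent.BTD

universe u

variable {V : Type u} {G : SimpleGraph V} {M : LMet G}

lemma SU_cl (X : Set (V × ℕ)) (u0 : V × ℕ) : M.Cl u0.1 (SU M X u0) := by
  have h := LMet.cell_cl (M := M) u0 X ∅
  have e : {y | M.wd u0 y ≠ ⊤ ∧ (∀ z ∈ X, M.wd u0 y ≤ M.wd z y) ∧
      ∀ z ∈ (∅ : Set (V × ℕ)), M.wd u0 y < M.wd z y} = SU M X u0 := by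
    ext y
    simp only [SU, Set.mem_setOf_eq, Set.mem_empty_iff_false, false_imp_iff, implies_true,
      and_true]
  rwa [e] at h

lemma S2_cl (u0 u : V × ℕ) : M.Cl u0.1 (S2 M u0 u) := by
  have h := LMet.cell_cl (M := M) u0 {u} ∅
  have e : {y | M.wd u0 y ≠ ⊤ ∧ (∀ z ∈ ({u} : Set (V × ℕ)), M.wd u0 y ≤ M.wd z y) ∧
      ∀ z ∈ (∅ : Set (V × ℕ)), M.wd u0 y < M.wd z y} = S2 M u0 u := by
    ext y
    simp only [S2, Set.mem_setOf_eq, Set.mem_empty_iff_false, false_imp_iff, implies_true,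
      and_true, Set.mem_singleton_iff, forall_eq]
  rwa [e] at h

private lemma CFa_ne_top {a b : ℕ∞} (h : a < b) : a ≠ ⊤ := ne_top_of_lt h

lemma U_facts (u0 u v : V × ℕ) :
    M.Cl u0.1 (U0 M u0 u v) ∧ M.Cl u.1 (U1 M u0 u v) ∧ M.Cl v.1 (U2 M u0 u v) ∧
      Disjoint (U0 M u0 u v) (U1 M u0 u v) ∧ Disjoint (U0 M u0 u v) (U2 M u0 u v) ∧
      Disjoint (U1 M u0 u v) (U2 M u0 u v) := by
  refine ⟨?_, ?_, ?_, ?_, ?_, ?_⟩
  · have h := LMet.cell_cl (M := M) u0 {u, v} ∅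
    have e : {y | M.wd u0 y ≠ ⊤ ∧ (∀ z ∈ ({u, v} : Set (V × ℕ)), M.wd u0 y ≤ M.wd z y) ∧
        ∀ z ∈ (∅ : Set (V × ℕ)), M.wd u0 y < M.wd z y} = U0 M u0 u v := by
      ext y
      simp only [U0, Set.mem_setOf_eq, Set.mem_empty_iff_false, false_imp_iff, implies_true,
        and_true, Set.mem_singleton_iff, Set.mem_insert_iff, forall_eq_or_imp, forall_eq]
    rwa [e] at h
  · have h := LMet.cell_cl (M := M) u {v} {u0}
    have e : {y | M.wd u y ≠ ⊤ ∧ (∀ z ∈ ({v} : Set (V × ℕ)), M.wd u y ≤ M.wd z y) ∧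
        ∀ z ∈ ({u0} : Set (V × ℕ)), M.wd u y < M.wd z y} = U1 M u0 u v := by
      ext y
      simp only [U1, Set.mem_setOf_eq, Set.mem_singleton_iff, forall_eq]
      constructor
      · rintro ⟨_, h2, h3⟩
        exact ⟨h3, h2⟩
      · rintro ⟨h3, h2⟩
        exact ⟨CFa_ne_top h3, h2, h3⟩
    rwa [e] at h
  · have h := LMet.cell_cl (M := M) v ∅ {u0, u}
    have e : {y | M.wd v y ≠ ⊤ ∧ (∀ z ∈ (∅ : Set (V × ℕ)), M.wd v y ≤ M.wd z y) ∧
        ∀ z ∈ ({u0, u} : Set (V × ℕ)), M.wd v y < M.wd z y} = U2 M u0 u v := by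
      ext y
      simp only [U2, Set.mem_setOf_eq, Set.mem_empty_iff_false, false_imp_iff, implies_true,
        true_and, Set.mem_singleton_iff, Set.mem_insert_iff, forall_eq_or_imp, forall_eq]
      constructor
      · rintro ⟨_, h2, h3⟩
        exact ⟨h2, h3⟩
      · rintro ⟨h2, h3⟩
        exact ⟨CFa_ne_top h3, h2, h3⟩
    rwa [e] at h
  · rw [Set.disjoint_left]
    rintro y ⟨_, h1, _⟩ ⟨h2, _⟩
    exact absurd h2 (not_lt.mpr h1)
  · rw [Set.disjoint_left]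
    rintro y ⟨_, _, h1⟩ ⟨h2, _⟩
    exact absurd h2 (not_lt.mpr h1)
  · rw [Set.disjoint_left]
    rintro y ⟨_, h1⟩ ⟨_, h2⟩
    exact absurd h2 (not_lt.mpr h1)

/-- an element outside the safe cell has an ancestor in the frontier -/
lemma exists_FU {X : Set (V × ℕ)} {u0 : V × ℕ} {w y : V} (hw : w ∈ SU M X u0)
    (hy : M.wd u0 y ≠ ⊤) (hyS : y ∉ SU M X u0) : ∃ b ∈ FU M X u0, M.Anc u0.1 b y := by
  have hcl := SU_cl (M := M) X u0
  have hroot := LMet.Cl.root hcl hw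
  obtain ⟨b, hb1, hb2, _, hb4⟩ := LMet.exists_exit hcl hroot (LMet.wd_ne_top.mp hy) hyS
  exact ⟨b, ⟨hb4, hb2⟩, hb1⟩

/-- a site of `X` nearest to a frontier element kills it -/
lemma min_kills {X : Set (V × ℕ)} {u0 u : V × ℕ} {b : V} (hb : b ∈ FU M X u0) (hu : u ∈ X)
    (hmin : ∀ v ∈ X, M.wd u b ≤ M.wd v b) : M.wd u b < M.wd u0 b := by
  have hcl := SU_cl (M := M) X u0
  have hpar := hb.1
  have hbn : b ∉ SU M X u0 := hb.2
  have hne : M.wd u0 b ≠ ⊤ := by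
    rw [LMet.wd_ne_top]
    intro htop
    have hp : M.par u0.1 b = b := LMet.par_of_top htop
    rw [hp] at hpar
    exact hbn hpar
  by_contra hcon
  have hle : M.wd u0 b ≤ M.wd u b := not_lt.mp hcon
  exact hbn ⟨hne, fun v hv => hle.trans (hmin v hv)⟩

/-- no frontier element: everything in the component is safe -/
lemma neg_case0a {X : Set (V × ℕ)} {u0 : V × ℕ} {w : V} (hw : w ∈ SU M X u0)
    (h : FU M X u0 = ∅) : ∀ y, M.wd u0 y ≠ ⊤ → y ∈ SU M X u0 := by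
  intro y hy
  by_contra hyS
  obtain ⟨b, hb, _⟩ := exists_FU hw hy hyS
  rw [h] at hb
  exact hb

end Pool.Agent.BTD
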