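import Pool.Agent.BTD.CFa

/-! Core CFb: one-sided gaps. -/

set_option autoImplicit false

open Classical

namespace Pool.Agent.BTD

universe u

variable {V : Type u} {G : SimpleGraph V} {M : LMet G}

private lemma CFb_sub {X : Set (V × ℕ)} {u0 u : V × ℕ} (hu : u ∈ X) {y : V}
    (hy : y ∈ SU M X u0) : y ∈ S2 M u0 u := ⟨hy.1, hy.2 u hu⟩

private lemma CFb_not {X : Set (V × ℕ)} {u0 u : V × ℕ} {b : V} (hb : b ∈ FU M X u0)
    (hu : u ∈ X) (hmin : ∀ v ∈ X, M.wd u b ≤ M.wd v b) : b ∉ S2 M u0 u := by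
  intro h
  exact absurd (min_kills hb hu hmin) (not_lt.mpr h.2)

private lemma CFb_top {u0 u : V × ℕ} {c : V}
    (hc : c ∈ Fr M u0.1 (S2 M u0 u) (S2 M u0 u)ᶜ) : M.wd u0 c ≠ ⊤ := by
  rw [LMet.wd_ne_top]
  intro htop
  have hp : M.par u0.1 c = c := LMet.par_of_top htop
  have h1 := hc.1
  rw [hp] at h1
  exact hc.2 h1

private lemma CFb_D {u0 : V × ℕ} {c : V} (h : M.wd u0 c ≠ ⊤) : M.D c u0.1 ≠ ⊤ :=
  LMet.wd_ne_top.mp h

private lemma CFb_FU_top {X : Set (V × ℕ)} {u0 : V × ℕ} {b : V} (hb : b ∈ FU M X u0) :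
    M.D b u0.1 ≠ ⊤ := by
  intro htop
  have hp : M.par u0.1 b = b := LMet.par_of_top htop
  have h1 := hb.1
  rw [hp] at h1
  exact hb.2 h1

variable {B : ℕ} [Fintype V]

/-- no frontier element below `w`, first one `bR` above with nearest site `u` -/
lemma neg_case0b {X : Set (V × ℕ)} {u0 u : V × ℕ} {w bR : V} (O : RootOrd M B u0.1)
    (hw : w ∈ SU M X u0) (hL : ∀ b ∈ FU M X u0, O.rk w < O.rk b) (hbR : bR ∈ FU M X u0)
    (hR : ∀ b ∈ FU M X u0, O.rk bR ≤ O.rk b) (hu : u ∈ X)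
    (hmin : ∀ v ∈ X, M.wd u bR ≤ M.wd v bR) :
    bR ∈ Fr M u0.1 (S2 M u0 u) (S2 M u0 u)ᶜ ∧
      (∀ c ∈ Fr M u0.1 (S2 M u0 u) (S2 M u0 u)ᶜ, O.rk bR ≤ O.rk c) ∧
      ∀ y ∈ S2 M u0 u, O.rk y < O.rk bR → y ∈ SU M X u0 := by
  refine ⟨⟨CFb_sub hu hbR.1, CFb_not hbR hu hmin⟩, ?_, ?_⟩
  · intro c hc
    have hcn : c ∉ SU M X u0 := fun h => hc.2 (CFb_sub hu h)
    have hct := CFb_top hc
    obtain ⟨b, hb, hbc⟩ := exists_FU hw hct hcn
    exact (hR b hb).trans (O.anc_le b c (CFb_D hct) hbc)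
  · intro y hy hlt
    by_contra hyn
    obtain ⟨b, hb, hby⟩ := exists_FU hw hy.1 hyn
    have h1 := hR b hb
    have h2 := O.anc_le b y (CFb_D hy.1) hby
    omega

/-- no frontier element above `w`, last one `bL` below with nearest site `u` -/
lemma neg_case0c {X : Set (V × ℕ)} {u0 u : V × ℕ} {w bL : V} (O : RootOrd M B u0.1)
    (hw : w ∈ SU M X u0) (hR : ∀ b ∈ FU M X u0, O.rk b < O.rk w) (hbL : bL ∈ FU M X u0)
    (hL : ∀ b ∈ FU M X u0, O.rk b ≤ O.rk bL) (hu : u ∈ X)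
    (hmin : ∀ v ∈ X, M.wd u bL ≤ M.wd v bL) :
    bL ∈ Fr M u0.1 (S2 M u0 u) (S2 M u0 u)ᶜ ∧
      (∀ c ∈ Fr M u0.1 (S2 M u0 u) (S2 M u0 u)ᶜ, O.rk c ≤ O.rk bL) ∧
      ∀ y ∈ S2 M u0 u, O.rk bL < O.rk y → y ∈ SU M X u0 := by
  have hbn := CFb_not hbL hu hmin
  have hDL := CFb_FU_top hbL
  refine ⟨⟨CFb_sub hu hbL.1, hbn⟩, ?_, ?_⟩
  · intro c hc
    by_contra hlt
    push Not at hlt
    have hcn : c ∉ SU M X u0 := fun h => hc.2 (CFb_sub hu h)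
    have hct := CFb_top hc
    obtain ⟨b, hb, hbc⟩ := exists_FU hw hct hcn
    have hint := O.interval b bL c hDL (CFb_D hct) hbc (hL b hb) hlt.le
    have hbe : b = bL := Fr.eq_of_anc (W := Set.univ) (SU_cl X u0) hbL.1 hb.2 hint
    have hne : bL ≠ c := by
      rintro rfl
      exact lt_irrefl _ hlt
    rw [hbe] at hbc
    exact hbn ((S2_cl u0 u).anc hc.1 (LMet.anc_par_of_ne hbc hne))
  · intro y hy hlt
    by_contra hyn
    obtain ⟨b, hb, hby⟩ := exists_FU hw hy.1 hyn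
    have hint := O.interval b bL y hDL (CFb_D hy.1) hby (hL b hb) hlt.le
    have hbe : b = bL := Fr.eq_of_anc (W := Set.univ) (SU_cl X u0) hbL.1 hb.2 hint
    rw [hbe] at hby
    exact hbn ((S2_cl u0 u).anc hy hby)

end Pool.Agent.BTD
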