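import Pool.Agent.BTD.CFa

/-! Core CFc: gap with two different nearest sites. -/

set_option autoImplicit false

open Classical

namespace Pool.Agent.BTD

universe u

variable {V : Type u} {G : SimpleGraph V} {M : LMet G}

variable {B : ℕ} [Fintype V]

/-- the two neighbouring frontier elements have different nearest sites -/
lemma neg_case1 {X : Set (V × ℕ)} {u0 u u' : V × ℕ} {w bL bR : V} (O : RootOrd M B u0.1)
    (hw : w ∈ SU M X u0) (hbL : bL ∈ FU M X u0) (hbR : bR ∈ FU M X u0)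
    (hLw : O.rk bL < O.rk w) (hwR : O.rk w < O.rk bR)
    (hgap : ∀ b ∈ FU M X u0, O.rk b ≤ O.rk bL ∨ O.rk bR ≤ O.rk b) (hu : u ∈ X) (hu' : u' ∈ X)
    (hmin : ∀ v ∈ X, M.wd u bL ≤ M.wd v bL) (hmin' : ∀ v ∈ X, M.wd u' bR ≤ M.wd v bR)
    (hlt : M.wd u' bR < M.wd u bR) :
    bL ∈ QS M u0.1 O.rk (U0 M u0 u u') (U1 M u0 u u') (U2 M u0 u u') ∧
      bR ∈ QP M u0.1 O.rk (U0 M u0 u u') (U2 M u0 u u') (U1 M u0 u u') ∧
      w ∈ U0 M u0 u u' ∧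
      ∀ y ∈ U0 M u0 u u', O.rk bL < O.rk y → O.rk y < O.rk bR → y ∈ SU M X u0 := by
  have hXu : SU M X u0 ⊆ U0 M u0 u u' := fun y hy => ⟨hy.1, hy.2 u hu, hy.2 u' hu'⟩
  obtain ⟨c0, -, -, d01, d02, -⟩ := U_facts (M := M) u0 u u'
  have hbL1 : bL ∈ U1 M u0 u u' := ⟨min_kills hbL hu hmin, hmin u' hu'⟩
  have hbR2 : bR ∈ U2 M u0 u u' := ⟨min_kills hbR hu' hmin', hlt⟩
  have hbL0 : bL ∉ U0 M u0 u u' := fun h => Set.disjoint_left.1 d01 h hbL1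
  have hr : u0.1 ∈ U0 M u0 u u' := LMet.Cl.root c0 (hXu hw)
  have hbLf : M.D bL u0.1 ≠ ⊤ :=
    (Fr.facts (W := U1 M u0 u u') c0 hr d01 ⟨hXu hbL.1, hbL1⟩).1
  have key : ∀ y, M.wd u0 y ≠ ⊤ → y ∉ SU M X u0 → O.rk bL < O.rk y → O.rk y < O.rk bR →
      M.Anc u0.1 bL y := by
    intro y hy hyS h1 h2
    obtain ⟨b, hb, hby⟩ := exists_FU hw hy hyS
    have hyD : M.D y u0.1 ≠ ⊤ := LMet.wd_ne_top.1 hy
    have h3 : O.rk b ≤ O.rk y := O.anc_le b y hyD hby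
    have h4 : O.rk b ≤ O.rk bL := by
      rcases hgap b hb with h | h
      · exact h
      · omega
    have h5 : M.Anc u0.1 b bL := O.interval b bL y hbLf hyD hby h4 h1.le
    have h6 : b = bL := Fr.eq_of_anc (W := (SU M X u0)ᶜ) (SU_cl X u0) hbL.1 hb.2 h5
    exact h6 ▸ hby
  have hno : ∀ d, M.par u0.1 d ∈ U0 M u0 u u' → d ∉ U0 M u0 u u' → M.D d u0.1 ≠ ⊤ →
      ¬ (O.rk bL < O.rk d ∧ O.rk d < O.rk bR) := by
    rintro d hd1 hd2 hd3 ⟨h1, h2⟩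
    have h3 := key d (LMet.wd_ne_top.2 hd3) (fun h => hd2 (hXu h)) h1 h2
    have h4 : bL ≠ d := by
      rintro rfl
      exact lt_irrefl _ h1
    exact hbL0 (LMet.Cl.anc c0 hd1 (LMet.anc_par_of_ne h3 h4))
  have hdis : Disjoint (U0 M u0 u u') (U1 M u0 u u' ∪ U2 M u0 u u') :=
    Set.disjoint_union_right.2 ⟨d01, d02⟩
  have hlr : O.rk bL < O.rk bR := hLw.trans hwR
  have hs : Succ3 M u0.1 O.rk (U0 M u0 u u') (U1 M u0 u u') (U2 M u0 u u') bL bR := by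
    refine ⟨⟨hXu hbL.1, Or.inl hbL1⟩, ⟨hXu hbR.1, Or.inr hbR2⟩, hlr, ?_⟩
    intro d hd
    obtain ⟨f1, -, f3⟩ := Fr.facts c0 hr hdis hd
    exact hno d hd.1 f3 f1
  refine ⟨⟨hbL1, bR, hbR2, hs⟩, ⟨hbR2, bL, hbL1, ?_⟩, hXu hw, ?_⟩
  · unfold Succ3 at hs ⊢
    rw [Set.union_comm (U2 M u0 u u')]
    exact hs
  · intro y hy h1 h2
    by_contra hyS
    exact hbL0 (LMet.Cl.anc c0 hy (key y hy.1 hyS h1 h2))

end Pool.Agent.BTD
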