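import Pool.Agent.BTD.CFa

/-! Core CFe: right end of a run of gaps. -/

set_option autoImplicit false

open Classical

namespace Pool.Agent.BTD

universe u

variable {V : Type u} {G : SimpleGraph V} {M : LMet G}

variable {B : ℕ} [Fintype V]

private lemma CFe_max (S : Set V) (rk : V → ℕ) (h : S.Nonempty) :
    ∃ z ∈ S, ∀ y ∈ S, rk y ≤ rk z := by
  obtain ⟨x, hx⟩ := h
  obtain ⟨z, hz, hm⟩ := Finset.exists_max_image (Finset.univ.filter (fun y => y ∈ S)) rk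
    ⟨x, by simpa using hx⟩
  exact ⟨z, by simpa using hz, fun y hy => hm y (by simpa using hy)⟩

private lemma CFe_min (S : Set V) (rk : V → ℕ) (h : S.Nonempty) :
    ∃ z ∈ S, ∀ y ∈ S, rk z ≤ rk y := by
  obtain ⟨x, hx⟩ := h
  obtain ⟨z, hz, hm⟩ := Finset.exists_min_image (Finset.univ.filter (fun y => y ∈ S)) rk
    ⟨x, by simpa using hx⟩
  exact ⟨z, by simpa using hz, fun y hy => hm y (by simpa using hy)⟩

/-- right end: `u` nearest at the first frontier element `bR` above `w`, but some element of the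
two-site cell above `w` is unsafe -/
lemma neg_case2R {X : Set (V × ℕ)} {u0 u : V × ℕ} {w bR z : V} (O : RootOrd M B u0.1)
    (hw : w ∈ SU M X u0) (hbR : bR ∈ FU M X u0) (hwR : O.rk w < O.rk bR)
    (hR : ∀ b ∈ FU M X u0, O.rk w < O.rk b → O.rk bR ≤ O.rk b) (hu : u ∈ X)
    (hmin : ∀ v ∈ X, M.wd u bR ≤ M.wd v bR) (hattain : ∀ b ∈ FU M X u0, ∃ v ∈ X, ∀ v' ∈ X,
      M.wd v b ≤ M.wd v' b)
    (hz : z ∈ S2 M u0 u) (hzS : z ∉ SU M X u0) (hwz : O.rk w < O.rk z) :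
    ∃ v ∈ X, ∃ c2 ∈ QS M u0.1 O.rk (U0 M u0 u v) (U1 M u0 u v) (U2 M u0 u v),
      O.rk w < O.rk c2 ∧
      ∀ y ∈ S2 M u0 u, O.rk w < O.rk y → O.rk y < O.rk c2 → y ∈ SU M X u0 := by
  obtain ⟨z', ⟨hz1, hz2, hz3⟩, hzm⟩ := CFe_min
    {y | y ∈ S2 M u0 u ∧ y ∉ SU M X u0 ∧ O.rk w < O.rk y} O.rk ⟨z, hz, hzS, hwz⟩
  have hSU := SU_cl (M := M) X u0
  have hrSU : u0.1 ∈ SU M X u0 := LMet.Cl.root hSU hw
  have hDz : M.D z' u0.1 ≠ ⊤ := LMet.wd_ne_top.1 hz1.1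
  have hDw : M.D w u0.1 ≠ ⊤ := (hSU w hw).1
  obtain ⟨b, hb, hbz⟩ := exists_FU hw hz1.1 hz2
  have hfb := Fr.facts hSU hrSU disjoint_compl_right hb
  have hfbR := Fr.facts hSU hrSU disjoint_compl_right hbR
  have hbzr : O.rk b ≤ O.rk z' := O.anc_le b z' hDz hbz
  have hwb : O.rk w < O.rk b := by
    by_contra hcon
    have h1 : M.Anc u0.1 b w :=
      O.interval b w z' hDw hDz hbz (by omega) (by omega)
    exact hfb.2.2 (LMet.Cl.anc hSU hw h1)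
  have hbR' : O.rk bR ≤ O.rk b := hR b hb hwb
  have hkR := min_kills hbR hu hmin
  have hbS2 : b ∈ S2 M u0 u := LMet.Cl.anc (S2_cl u0 u) hz1 hbz
  have hne : b ≠ bR := by
    rintro rfl
    exact absurd hbS2.2 (not_le.2 hkR)
  have hltR : O.rk bR < O.rk b := by
    rcases Nat.lt_or_ge (O.rk bR) (O.rk b) with h | h
    · exact h
    · exact absurd (O.inj b bR hfb.1 hfbR.1 (le_antisymm h hbR')) hne
  have hzb : O.rk z' ≤ O.rk b := hzm b ⟨hbS2, hfb.2.2, hwb⟩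
  obtain ⟨v, hv, hvm⟩ := hattain b hb
  have hkb := min_kills hb hv hvm
  have hbU2 : b ∈ U2 M u0 u v := ⟨hkb, lt_of_lt_of_le hkb hbS2.2⟩
  have hRU1 : bR ∈ U1 M u0 u v := ⟨hkR, hmin v hv⟩
  have hsub : ∀ y ∈ SU M X u0, y ∈ U0 M u0 u v := fun y hy => ⟨hy.1, hy.2 u hu, hy.2 v hv⟩
  obtain ⟨hc0, hc1, hc2, hd01, hd02, hd12⟩ := U_facts (M := M) u0 u v
  have hrU : u0.1 ∈ U0 M u0 u v := hsub _ hrSU
  have hdis : Disjoint (U0 M u0 u v) (U1 M u0 u v ∪ U2 M u0 u v) :=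
    Set.disjoint_union_right.2 ⟨hd01, hd02⟩
  have hbF : b ∈ Fr M u0.1 (U0 M u0 u v) (U1 M u0 u v ∪ U2 M u0 u v) :=
    ⟨hsub _ hb.1, Or.inr hbU2⟩
  have hRF : bR ∈ Fr M u0.1 (U0 M u0 u v) (U1 M u0 u v ∪ U2 M u0 u v) :=
    ⟨hsub _ hbR.1, Or.inl hRU1⟩
  obtain ⟨c2, ⟨hcF, hcU, hcb⟩, hcm⟩ := CFe_max
    {c | c ∈ Fr M u0.1 (U0 M u0 u v) (U1 M u0 u v ∪ U2 M u0 u v) ∧ c ∈ U1 M u0 u v ∧
      O.rk c < O.rk b} O.rk ⟨bR, hRF, hRU1, hltR⟩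
  have hRc : O.rk bR ≤ O.rk c2 := hcm bR ⟨hRF, hRU1, hltR⟩
  obtain ⟨d, ⟨hdF, hdc⟩, hdm⟩ := CFe_min
    {d | d ∈ Fr M u0.1 (U0 M u0 u v) (U1 M u0 u v ∪ U2 M u0 u v) ∧ O.rk c2 < O.rk d} O.rk
    ⟨b, hbF, hcb⟩
  have hfd := Fr.facts hc0 hrU hdis hdF
  have hdb : O.rk d ≤ O.rk b := hdm b ⟨hbF, hcb⟩
  have hdU2 : d ∈ U2 M u0 u v := by
    rcases hdF.2 with h | h
    · exfalso
      rcases Nat.lt_or_ge (O.rk d) (O.rk b) with h' | h'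
      · have := hcm d ⟨hdF, h, h'⟩
        omega
      · have : b = d := O.inj b d hfb.1 hfd.1 (le_antisymm h' hdb)
        subst this
        exact Set.disjoint_left.1 hd12 h hbU2
    · exact h
  refine ⟨v, hv, c2, ⟨hcU, d, hdU2, hcF, hdF, hdc, ?_⟩, by omega, ?_⟩
  · rintro e he ⟨h1, h2⟩
    have := hdm e ⟨he, h1⟩
    omega
  · intro y hy h1 h2
    by_contra hyS
    have := hzm y ⟨hy, hyS, h1⟩
    omega

end Pool.Agent.BTD
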