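import Pool.Agent.BTD.CAb

/-! Core CGa: components. -/

set_option autoImplicit false

open Classical

namespace Pool.Agent.BTD

universe u

variable {V : Type u} {G : SimpleGraph V} {M : LMet G}

/-- An enumeration of the components: equal values iff same component. -/
lemma exists_cidx (G : SimpleGraph V) [Fintype V] :
    ∃ ci : V → ℕ, ∀ v w, ci v = ci w ↔ G.Reachable v w := by
  haveI : Finite G.ConnectedComponent := Quot.finite _
  obtain ⟨n, ⟨e⟩⟩ := Finite.exists_equiv_fin G.ConnectedComponent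
  refine ⟨fun v => (e (G.connectedComponentMk v)).val, ?_⟩
  intro v w
  rw [Fin.val_inj, e.injective.eq_iff, SimpleGraph.ConnectedComponent.eq]

/-- Case B: no site in the component of `w`: components strictly between two component indices. -/
lemma neg_comp [Fintype V] {X : Set (V × ℕ)} {w : V} (ci : V → ℕ)
    (hci : ∀ v w, ci v = ci w ↔ G.Reachable v w) (hX : ∀ u ∈ X, M.wd u w = ⊤) :
    ∃ lo hi : Option (V × ℕ), (∀ l, lo = some l → l ∈ X) ∧ (∀ l, hi = some l → l ∈ X) ∧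
      (∀ l, lo = some l → ci l.1 < ci w) ∧ (∀ l, hi = some l → ci w < ci l.1) ∧
      ∀ y, (∀ l, lo = some l → ci l.1 < ci y) → (∀ l, hi = some l → ci y < ci l.1) →
        ∀ u ∈ X, M.wd u y = ⊤ := by
  have hne : ∀ u ∈ X, ci u.1 ≠ ci w := by
    intro u hu h
    have h1 := (hci _ _).mp h
    have h2 : M.D w u.1 ≠ ⊤ := LMet.ne_top_iff.mpr h1.symm
    exact (LMet.wd_ne_top (M := M) (x := u) (y := w)).mpr h2 (hX u hu)
  have hlo : ∃ lo : Option (V × ℕ), (∀ l, lo = some l → l ∈ X) ∧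
      (∀ l, lo = some l → ci l.1 < ci w) ∧
      ∀ u ∈ X, ci u.1 < ci w → ∃ l, lo = some l ∧ ci u.1 ≤ ci l.1 := by
    by_cases h : ∃ u ∈ X, ci u.1 < ci w
    · let s : Set ℕ := {n | ∃ u ∈ X, ci u.1 < ci w ∧ ci u.1 = n}
      have hs1 : s.Nonempty := by
        obtain ⟨u, hu, hl⟩ := h
        exact ⟨_, u, hu, hl, rfl⟩
      have hs2 : BddAbove s := by
        refine ⟨ci w, ?_⟩
        rintro n ⟨u, _, hl, rfl⟩
        exact hl.le
      obtain ⟨l, hl1, hl2, hl3⟩ := Nat.sSup_mem hs1 hs2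
      refine ⟨some l, ?_, ?_, ?_⟩
      · rintro l' h'
        cases h'
        exact hl1
      · rintro l' h'
        cases h'
        exact hl2
      · intro u hu hlt
        refine ⟨l, rfl, ?_⟩
        rw [hl3]
        exact le_csSup hs2 ⟨u, hu, hlt, rfl⟩
    · refine ⟨none, by simp, by simp, ?_⟩
      intro u hu hlt
      exact absurd ⟨u, hu, hlt⟩ h
  have hhi : ∃ hi : Option (V × ℕ), (∀ l, hi = some l → l ∈ X) ∧
      (∀ l, hi = some l → ci w < ci l.1) ∧
      ∀ u ∈ X, ci w < ci u.1 → ∃ l, hi = some l ∧ ci l.1 ≤ ci u.1 := by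
    by_cases h : ∃ u ∈ X, ci w < ci u.1
    · let s : Set ℕ := {n | ∃ u ∈ X, ci w < ci u.1 ∧ ci u.1 = n}
      have hs1 : s.Nonempty := by
        obtain ⟨u, hu, hl⟩ := h
        exact ⟨_, u, hu, hl, rfl⟩
      obtain ⟨l, hl1, hl2, hl3⟩ := Nat.sInf_mem hs1
      refine ⟨some l, ?_, ?_, ?_⟩
      · rintro l' h'
        cases h'
        exact hl1
      · rintro l' h'
        cases h'
        exact hl2
      · intro u hu hlt
        refine ⟨l, rfl, ?_⟩
        rw [hl3]
        exact Nat.sInf_le ⟨u, hu, hlt, rfl⟩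
    · refine ⟨none, by simp, by simp, ?_⟩
      intro u hu hlt
      exact absurd ⟨u, hu, hlt⟩ h
  obtain ⟨lo, h1, h2, h3⟩ := hlo
  obtain ⟨hi, h4, h5, h6⟩ := hhi
  refine ⟨lo, hi, h1, h4, h2, h5, ?_⟩
  intro y hy1 hy2 u hu
  by_contra hne'
  have hr : G.Reachable y u.1 :=
    LMet.ne_top_iff.mp ((LMet.wd_ne_top (M := M) (x := u) (y := y)).mp hne')
  have he : ci y = ci u.1 := (hci _ _).mpr hr
  rcases lt_or_gt_of_ne (hne u hu) with h | h
  · obtain ⟨l, hl, hle⟩ := h3 u hu h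
    have := hy1 l hl
    omega
  · obtain ⟨l, hl, hle⟩ := h6 u hu h
    have := hy2 l hl
    omega

end Pool.Agent.BTD
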