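import Pool.Agent.BTD.CFb
import Pool.Agent.BTD.CFc
import Pool.Agent.BTD.CFd
import Pool.Agent.BTD.CFe

/-! Core CGb: negative regions. -/

set_option autoImplicit false

open Classical

namespace Pool.Agent.BTD

universe u

variable {V : Type u} {G : SimpleGraph V} {M : LMet G}

private lemma CGb_fu {X : Set (V × ℕ)} {u0 : V × ℕ} {b : V} (hb : b ∈ FU M X u0) :
    M.D b u0.1 ≠ ⊤ ∧ b ∉ SU M X u0 := by
  obtain ⟨h1, h2⟩ := hb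
  refine ⟨fun h => ?_, h2⟩
  rw [LMet.par_of_top h] at h1
  exact h2 h1

private lemma CGb_su {X : Set (V × ℕ)} {u0 : V × ℕ} {b : V} (hb : b ∈ SU M X u0) :
    M.D b u0.1 ≠ ⊤ := LMet.wd_ne_top.1 hb.1

private lemma CGb_s2 {X : Set (V × ℕ)} {u0 u : V × ℕ} {b : V} (hb : b ∈ SU M X u0)
    (hu : u ∈ X) : b ∈ S2 M u0 u := ⟨hb.1, hb.2 u hu⟩

private lemma CGb_u0 {X : Set (V × ℕ)} {u0 u v : V × ℕ} {b : V} (hb : b ∈ SU M X u0)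
    (hu : u ∈ X) (hv : v ∈ X) : u0.1 ∈ U0 M u0 u v := by
  have h : b ∈ U0 M u0 u v := ⟨hb.1, hb.2 u hu, hb.2 v hv⟩
  exact LMet.Cl.root (U_facts u0 u v).1 h

private lemma CGb_near {X : Set (V × ℕ)} {u0 : V × ℕ} (hu0 : u0 ∈ X) (b : V) :
    ∃ v ∈ X, ∀ v' ∈ X, M.wd v b ≤ M.wd v' b := by
  obtain ⟨_, ⟨v, hv, rfl⟩, hmin⟩ :=
    (wellFounded_lt (α := ℕ∞)).has_min ((fun v => M.wd v b) '' X) ⟨_, u0, hu0, rfl⟩
  exact ⟨v, hv, fun v' hv' => not_lt.1 (hmin _ ⟨v', hv', rfl⟩)⟩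

/-- Case A, all subcases: the safe region around `w` with its possible descriptions. -/
lemma neg_region {B : ℕ} [Fintype V] {X : Set (V × ℕ)} {u0 : V × ℕ} {w : V}
    (O : RootOrd M B u0.1) (hw : w ∈ SU M X u0) (hu0 : u0 ∈ X) :
    (∀ y, M.wd u0 y ≠ ⊤ → y ∈ SU M X u0) ∨
    (∃ u ∈ X, ∃ b, b ∈ Fr M u0.1 (S2 M u0 u) (S2 M u0 u)ᶜ ∧
      (∀ c ∈ Fr M u0.1 (S2 M u0 u) (S2 M u0 u)ᶜ, O.rk b ≤ O.rk c) ∧
      w ∈ Btw O.rk (S2 M u0 u) none (some b) ∧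
      Btw O.rk (S2 M u0 u) none (some b) ⊆ SU M X u0) ∨
    (∃ u ∈ X, ∃ b, b ∈ Fr M u0.1 (S2 M u0 u) (S2 M u0 u)ᶜ ∧
      (∀ c ∈ Fr M u0.1 (S2 M u0 u) (S2 M u0 u)ᶜ, O.rk c ≤ O.rk b) ∧
      w ∈ Btw O.rk (S2 M u0 u) (some b) none ∧
      Btw O.rk (S2 M u0 u) (some b) none ⊆ SU M X u0) ∨
    (∃ u ∈ X, ∃ u' ∈ X, u0.1 ∈ U0 M u0 u u' ∧
      ∃ b ∈ QS M u0.1 O.rk (U0 M u0 u u') (U1 M u0 u u') (U2 M u0 u u'),
      ∃ b' ∈ QP M u0.1 O.rk (U0 M u0 u u') (U2 M u0 u u') (U1 M u0 u u'),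
      w ∈ Btw O.rk (U0 M u0 u u') (some b) (some b') ∧
      Btw O.rk (U0 M u0 u u') (some b) (some b') ⊆ SU M X u0) ∨
    (∃ u ∈ X, ∃ lo hi : Option V,
      (lo = none ∨ ∃ v ∈ X, u0.1 ∈ U0 M u0 u v ∧
        ∃ c ∈ QP M u0.1 O.rk (U0 M u0 u v) (U1 M u0 u v) (U2 M u0 u v), lo = some c) ∧
      (hi = none ∨ ∃ v ∈ X, u0.1 ∈ U0 M u0 u v ∧
        ∃ c ∈ QS M u0.1 O.rk (U0 M u0 u v) (U1 M u0 u v) (U2 M u0 u v), hi = some c) ∧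
      w ∈ Btw O.rk (S2 M u0 u) lo hi ∧ Btw O.rk (S2 M u0 u) lo hi ⊆ SU M X u0) := by
  classical
  have hne : ∀ b ∈ FU M X u0, O.rk b ≠ O.rk w := by
    intro b hb h
    have h1 := CGb_fu hb
    have h2 := O.inj b w h1.1 (CGb_su hw) h
    exact h1.2 (h2 ▸ hw)
  have hattain : ∀ b ∈ FU M X u0, ∃ v ∈ X, ∀ v' ∈ X, M.wd v b ≤ M.wd v' b :=
    fun b _ => CGb_near hu0 b
  by_cases hF : FU M X u0 = ∅
  · exact Or.inl (neg_case0a hw hF)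
  have hFne : (FU M X u0).Nonempty := Set.nonempty_iff_ne_empty.2 hF
  by_cases hLe : ∀ b ∈ FU M X u0, O.rk w < O.rk b
  · refine Or.inr (Or.inl ?_)
    obtain ⟨bR, hbR, hmin⟩ := Set.exists_min_image (FU M X u0) O.rk (Set.toFinite _) hFne
    obtain ⟨u, hu, hum⟩ := hattain bR hbR
    obtain ⟨h1, h2, h3⟩ := neg_case0b O hw hLe hbR hmin hu hum
    refine ⟨u, hu, bR, h1, h2, ⟨CGb_s2 hw hu, by simp, ?_⟩, ?_⟩
    · intro l hl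
      rw [Option.some.injEq] at hl
      exact hl ▸ hLe bR hbR
    · rintro y ⟨hy1, _, hy3⟩
      exact h3 y hy1 (hy3 bR rfl)
  by_cases hRe : ∀ b ∈ FU M X u0, O.rk b < O.rk w
  · refine Or.inr (Or.inr (Or.inl ?_))
    obtain ⟨bL, hbL, hmax⟩ := Set.exists_max_image (FU M X u0) O.rk (Set.toFinite _) hFne
    obtain ⟨u, hu, hum⟩ := hattain bL hbL
    obtain ⟨h1, h2, h3⟩ := neg_case0c O hw hRe hbL hmax hu hum
    refine ⟨u, hu, bL, h1, h2, ⟨CGb_s2 hw hu, ?_, by simp⟩, ?_⟩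
    · intro l hl
      rw [Option.some.injEq] at hl
      exact hl ▸ hRe bL hbL
    · rintro y ⟨hy1, hy2, _⟩
      exact h3 y hy1 (hy2 bL rfl)
  push Not at hLe hRe
  obtain ⟨b1, hb1, hb1w⟩ := hLe
  obtain ⟨b2, hb2, hb2w⟩ := hRe
  obtain ⟨bL, ⟨hbL, hLw⟩, hLmax⟩ := Set.exists_max_image {b | b ∈ FU M X u0 ∧ O.rk b < O.rk w}
    O.rk (Set.toFinite _) ⟨b1, hb1, lt_of_le_of_ne hb1w (hne b1 hb1)⟩
  obtain ⟨bR, ⟨hbR, hwR⟩, hRmin⟩ := Set.exists_min_image {b | b ∈ FU M X u0 ∧ O.rk w < O.rk b}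
    O.rk (Set.toFinite _) ⟨b2, hb2, lt_of_le_of_ne hb2w (Ne.symm (hne b2 hb2))⟩
  have hL : ∀ b ∈ FU M X u0, O.rk b < O.rk w → O.rk b ≤ O.rk bL :=
    fun b hb h => hLmax b ⟨hb, h⟩
  have hR : ∀ b ∈ FU M X u0, O.rk w < O.rk b → O.rk bR ≤ O.rk b :=
    fun b hb h => hRmin b ⟨hb, h⟩
  have hgap : ∀ b ∈ FU M X u0, O.rk b ≤ O.rk bL ∨ O.rk bR ≤ O.rk b := by
    intro b hb
    rcases lt_or_gt_of_ne (hne b hb) with h | h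
    · exact Or.inl (hL b hb h)
    · exact Or.inr (hR b hb h)
  obtain ⟨u, hu, hum⟩ := hattain bL hbL
  obtain ⟨u', hu', hum'⟩ := hattain bR hbR
  by_cases hlt : M.wd u' bR < M.wd u bR
  · refine Or.inr (Or.inr (Or.inr (Or.inl ?_)))
    obtain ⟨h1, h2, h3, h4⟩ := neg_case1 O hw hbL hbR hLw hwR hgap hu hu' hum hum' hlt
    refine ⟨u, hu, u', hu', CGb_u0 hw hu hu', bL, h1, bR, h2, ⟨h3, ?_, ?_⟩, ?_⟩
    · intro l hl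
      rw [Option.some.injEq] at hl
      exact hl ▸ hLw
    · intro l hl
      rw [Option.some.injEq] at hl
      exact hl ▸ hwR
    · rintro y ⟨hy1, hy2, hy3⟩
      exact h4 y hy1 (hy2 bL rfl) (hy3 bR rfl)
  refine Or.inr (Or.inr (Or.inr (Or.inr ?_)))
  have humR : ∀ v ∈ X, M.wd u bR ≤ M.wd v bR := fun v hv => (not_lt.1 hlt).trans (hum' v hv)
  have hlo : ∃ lo : Option V, (lo = none ∨ ∃ v ∈ X, u0.1 ∈ U0 M u0 u v ∧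
        ∃ c ∈ QP M u0.1 O.rk (U0 M u0 u v) (U1 M u0 u v) (U2 M u0 u v), lo = some c) ∧
      (∀ l, lo = some l → O.rk l < O.rk w) ∧
      ∀ y ∈ S2 M u0 u, (∀ l, lo = some l → O.rk l < O.rk y) → O.rk y < O.rk w →
        y ∈ SU M X u0 := by
    by_cases hz : ∃ z ∈ S2 M u0 u, z ∉ SU M X u0 ∧ O.rk z < O.rk w
    · obtain ⟨z, hz1, hz2, hz3⟩ := hz
      obtain ⟨v, hv, c, hc, hcw, hcy⟩ := neg_case2L O hw hbL hLw hL hu hum hattain hz1 hz2 hz3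
      refine ⟨some c, Or.inr ⟨v, hv, CGb_u0 hw hu hv, c, hc, rfl⟩, ?_, ?_⟩
      · intro l hl
        rw [Option.some.injEq] at hl
        exact hl ▸ hcw
      · intro y hy h1 h2
        exact hcy y hy (h1 c rfl) h2
    · refine ⟨none, Or.inl rfl, by simp, ?_⟩
      intro y hy _ h2
      by_contra h3
      exact hz ⟨y, hy, h3, h2⟩
  have hhi : ∃ hi : Option V, (hi = none ∨ ∃ v ∈ X, u0.1 ∈ U0 M u0 u v ∧
        ∃ c ∈ QS M u0.1 O.rk (U0 M u0 u v) (U1 M u0 u v) (U2 M u0 u v), hi = some c) ∧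
      (∀ l, hi = some l → O.rk w < O.rk l) ∧
      ∀ y ∈ S2 M u0 u, (∀ l, hi = some l → O.rk y < O.rk l) → O.rk w < O.rk y →
        y ∈ SU M X u0 := by
    by_cases hz : ∃ z ∈ S2 M u0 u, z ∉ SU M X u0 ∧ O.rk w < O.rk z
    · obtain ⟨z, hz1, hz2, hz3⟩ := hz
      obtain ⟨v, hv, c, hc, hcw, hcy⟩ := neg_case2R O hw hbR hwR hR hu humR hattain hz1 hz2 hz3
      refine ⟨some c, Or.inr ⟨v, hv, CGb_u0 hw hu hv, c, hc, rfl⟩, ?_, ?_⟩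
      · intro l hl
        rw [Option.some.injEq] at hl
        exact hl ▸ hcw
      · intro y hy h1 h2
        exact hcy y hy h2 (h1 c rfl)
    · refine ⟨none, Or.inl rfl, by simp, ?_⟩
      intro y hy _ h2
      by_contra h3
      exact hz ⟨y, hy, h3, h2⟩
  obtain ⟨lo, hlo1, hlo2, hlo3⟩ := hlo
  obtain ⟨hi, hhi1, hhi2, hhi3⟩ := hhi
  refine ⟨u, hu, lo, hi, hlo1, hhi1, ⟨CGb_s2 hw hu, hlo2, hhi2⟩, ?_⟩
  rintro y ⟨hy1, hy2, hy3⟩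
  rcases lt_trichotomy (O.rk y) (O.rk w) with h | h | h
  · exact hlo3 y hy1 hy2 h
  · have h1 := O.inj y w (LMet.wd_ne_top.1 hy1.1) (CGb_su hw) h
    exact h1 ▸ hw
  · exact hhi3 y hy1 hy3 h

end Pool.Agent.BTD
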