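import Pool.Agent.BTD.CGa
import Pool.Agent.BTD.CGb
import Pool.Agent.BTD.CBb

/-! Core CGc: negative certificates. -/

set_option autoImplicit false

open Classical

namespace Pool.Agent.BTD

universe u

/-- decoder of an optional bound -/
noncomputable def CGc_dec {V : Type u} {B : ℕ} (en : Set V → Fin B → Option V)
    (Q : V × ℕ → Set V) (a : Option (V × ℕ)) (i : Option (Fin B)) : Option V :=
  match a, i with
  | some a, some i => en (Q a) i
  | _, _ => none

lemma CGc_exists {V : Type u} {B : ℕ} (en : Set V → Fin B → Option V)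
    (hen : ∀ Q : Set V, Q.ncard ≤ B → ∀ b ∈ Q, ∃ i, en Q i = some b)
    (Q : V × ℕ → Set V) (X : Set (V × ℕ)) (R : V × ℕ → Prop) (hQ : ∀ a, R a → (Q a).ncard ≤ B)
    (lo : Option V)
    (h : lo = none ∨ ∃ a ∈ X, R a ∧ ∃ c' ∈ Q a, lo = some c') :
    ∃ (a : Option (V × ℕ)) (i : Option (Fin B)), (∀ x, a = some x → x ∈ X) ∧
      CGc_dec en Q a i = lo := by
  rcases h with h | ⟨a, ha, hR, c', hc', h⟩
  · exact ⟨none, none, by simp, by rw [h]; rfl⟩
  · obtain ⟨i, hi⟩ := hen (Q a) (hQ a hR) c' hc'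
    refine ⟨some a, some i, ?_, ?_⟩
    · intro x hx
      cases hx
      exact ha
    · rw [h]
      exact hi

/-- members of the region are not covered -/
lemma CGc_not_inc {V : Type u} {G : SimpleGraph V} {M : LMet G} {X : Set (V × ℕ)}
    {u0 e' : V × ℕ} (h1 : (e'.2 : ℕ∞) < M.wd u0 e'.1) (h2 : e'.1 ∈ SU M X u0) :
    e' ∈ (Set.univ : Set (V × ℕ)) ∧ ∀ x ∈ X, (M.inc e' x ↔ false = true) := by
  refine ⟨trivial, ?_⟩
  intro x hx
  refine ⟨fun h => ?_, fun h => absurd h (by decide)⟩
  rw [LMet.inc_iff] at h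
  exact absurd (h1.trans_le (h2.2 x hx)) (not_lt.mpr h)

/-- Negative certificates. -/
theorem cert_neg (B : ℕ) : ∃ N : ℕ, ∀ (V : Type u) [Fintype V] (G : SimpleGraph V) (M : LMet G),
    (∀ r, Nonempty (RootOrd M B r)) → Cert false N M.inc Set.univ Set.univ := by
  refine ⟨4 + Fintype.card (Fin 7 × Option (Fin B) × Option (Fin B)), ?_⟩
  intro V _ G M hO
  let O : ∀ r, RootOrd M B r := fun r => (hO r).some
  obtain ⟨en, hen⟩ := exists_enum V B
  obtain ⟨ci, hci⟩ := exists_cidx G
  let QA : V × ℕ → V × ℕ → V × ℕ → Set V := fun u0 u v =>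
    QS M u0.1 (O u0.1).rk (U0 M u0 u v) (U1 M u0 u v) (U2 M u0 u v)
  let QB : V × ℕ → V × ℕ → V × ℕ → Set V := fun u0 u v =>
    QP M u0.1 (O u0.1).rk (U0 M u0 u v) (U2 M u0 u v) (U1 M u0 u v)
  let QC : V × ℕ → V × ℕ → V × ℕ → Set V := fun u0 u v =>
    QP M u0.1 (O u0.1).rk (U0 M u0 u v) (U1 M u0 u v) (U2 M u0 u v)
  let frm : V × ℕ → V × ℕ → Set V := fun u0 u => Fr M u0.1 (S2 M u0 u) (S2 M u0 u)ᶜ
  refine ⟨Fin 4, Fin 7 × Option (Fin B) × Option (Fin B), inferInstance, inferInstance,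
    by simp, by omega, ?_⟩
  let dec : (Fin 4 → Option (V × ℕ)) → Fin 7 × Option (Fin B) × Option (Fin B) →
      Set (V × ℕ) := fun h t =>
    match t.1 with
    | 0 => Set.univ
    | 1 => {e' | (∀ l, h 0 = some l → ci l.1 < ci e'.1) ∧ ∀ l, h 1 = some l → ci e'.1 < ci l.1}
    | 2 => {e' | ∃ u0, h 0 = some u0 ∧ (e'.2 : ℕ∞) < M.wd u0 e'.1 ∧ M.wd u0 e'.1 ≠ ⊤}
    | 3 => {e' | ∃ u0, h 0 = some u0 ∧ ∃ u, h 1 = some u ∧ (e'.2 : ℕ∞) < M.wd u0 e'.1 ∧
        ∃ b, b ∈ frm u0 u ∧ (∀ c ∈ frm u0 u, (O u0.1).rk b ≤ (O u0.1).rk c) ∧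
          e'.1 ∈ Btw (O u0.1).rk (S2 M u0 u) none (some b)}
    | 4 => {e' | ∃ u0, h 0 = some u0 ∧ ∃ u, h 1 = some u ∧ (e'.2 : ℕ∞) < M.wd u0 e'.1 ∧
        ∃ b, b ∈ frm u0 u ∧ (∀ c ∈ frm u0 u, (O u0.1).rk c ≤ (O u0.1).rk b) ∧
          e'.1 ∈ Btw (O u0.1).rk (S2 M u0 u) (some b) none}
    | 5 => {e' | ∃ u0, h 0 = some u0 ∧ ∃ u, h 1 = some u ∧ ∃ u', h 2 = some u' ∧
        (e'.2 : ℕ∞) < M.wd u0 e'.1 ∧
          e'.1 ∈ Btw (O u0.1).rk (U0 M u0 u u') (CGc_dec en (QA u0 u) (some u') t.2.1)
            (CGc_dec en (QB u0 u) (some u') t.2.2)}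
    | 6 => {e' | ∃ u0, h 0 = some u0 ∧ ∃ u, h 1 = some u ∧ (e'.2 : ℕ∞) < M.wd u0 e'.1 ∧
          e'.1 ∈ Btw (O u0.1).rk (S2 M u0 u) (CGc_dec en (QC u0 u) (h 2) t.2.1)
            (CGc_dec en (QA u0 u) (h 3) t.2.2)}
  refine ⟨dec, ?_⟩
  intro X _ e _ he
  have he' : ∀ x ∈ X, (e.2 : ℕ∞) < M.wd x e.1 := by
    intro x hx
    by_contra hlt
    exact absurd ((he x hx).mp (LMet.inc_iff.mpr (not_lt.mp hlt))) (by decide)
  rcases X.eq_empty_or_nonempty with hX | hX
  · refine ⟨fun _ => none, (0, none, none), by simp, ?_, ?_⟩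
    · exact Set.mem_univ _
    · intro e' _
      refine ⟨trivial, ?_⟩
      intro x hx
      rw [hX] at hx
      exact absurd hx (Set.notMem_empty x)
  by_cases htop : ∀ u ∈ X, M.wd u e.1 = ⊤
  · obtain ⟨lo, hi, h1, h2, h3, h4, h5⟩ := neg_comp ci hci htop
    refine ⟨![lo, hi, none, none], (1, none, none), ?_, ?_, ?_⟩
    · intro i x hx
      fin_cases i
      · exact h1 x hx
      · exact h2 x hx
      · exact absurd (show (none : Option (V × ℕ)) = some x from hx) (by simp)
      · exact absurd (show (none : Option (V × ℕ)) = some x from hx) (by simp)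
    · exact ⟨h3, h4⟩
    · intro e2 he2
      refine ⟨trivial, ?_⟩
      have he3 : (∀ l, lo = some l → ci l.1 < ci e2.1) ∧ ∀ l, hi = some l → ci e2.1 < ci l.1 :=
        he2
      intro x hx
      refine ⟨fun h => ?_, fun h => absurd h (by decide)⟩
      rw [LMet.inc_iff, h5 e2.1 he3.1 he3.2 x hx] at h
      exact absurd h (by simp)
  · -- the nearest site
    obtain ⟨u0, hu0, hmin⟩ : ∃ u0 ∈ X, ∀ x ∈ X, M.wd u0 e.1 ≤ M.wd x e.1 := by
      obtain ⟨m, hm, hm'⟩ := WellFounded.has_min (wellFounded_lt (α := ℕ∞))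
        ((fun x => M.wd x e.1) '' X) (hX.image _)
      obtain ⟨u0, hu0, rfl⟩ := hm
      exact ⟨u0, hu0, fun x hx => not_lt.mp (hm' _ ⟨x, hx, rfl⟩)⟩
    have hne : M.wd u0 e.1 ≠ ⊤ := by
      push Not at htop
      obtain ⟨x, hx, hx'⟩ := htop
      exact ne_top_of_le_ne_top hx' (hmin x hx)
    have hw : e.1 ∈ SU M X u0 := ⟨hne, hmin⟩
    have hlt := he' u0 hu0
    rcases neg_region (O u0.1) hw hu0 with h | ⟨u, hu, b, hb, hb', hm, hsub⟩ |
      ⟨u, hu, b, hb, hb', hm, hsub⟩ | ⟨u, hu, u', hu', hr, b, hb, b', hb', hm, hsub⟩ |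
      ⟨u, hu, lo, hi, hlo, hhi, hm, hsub⟩
    · refine ⟨fun _ => some u0, (2, none, none), ?_, ?_, ?_⟩
      · intro i x hx
        cases hx
        exact hu0
      · exact ⟨u0, rfl, hlt, hne⟩
      · rintro e2 ⟨v0, hv0, h1, h2⟩
        cases hv0
        exact CGc_not_inc h1 (h _ h2)
    · refine ⟨![some u0, some u, none, none], (3, none, none), ?_, ?_, ?_⟩
      · intro i x hx
        fin_cases i
        · cases (show some u0 = some x from hx)
          exact hu0
        · cases (show some u = some x from hx)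
          exact hu
        · exact absurd (show (none : Option (V × ℕ)) = some x from hx) (by simp)
        · exact absurd (show (none : Option (V × ℕ)) = some x from hx) (by simp)
      · exact ⟨u0, rfl, u, rfl, hlt, b, hb, hb', hm⟩
      · rintro e2 ⟨v0, hv0, v, hv, h1, c, hc, hc', h2⟩
        cases (show some u0 = some v0 from hv0)
        cases (show some u = some v from hv)
        refine CGc_not_inc h1 (hsub ?_)
        have hbc : (O u0.1).rk b = (O u0.1).rk c := le_antisymm (hb' c hc) (hc' b hb)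
        refine ⟨h2.1, h2.2.1, ?_⟩
        intro l hl
        cases hl
        rw [hbc]
        exact h2.2.2 c rfl
    · refine ⟨![some u0, some u, none, none], (4, none, none), ?_, ?_, ?_⟩
      · intro i x hx
        fin_cases i
        · cases (show some u0 = some x from hx)
          exact hu0
        · cases (show some u = some x from hx)
          exact hu
        · exact absurd (show (none : Option (V × ℕ)) = some x from hx) (by simp)
        · exact absurd (show (none : Option (V × ℕ)) = some x from hx) (by simp)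
      · exact ⟨u0, rfl, u, rfl, hlt, b, hb, hb', hm⟩
      · rintro e2 ⟨v0, hv0, v, hv, h1, c, hc, hc', h2⟩
        cases (show some u0 = some v0 from hv0)
        cases (show some u = some v from hv)
        refine CGc_not_inc h1 (hsub ?_)
        have hbc : (O u0.1).rk b = (O u0.1).rk c := le_antisymm (hc' b hb) (hb' c hc)
        refine ⟨h2.1, ?_, h2.2.2⟩
        intro l hl
        cases hl
        rw [hbc]
        exact h2.2.1 c rfl
    · obtain ⟨h0, h1, h2, h01, h02, h12⟩ := U_facts (M := M) u0 u u'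
      obtain ⟨i, hi⟩ := hen (QA u0 u u') (QS_card (O u0.1) h0 hr h1 h2 h01 h02 h12) b hb
      obtain ⟨j, hj⟩ := hen (QB u0 u u') (QP_card (O u0.1) h0 hr h2 h1 h02 h01 h12.symm) b' hb'
      have hi' : CGc_dec en (QA u0 u) (some u') (some i) = some b := hi
      have hj' : CGc_dec en (QB u0 u) (some u') (some j) = some b' := hj
      refine ⟨![some u0, some u, some u', none], (5, some i, some j), ?_, ?_, ?_⟩
      · intro i x hx
        fin_cases i
        · cases (show some u0 = some x from hx)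
          exact hu0
        · cases (show some u = some x from hx)
          exact hu
        · cases (show some u' = some x from hx)
          exact hu'
        · exact absurd (show (none : Option (V × ℕ)) = some x from hx) (by simp)
      · refine ⟨u0, rfl, u, rfl, u', rfl, hlt, ?_⟩
        change e.1 ∈ Btw (O u0.1).rk (U0 M u0 u u') (CGc_dec en (QA u0 u) (some u') (some i))
            (CGc_dec en (QB u0 u) (some u') (some j))
        rw [hi', hj']
        exact hm
      · rintro e2 ⟨v0, hv0, v, hv, v', hv', g1, g2⟩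
        cases (show some u0 = some v0 from hv0)
        cases (show some u = some v from hv)
        cases (show some u' = some v' from hv')
        refine CGc_not_inc g1 (hsub ?_)
        have g3 : e2.1 ∈ Btw (O u0.1).rk (U0 M u0 u u')
            (CGc_dec en (QA u0 u) (some u') (some i))
            (CGc_dec en (QB u0 u) (some u') (some j)) := g2
        rw [hi', hj'] at g3
        exact g3
    · have hc1 : ∀ a, u0.1 ∈ U0 M u0 u a → (QC u0 u a).ncard ≤ B := by
        intro a ha
        obtain ⟨h0, h1, h2, h01, h02, h12⟩ := U_facts (M := M) u0 u a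
        exact QP_card (O u0.1) h0 ha h1 h2 h01 h02 h12
      have hc2 : ∀ a, u0.1 ∈ U0 M u0 u a → (QA u0 u a).ncard ≤ B := by
        intro a ha
        obtain ⟨h0, h1, h2, h01, h02, h12⟩ := U_facts (M := M) u0 u a
        exact QS_card (O u0.1) h0 ha h1 h2 h01 h02 h12
      obtain ⟨al, il, hal, hdl⟩ := CGc_exists en hen (QC u0 u) X
        (fun a => u0.1 ∈ U0 M u0 u a) hc1 lo hlo
      obtain ⟨ar, ir, har, hdr⟩ := CGc_exists en hen (QA u0 u) X
        (fun a => u0.1 ∈ U0 M u0 u a) hc2 hi hhi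
      refine ⟨![some u0, some u, al, ar], (6, il, ir), ?_, ?_, ?_⟩
      · intro i x hx
        fin_cases i
        · cases (show some u0 = some x from hx)
          exact hu0
        · cases (show some u = some x from hx)
          exact hu
        · exact hal x hx
        · exact har x hx
      · refine ⟨u0, rfl, u, rfl, hlt, ?_⟩
        change e.1 ∈ Btw (O u0.1).rk (S2 M u0 u) (CGc_dec en (QC u0 u) al il)
            (CGc_dec en (QA u0 u) ar ir)
        rw [hdl, hdr]
        exact hm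
      · rintro e2 ⟨v0, hv0, v, hv, g1, g2⟩
        cases (show some u0 = some v0 from hv0)
        cases (show some u = some v from hv)
        refine CGc_not_inc g1 (hsub ?_)
        have g3 : e2.1 ∈ Btw (O u0.1).rk (S2 M u0 u) (CGc_dec en (QC u0 u) al il)
            (CGc_dec en (QA u0 u) ar ir) := g2
        rw [hdl, hdr] at g3
        exact g3

end Pool.Agent.BTD
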