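import Pool.Agent.BTD.CDefs

/-! Core CHa: preorder lists. -/

set_option autoImplicit false

open Classical

namespace Pool.Agent.BTD

universe u

variable {V : Type u}

namespace PTree

variable (T : PTree V)

lemma cha_iter_mem {w : V} (hw : w ∈ T.comp) (k : ℕ) : T.p^[k] w ∈ T.comp := by
  induction k generalizing w with
  | zero => exact hw
  | succ k ih => rw [Function.iterate_succ_apply]; exact ih (T.p_mem w hw)

lemma cha_iter_root (k : ℕ) : T.p^[k] T.r = T.r := by
  induction k with
  | zero => rfl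
  | succ k ih => rw [Function.iterate_succ_apply, T.p_root, ih]

/-- the height does not increase along the parent map -/
lemma cha_mu_le {w : V} (hw : w ∈ T.comp) (k : ℕ) : T.mu (T.p^[k] w) ≤ T.mu w := by
  induction k generalizing w with
  | zero => exact le_rfl
  | succ k ih =>
    rw [Function.iterate_succ_apply]
    refine (ih (T.p_mem w hw)).trans ?_
    by_cases h : w = T.r
    · subst h; rw [T.p_root]
    · exact (T.mu_lt w hw h).le

/-- equal heights force equality along the parent map -/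
lemma cha_eq_of_mu {w : V} (hw : w ∈ T.comp) (k : ℕ) (h : T.mu w ≤ T.mu (T.p^[k] w)) :
    T.p^[k] w = w := by
  by_cases hr : w = T.r
  · subst hr; exact T.cha_iter_root k
  · cases k with
    | zero => rfl
    | succ k =>
      rw [Function.iterate_succ_apply] at h
      have h1 := T.cha_mu_le (T.p_mem w hw) k
      have h2 := T.mu_lt w hw hr
      omega

/-- a proper descendant goes through a child -/
lemma cha_last {w v : V} (k : ℕ) (h : T.p^[k] w = v) (hne : w ≠ v) :
    ∃ j : ℕ, j < k ∧ T.p^[j] w ≠ v ∧ T.p (T.p^[j] w) = v := by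
  induction k with
  | zero => exact absurd h hne
  | succ k ih =>
    by_cases h' : T.p^[k] w = v
    · obtain ⟨j, hj, h1, h2⟩ := ih h'
      exact ⟨j, by omega, h1, h2⟩
    · exact ⟨k, by omega, h', by rw [← h, Function.iterate_succ_apply']⟩

lemma mem_pre {n N : ℕ} (hN : ∀ v ∈ T.comp, T.mu v ≤ N) {v : V} (hv : v ∈ T.comp)
    (hn : N ≤ n + T.mu v) (w : V) :
    w ∈ pre T.ch n v ↔ w ∈ T.comp ∧ ∃ k : ℕ, T.p^[k] w = v := by
  induction n generalizing v with
  | zero =>
    simp only [pre, List.mem_singleton]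
    constructor
    · rintro rfl; exact ⟨hv, 0, rfl⟩
    · rintro ⟨hw, k, hk⟩
      have := T.cha_eq_of_mu hw k (by rw [hk]; have := hN w hw; omega)
      rw [← this, hk]
  | succ n ih =>
    simp only [pre, List.mem_cons, List.mem_flatMap]
    constructor
    · rintro (rfl | ⟨c, hc, hw⟩)
      · exact ⟨hv, 0, rfl⟩
      · obtain ⟨hc1, hc2, hc3⟩ := (T.mem_ch v hv c).1 hc
        have hlt := T.mu_lt c hc1 hc2
        rw [hc3] at hlt
        obtain ⟨hw1, k, hk⟩ := (ih hc1 (by omega)).1 hw
        exact ⟨hw1, k + 1, by rw [Function.iterate_succ_apply', hk, hc3]⟩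
    · rintro ⟨hw, k, hk⟩
      by_cases hwv : w = v
      · exact Or.inl hwv
      · right
        obtain ⟨j, hj, h1, h2⟩ := T.cha_last k hk hwv
        have hc1 := T.cha_iter_mem hw j
        have hcr : T.p^[j] w ≠ T.r := by
          intro h; rw [h, T.p_root] at h2; exact h1 (h.trans h2)
        have hlt := T.mu_lt _ hc1 hcr
        rw [h2] at hlt
        exact ⟨T.p^[j] w, (T.mem_ch v hv _).2 ⟨hc1, hcr, h2⟩, (ih hc1 (by omega)).2 ⟨hw, j, rfl⟩⟩

/-- two children of the same vertex with a common descendant are equal -/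
lemma cha_unique {w v c c' : V} (hw : w ∈ T.comp) (hc : c ∈ T.comp)
    (hcr : c ≠ T.r) (hpc : T.p c = v) (hc' : c' ∈ T.comp) (hcr' : c' ≠ T.r) (hpc' : T.p c' = v)
    {k k' : ℕ} (h : T.p^[k] w = c) (h' : T.p^[k'] w = c') : c = c' := by
  wlog hkk : k ≤ k' generalizing c c' k k'
  · exact (this hc' hcr' hpc' hc hcr hpc h' h (by omega)).symm
  obtain ⟨m, rfl⟩ := Nat.exists_eq_add_of_le hkk
  rw [Nat.add_comm, Function.iterate_add_apply, h] at h'
  cases m with
  | zero => exact h'
  | succ m =>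
    rw [Function.iterate_succ_apply, hpc] at h'
    have hv : v ∈ T.comp := hpc ▸ T.p_mem c hc
    have h1 := T.cha_mu_le hv m
    have h2 := T.mu_lt c' hc' hcr'
    rw [hpc'] at h2
    rw [h'] at h1
    omega

lemma nodup_pre {n N : ℕ} (hN : ∀ v ∈ T.comp, T.mu v ≤ N) {v : V} (hv : v ∈ T.comp)
    (hn : N ≤ n + T.mu v) : (pre T.ch n v).Nodup := by
  induction n generalizing v with
  | zero => simp [pre]
  | succ n ih =>
    have hch : ∀ c ∈ T.ch v, c ∈ T.comp ∧ c ≠ T.r ∧ T.p c = v ∧ N ≤ n + T.mu c := by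
      intro c hc
      obtain ⟨hc1, hc2, hc3⟩ := (T.mem_ch v hv c).1 hc
      have hlt := T.mu_lt c hc1 hc2
      rw [hc3] at hlt
      exact ⟨hc1, hc2, hc3, by omega⟩
    simp only [pre, List.nodup_cons]
    constructor
    · intro h
      obtain ⟨c, hc, hvc⟩ := List.mem_flatMap.1 h
      obtain ⟨hc1, hc2, hc3, hc4⟩ := hch c hc
      obtain ⟨_, k, hk⟩ := (T.mem_pre hN hc1 hc4 v).1 hvc
      have h1 := T.cha_mu_le hv k
      have h2 := T.mu_lt c hc1 hc2
      rw [hc3] at h2
      rw [hk] at h1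
      omega
    · rw [List.nodup_flatMap]
      refine ⟨fun c hc => ih (hch c hc).1 (hch c hc).2.2.2, ?_⟩
      refine (List.Pairwise.imp_of_mem ?_ (T.nodup v hv))
      intro c c' hc hc' hne
      obtain ⟨hc1, hc2, hc3, hc4⟩ := hch c hc
      obtain ⟨hd1, hd2, hd3, hd4⟩ := hch c' hc'
      rw [Function.onFun, List.disjoint_left]
      intro w hw hw'
      obtain ⟨hw1, k, hk⟩ := (T.mem_pre hN hc1 hc4 w).1 hw
      obtain ⟨_, k', hk'⟩ := (T.mem_pre hN hd1 hd4 w).1 hw'
      exact hne (T.cha_unique hw1 hc1 hc2 hc3 hd1 hd2 hd3 hk hk')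

lemma split_pre {n N : ℕ} (hN : ∀ v ∈ T.comp, T.mu v ≤ N) (hn : N ≤ n) {v : V}
    (hv : v ∈ T.comp) :
    ∃ (l₁ l₂ : List V) (m : ℕ), N ≤ m + T.mu v ∧ pre T.ch n T.r = l₁ ++ pre T.ch m v ++ l₂ := by
  induction hμ : T.mu v using Nat.strong_induction_on generalizing v with
  | _ μ ih =>
    by_cases hr : v = T.r
    · subst hr
      exact ⟨[], [], n, by omega, by simp⟩
    · have hlt := T.mu_lt v hv hr
      obtain ⟨l₁, l₂, m, hm, he⟩ := ih (T.mu (T.p v)) (by omega) (T.p_mem v hv) rfl
      have hvN := hN v hv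
      cases m with
      | zero => omega
      | succ m =>
        have hvc : v ∈ T.ch (T.p v) := (T.mem_ch _ (T.p_mem v hv) v).2 ⟨hv, hr, rfl⟩
        obtain ⟨s, t, hst⟩ := List.append_of_mem hvc
        refine ⟨l₁ ++ T.p v :: s.flatMap (pre T.ch m), t.flatMap (pre T.ch m) ++ l₂, m,
          by omega, ?_⟩
        rw [he]
        simp [pre, hst]

/-- subtrees are intervals of the preorder -/
theorem rank_facts {n N : ℕ} (hN : ∀ v ∈ T.comp, T.mu v ≤ N) (hn : N ≤ n) :
    (∀ a v, v ∈ T.comp → (∃ k : ℕ, T.p^[k] v = a) →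
      (pre T.ch n T.r).idxOf a ≤ (pre T.ch n T.r).idxOf v) ∧
    (∀ a y v, y ∈ T.comp → v ∈ T.comp → (∃ k : ℕ, T.p^[k] v = a) →
      (pre T.ch n T.r).idxOf a ≤ (pre T.ch n T.r).idxOf y →
      (pre T.ch n T.r).idxOf y ≤ (pre T.ch n T.r).idxOf v → ∃ k : ℕ, T.p^[k] y = a) := by
  -- index data of a vertex `a`: the subtree of `a` is an interval of indices starting at `a`
  have key : ∀ a ∈ T.comp, ∃ s e : ℕ, (pre T.ch n T.r).idxOf a = s ∧
      ∀ y ∈ T.comp, ((∃ k : ℕ, T.p^[k] y = a) ↔
        s ≤ (pre T.ch n T.r).idxOf y ∧ (pre T.ch n T.r).idxOf y < e) := by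
    intro a ha
    obtain ⟨l₁, l₂, m, hm, he⟩ := T.split_pre hN hn ha
    have hnd : (pre T.ch n T.r).Nodup := T.nodup_pre hN T.r_mem (by omega)
    rw [he, List.append_assoc] at hnd
    rw [List.nodup_append] at hnd
    obtain ⟨hnd1, hnd2, hdis⟩ := hnd
    rw [List.nodup_append] at hnd2
    obtain ⟨hnd3, hnd4, hdis2⟩ := hnd2
    have hroot : ∀ y ∈ T.comp, y ∈ pre T.ch n T.r := by
      intro y hy
      rw [T.mem_pre hN T.r_mem (by omega)]
      refine ⟨hy, ?_⟩
      induction hμ : T.mu y using Nat.strong_induction_on generalizing y with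
      | _ μ ih =>
        by_cases hr : y = T.r
        · exact ⟨0, hr⟩
        · have hlt := T.mu_lt y hy hr
          obtain ⟨k, hk⟩ := ih (T.mu (T.p y)) (by omega) (T.p y) (T.p_mem y hy) rfl
          exact ⟨k + 1, by rw [Function.iterate_succ_apply, hk]⟩
    refine ⟨l₁.length, l₁.length + (pre T.ch m a).length, ?_, ?_⟩
    · have haP : a ∈ pre T.ch m a := (T.mem_pre hN ha hm a).2 ⟨ha, 0, rfl⟩
      have ha1 : a ∉ l₁ := fun h => hdis a h a (List.mem_append_left _ haP) rfl
      rw [he, List.append_assoc, List.idxOf_append_of_notMem ha1]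
      have : (pre T.ch m a ++ l₂).idxOf a = 0 := by
        cases m with
        | zero => simp [pre]
        | succ m => simp [pre]
      omega
    · intro y hy
      have hyR := hroot y hy
      rw [he, List.append_assoc] at hyR
      rw [he, List.append_assoc]
      have hmem := T.mem_pre hN ha hm y
      constructor
      · intro hk
        have hyP : y ∈ pre T.ch m a := hmem.2 ⟨hy, hk⟩
        have hy1 : y ∉ l₁ := fun h => hdis y h y (List.mem_append_left _ hyP) rfl
        rw [List.idxOf_append_of_notMem hy1, List.idxOf_append_of_mem hyP]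
        have := List.idxOf_lt_length_of_mem hyP
        omega
      · rintro ⟨h1, h2⟩
        by_cases hy1 : y ∈ l₁
        · rw [List.idxOf_append_of_mem hy1] at h1
          have := List.idxOf_lt_length_of_mem hy1
          omega
        · rw [List.idxOf_append_of_notMem hy1] at h2
          by_cases hyP : y ∈ pre T.ch m a
          · exact (hmem.1 hyP).2
          · rw [List.idxOf_append_of_notMem hyP] at h2
            omega
  constructor
  · intro a v hv hk
    have ha : a ∈ T.comp := by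
      obtain ⟨k, rfl⟩ := hk; exact T.cha_iter_mem hv k
    obtain ⟨s, e, hs, hse⟩ := key a ha
    have := (hse v hv).1 hk
    omega
  · intro a y v hy hv hk h1 h2
    have ha : a ∈ T.comp := by
      obtain ⟨k, rfl⟩ := hk; exact T.cha_iter_mem hv k
    obtain ⟨s, e, hs, hse⟩ := key a ha
    have := (hse v hv).1 hk
    exact (hse y hy).2 ⟨by omega, by omega⟩

end PTree

end Pool.Agent.BTD
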