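import Pool.Agent.BTD.CDefs

/-! Core CHb: sorted filters, chains. -/

set_option autoImplicit false

open Classical

namespace Pool.Agent.BTD

universe u

variable {V : Type u}

/-- A list sorted by the position in `L` is a filter of `L`. -/
lemma filter_eq_of_sorted {L l : List V} (hL : L.Nodup)
    (hl : l.Pairwise (fun a b => L.idxOf a < L.idxOf b)) (hmem : ∀ b ∈ l, b ∈ L) :
    L.filter (fun b => b ∈ l) = l := by
  have hLs : L.Pairwise (fun a b => L.idxOf a < L.idxOf b) := by
    rw [List.pairwise_iff_getElem]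
    intro i j hi hj hij
    rw [hL.idxOf_getElem, hL.idxOf_getElem]
    exact hij
  have hFs : (L.filter (fun b => b ∈ l)).Pairwise (fun a b => L.idxOf a < L.idxOf b) :=
    hLs.filter _
  have hln : l.Nodup := hl.imp (fun {a b} hab hne => by
    subst hne
    exact lt_irrefl _ hab)
  have hperm : (L.filter (fun b => b ∈ l)).Perm l := by
    rw [List.perm_ext_iff_of_nodup (hL.filter _) hln]
    intro a
    simp only [List.mem_filter, decide_eq_true_eq]
    exact ⟨fun h => h.2, fun h => ⟨hmem a h, h⟩⟩
  exact hperm.eq_of_pairwise (fun a b _ _ h1 h2 => absurd (h1.trans h2) (lt_irrefl _)) hFs hl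

variable {α β : Type*}

lemma Lk.append {fi fo : α → ZMod 2} {x y z : ZMod 2} {l₁ l₂ : List α} (h : Lk fi fo x y l₁)
    (h' : Lk fi fo y z l₂) : Lk fi fo x z (l₁ ++ l₂) := by
  induction l₁ generalizing x with
  | nil =>
    simp only [Lk] at h
    subst h
    simpa using h'
  | cons a l ih =>
    simp only [Lk] at h
    exact ⟨h.1, ih h.2⟩

lemma Lk.filter {fi fo : α → ZMod 2} {x y : ZMod 2} {l : List α} (P : α → Prop)
    (h : Lk fi fo x y l) (hP : ∀ a ∈ l, ¬ P a → fi a = fo a) :
    Lk fi fo x y (l.filter (fun a => P a)) := by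
  induction l generalizing x with
  | nil => simpa using h
  | cons a l ih =>
    simp only [Lk] at h
    have ih' := ih h.2 (fun b hb => hP b (List.mem_cons_of_mem _ hb))
    by_cases ha : P a
    · rw [List.filter_cons_of_pos (by simpa using ha)]
      exact ⟨h.1, ih'⟩
    · rw [List.filter_cons_of_neg (by simpa using ha)]
      rw [h.1, hP a List.mem_cons_self ha]
      exact ih'

lemma Lk.map {fi fo : α → ZMod 2} {gi go : β → ZMod 2} (f : α → β) {x y : ZMod 2} {l : List α}
    (h : Lk fi fo x y l) (hf : ∀ a ∈ l, fi a = gi (f a) ∧ fo a = go (f a)) :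
    Lk gi go x y (l.map f) := by
  induction l generalizing x with
  | nil => simpa [Lk] using h
  | cons a l ih =>
    simp only [Lk] at h
    have ih' := ih h.2 (fun b hb => hf b (List.mem_cons_of_mem _ hb))
    have ha := hf a List.mem_cons_self
    rw [List.map_cons]
    refine ⟨h.1.trans ha.1, ?_⟩
    rw [← ha.2]
    exact ih'

/-- substitution of chains -/
lemma Lk.flatMap {fi fo : α → ZMod 2} {gi go : β → ZMod 2} {x y : ZMod 2} {l : List α}
    (F : α → List β) (h : Lk fi fo x y l) (hF : ∀ a ∈ l, Lk gi go (fi a) (fo a) (F a)) :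
    Lk gi go x y (l.flatMap F) := by
  induction l generalizing x with
  | nil => simpa [Lk] using h
  | cons a l ih =>
    simp only [Lk] at h
    have ih' := ih h.2 (fun b hb => hF b (List.mem_cons_of_mem _ hb))
    have ha := hF a List.mem_cons_self
    rw [List.flatMap_cons]
    rw [h.1]
    exact ha.append ih'

private lemma CHb_get_aux {fi fo : α → ZMod 2} : ∀ (l : List α) (x y : ZMod 2)
    (_ : Lk fi fo x y l) (hl : l ≠ []),
    fi (l.get ⟨0, List.length_pos_iff.mpr hl⟩) = x ∧ fo (l.getLast hl) = y ∧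
    ∀ (i : ℕ) (hi : i + 1 < l.length), fi (l.get ⟨i + 1, hi⟩) = fo (l.get ⟨i, by omega⟩)
  | [], _, _, _, hl => absurd rfl hl
  | [a], x, y, h, _ => by
    simp only [Lk] at h
    refine ⟨?_, ?_, ?_⟩
    · simpa using h.1.symm
    · simpa using h.2
    · intro i hi
      simp at hi
  | a :: b :: l, x, y, h, _ => by
    have h1 : x = fi a ∧ Lk fi fo (fo a) y (b :: l) := h
    obtain ⟨h2, h3, h4⟩ := CHb_get_aux (b :: l) (fo a) y h1.2 (List.cons_ne_nil _ _)
    refine ⟨?_, ?_, ?_⟩
    · simpa using h1.1.symm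
    · rw [List.getLast_cons (List.cons_ne_nil _ _)]
      exact h3
    · intro i hi
      rcases i with _ | i
      · simpa using h2
      · have := h4 i (by simpa using hi)
        simpa using this

/-- reading a closed chain as a cyclic word -/
lemma Lk.get {fi fo : α → ZMod 2} {x : ZMod 2} {l : List α} (h : Lk fi fo x x l)
    (hl : l ≠ []) :
    fi (l.get ⟨0, List.length_pos_iff.mpr hl⟩) = fo (l.getLast hl) ∧
    ∀ (i : ℕ) (hi : i + 1 < l.length), fi (l.get ⟨i + 1, hi⟩) = fo (l.get ⟨i, by omega⟩) := by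
  obtain ⟨h1, h2, h3⟩ := CHb_get_aux l x x h hl
  exact ⟨h1.trans h2.symm, h3⟩

end Pool.Agent.BTD
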