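import Pool.Agent.BTD.CHb

/-! Core CIa: the cyclic list of darts at a vertex. -/

set_option autoImplicit false

open Classical

namespace Pool.Agent.BTD

open Pool.Agent.H81.Balls

universe u

variable {V : Type u} {G : SimpleGraph V} (S : EmbeddingScheme G)

lemma outD_eq (o : Bool) (d : G.Dart) : outD S o d = inD S o (nxt S o d) := by
  cases o with
  | true =>
    simp only [outD, inD, nxt, if_true, Bool.not_true]
    exact S.face_corner d
  | false =>
    have h := S.face_corner (S.rot.symm d)
    rw [Equiv.apply_symm_apply] at h
    simp only [outD, inD, nxt, Bool.false_eq_true, if_false, Bool.not_false]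
    exact h.symm

lemma nxt_fst (o : Bool) (d : G.Dart) : (nxt S o d).fst = d.fst := by
  cases o with
  | true =>
    simp only [nxt, if_true]
    exact S.rot_fst d
  | false =>
    have h := S.rot_fst (S.rot.symm d)
    rw [Equiv.apply_symm_apply] at h
    simp only [nxt, Bool.false_eq_true, if_false]
    exact h.symm

private lemma CIa_inj (o : Bool) : Function.Injective (nxt S o) := by
  cases o with
  | true =>
    intro a b h
    simp only [nxt, if_true] at h
    exact S.rot.injective h
  | false =>
    intro a b h
    simp only [nxt, Bool.false_eq_true, if_false] at h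
    exact S.rot.symm.injective h

/-- iterating `nxt` reaches every dart at the same vertex -/
lemma nxt_reach [Fintype V] (o : Bool) (d d' : G.Dart) (h : d.fst = d'.fst) :
    ∃ k : ℕ, (nxt S o)^[k] d = d' := by
  cases o with
  | true =>
    obtain ⟨n, hn⟩ := (S.rot_cycle d d' h).exists_nat_pow_eq
    refine ⟨n, ?_⟩
    have h1 : nxt S true = S.rot := by
      funext a
      simp [nxt]
    rw [h1, ← hn, Equiv.Perm.iterate_eq_pow]
  | false =>
    obtain ⟨n, hn⟩ := (S.rot_cycle d' d h.symm).exists_nat_pow_eq
    refine ⟨n, ?_⟩
    have h1 : nxt S false = S.rot.symm := by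
      funext a
      simp [nxt]
    rw [h1, ← hn, ← Equiv.Perm.iterate_eq_pow]
    exact (Function.LeftInverse.iterate (fun a => S.rot.symm_apply_apply a) n) d'

private lemma CIa_chain (o : Bool) (d0 : G.Dart) (K : Option S.Face → ZMod 2) :
    ∀ m i : ℕ, Lk (fun d => K (some (inD S o d))) (fun d => K (some (outD S o d)))
      (K (some (outD S o ((nxt S o)^[i] d0)))) (K (some (inD S o ((nxt S o)^[i + m + 1] d0))))
      ((List.range' (i + 1) m).map (fun j => (nxt S o)^[j] d0)) := by
  intro m
  induction m with
  | zero =>
    intro i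
    rw [List.range'_zero, List.map_nil]
    show K (some (outD S o ((nxt S o)^[i] d0))) = _
    rw [outD_eq, add_zero, Function.iterate_succ_apply']
  | succ m ih =>
    intro i
    rw [List.range'_succ, List.map_cons]
    refine ⟨?_, ?_⟩
    · show K (some (outD S o ((nxt S o)^[i] d0))) = K (some (inD S o ((nxt S o)^[i + 1] d0)))
      rw [outD_eq, Function.iterate_succ_apply']
    · have h := ih (i + 1)
      have e : i + 1 + m + 1 = i + (m + 1) + 1 := by omega
      rw [e] at h
      exact h

/-- The darts at the vertex of `d0`, other than `d0`, in the cyclic order starting after `d0`. -/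
theorem exists_darts [Fintype V] (o : Bool) (d0 : G.Dart) :
    ∃ l : List G.Dart, (l ++ [d0]).Nodup ∧ (∀ d, d ∈ l ++ [d0] ↔ d.fst = d0.fst) ∧
      ∀ K : Option S.Face → ZMod 2,
        Lk (fun d => K (some (inD S o d))) (fun d => K (some (outD S o d)))
          (K (some (outD S o d0))) (K (some (inD S o d0))) l := by
  set f := nxt S o with hf
  have hper : d0 ∈ Function.periodicPts f := by
    obtain ⟨k, hk⟩ := nxt_reach S o (f d0) d0 (nxt_fst S o d0)
    refine ⟨k + 1, Nat.succ_pos _, ?_⟩
    show f^[k + 1] d0 = d0
    rw [Function.iterate_succ_apply]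
    exact hk
  set n := Function.minimalPeriod f d0 with hn
  have hpos : 0 < n := Function.minimalPeriod_pos_of_mem_periodicPts hper
  have hn0 : f^[n] d0 = d0 := Function.isPeriodicPt_minimalPeriod f d0
  obtain ⟨m, hm⟩ : ∃ m, n = m + 1 := ⟨n - 1, by omega⟩
  have hfst : ∀ k : ℕ, (f^[k] d0).fst = d0.fst := by
    intro k
    induction k with
    | zero => rfl
    | succ k ih => rw [Function.iterate_succ_apply', hf, nxt_fst, ← hf, ih]
  have hl : (List.range' 1 m).map (fun j => f^[j] d0) ++ [d0] =
      (List.range' 1 n).map (fun j => f^[j] d0) := by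
    rw [hm, List.range'_concat, List.map_append, List.map_singleton]
    congr 2
    rw [show 1 + 1 * m = n by omega, hn0]
  refine ⟨(List.range' 1 m).map (fun j => f^[j] d0), ?_, ?_, ?_⟩
  · rw [hl]
    refine List.Nodup.map_on ?_ (List.nodup_range' ..)
    intro a ha b hb hab
    rw [List.mem_range'_1] at ha hb
    have hab' : f^[a - 1] d0 = f^[b - 1] d0 := by
      have e1 : f^[a] d0 = f (f^[a - 1] d0) := by
        rw [← Function.iterate_succ_apply' f (a - 1) d0]
        congr 2
        omega
      have e2 : f^[b] d0 = f (f^[b - 1] d0) := by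
        rw [← Function.iterate_succ_apply' f (b - 1) d0]
        congr 2
        omega
      exact CIa_inj S o (by rw [← hf, ← e1, ← e2]; exact hab)
    have h3 := Function.iterate_injOn_Iio_minimalPeriod (f := f) (x := d0)
      (show a - 1 ∈ Set.Iio (Function.minimalPeriod f d0) by
        rw [Set.mem_Iio, ← hn]; omega)
      (show b - 1 ∈ Set.Iio (Function.minimalPeriod f d0) by
        rw [Set.mem_Iio, ← hn]; omega) hab'
    omega
  · intro d
    rw [hl, List.mem_map]
    constructor
    · rintro ⟨j, _, rfl⟩
      exact hfst j
    · intro hd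
      obtain ⟨k, hk⟩ := nxt_reach S o d0 d hd.symm
      rw [← hf] at hk
      have h1 : f^[k % n] d0 = d := by
        rw [hn, Function.iterate_mod_minimalPeriod_eq]
        exact hk
      by_cases h0 : k % n = 0
      · refine ⟨n, ?_, ?_⟩
        · rw [List.mem_range'_1]; omega
        · rw [h0] at h1
          rw [hn0]
          exact h1
      · refine ⟨k % n, ?_, h1⟩
        have := Nat.mod_lt k hpos
        rw [List.mem_range'_1]; omega
  · intro K
    have h := CIa_chain S o d0 K m 0
    rw [← hf] at h
    have e : 0 + m + 1 = n := by omega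
    rw [e, hn0] at h
    exact h

end Pool.Agent.BTD
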