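import Pool.Agent.BTD.CAa

/-! Core CIb: reversed darts, orientations along the tree. -/

set_option autoImplicit false

open Classical

namespace Pool.Agent.BTD

open Pool.Agent.H81.Balls

universe u

variable {V : Type u} {G : SimpleGraph V} (S : EmbeddingScheme G)

/-- the dart and the reversed dart -/
lemma in_out_symm (o : Bool) (d : G.Dart) :
    inD S o d = outD S (xor o (S.twist d)) d.symm ∧
      outD S o d = inD S (xor o (S.twist d)) d.symm := by
  constructor
  · unfold inD outD
    rw [S.face_along d (!o)]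
    congr 1
    cases o <;> cases S.twist d <;> rfl
  · unfold inD outD
    rw [S.face_along d o]

variable (M : LMet G)

lemma CIb_rec (r : V) (t : V → Bool) : ∃ o : V → Bool, ∀ v, v ≠ r → M.D v r ≠ ⊤ →
    o v = xor (o (M.par r v)) (t v) := by
  let F : ∀ v, (∀ w, (M.D w r).toNat < (M.D v r).toNat → Bool) → Bool := fun v ih =>
    if h : v ≠ r ∧ M.D v r ≠ ⊤ then
      xor (ih (M.par r v) (LMet.toNat_par_lt h.1 h.2)) (t v) else false
  refine ⟨(measure fun v => (M.D v r).toNat).wf.fix F, ?_⟩
  intro v h1 h2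
  rw [WellFounded.fix_eq]
  simp only [F, dif_pos (show v ≠ r ∧ M.D v r ≠ ⊤ from ⟨h1, h2⟩)]

/-- Orientations compatible with the tree of `r`. -/
theorem exists_orient (r : V) : ∃ o : V → Bool, ∀ (d : G.Dart), M.D d.snd r ≠ ⊤ → d.snd ≠ r →
    M.par r d.snd = d.fst → o d.snd = xor (o d.fst) (S.twist d) := by
  obtain ⟨o, ho⟩ := CIb_rec M r (fun v => if h : G.Adj (M.par r v) v then
    S.twist ⟨(M.par r v, v), h⟩ else false)
  refine ⟨o, ?_⟩
  rintro ⟨⟨a, b⟩, hab⟩ h1 h2 h3
  change M.par r b = a at h3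
  subst h3
  have h4 := ho b h2 h1
  rw [dif_pos hab] at h4
  exact h4

end Pool.Agent.BTD
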