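import Pool.Agent.BTD.CIa
import Pool.Agent.BTD.CIb

/-! Core CJa: ordered children. -/

set_option autoImplicit false

open Classical

namespace Pool.Agent.BTD

open Pool.Agent.H81.Balls

universe u

variable {V : Type u} [Fintype V] {G : SimpleGraph V} (S : EmbeddingScheme G) (M : LMet G)

omit [Fintype V] in
lemma cja_dart_ext {d d' : G.Dart} (h : d.fst = d'.fst) (h' : d.snd = d'.snd) : d = d' := by
  obtain ⟨⟨a, b⟩, hab⟩ := d
  obtain ⟨⟨a', b'⟩, hab'⟩ := d'
  simp only at h h'
  subst h; subst h'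
  rfl

omit [Fintype V] in
/-- the list of children is read from a list of darts -/
lemma cja_list (r w : V) (hw : M.D w r ≠ ⊤) (L : List G.Dart) (hL : L.Nodup)
    (h1 : ∀ d ∈ L, d.fst = w)
    (h2 : ∀ d : G.Dart, d.fst = w → (w ≠ r → d.snd ≠ M.par r w) → d ∈ L) :
    ((L.filter (fun d => M.par r d.snd = w ∧ d.snd ≠ r)).map (fun d => d.snd)).Nodup ∧
    (∀ u, u ∈ (L.filter (fun d => M.par r d.snd = w ∧ d.snd ≠ r)).map (fun d => d.snd) ↔
      M.D u r ≠ ⊤ ∧ u ≠ r ∧ M.par r u = w) := by
  constructor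
  · refine List.Nodup.map_on ?_ (hL.filter _)
    intro d hd d' hd' he
    rw [List.mem_filter] at hd hd'
    exact cja_dart_ext ((h1 d hd.1).trans (h1 d' hd'.1).symm) he
  · intro u
    simp only [List.mem_map, List.mem_filter, decide_eq_true_eq]
    constructor
    · rintro ⟨d, ⟨hd, hp, hr⟩, rfl⟩
      refine ⟨fun htop => ?_, hr, hp⟩
      rw [LMet.par_of_top htop] at hp
      rw [hp] at htop
      exact hw htop
    · rintro ⟨hu, hur, hp⟩
      have hadj : G.Adj w u := by
        have := LMet.par_adj hur hu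
        rw [hp] at this
        exact this.symm
      refine ⟨⟨(w, u), hadj⟩, ⟨h2 _ rfl ?_, hp, hur⟩, rfl⟩
      intro hwr he
      have he' : u = M.par r w := he
      have a1 := LMet.par_lt hwr hw
      have a2 := LMet.par_lt hur hu
      rw [hp] at a2
      rw [← he'] at a1
      exact lt_asymm a1 a2

lemma exists_ch (r : V) (o : V → Bool) (w : V) (hw : M.D w r ≠ ⊤) :
    ∃ l, IsCh S M r o w l := by
  by_cases hr : w = r
  · by_cases hd : ∃ d0 : G.Dart, d0.fst = w
    · obtain ⟨d0, hd0⟩ := hd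
      obtain ⟨l', hnd, hmem, hK⟩ := exists_darts S (o w) d0
      have hlist := cja_list M r w hw (l' ++ [d0]) hnd
        (fun d hd => ((hmem d).1 hd).trans hd0) (fun d hd _ => (hmem d).2 (hd.trans hd0.symm))
      refine ⟨_, hlist.1, hlist.2, l' ++ [d0], hnd, fun d hd => ((hmem d).1 hd).trans hd0,
        fun h => absurd hr h, rfl, ?_⟩
      intro K
      refine ⟨fun _ => ⟨K (some (outD S (o w) d0)), ?_⟩, fun _ h => absurd hr h⟩
      exact Lk.append (hK K) ⟨rfl, rfl⟩
    · have hlist := cja_list M r w hw [] List.nodup_nil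
        (fun d hd => absurd hd List.not_mem_nil) (fun d hd' _ => absurd ⟨d, hd'⟩ hd)
      refine ⟨_, hlist.1, hlist.2, [], List.nodup_nil,
        fun d hd => absurd hd List.not_mem_nil, fun h => absurd hr h, rfl, ?_⟩
      intro K
      exact ⟨fun _ => ⟨0, rfl⟩, fun _ h => absurd hr h⟩
  · have hadj := LMet.par_adj hr hw
    obtain ⟨l', hnd, hmem, hK⟩ := exists_darts S (o w) ⟨(w, M.par r w), hadj⟩
    have hnd' : l'.Nodup := (List.nodup_append.1 hnd).1
    have hfst : ∀ d ∈ l', d.fst = w := fun d hd => (hmem d).1 (List.mem_append_left _ hd)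
    have hne : ∀ d ∈ l', d.snd ≠ M.par r w := by
      intro d hd he
      have : d = ⟨(w, M.par r w), hadj⟩ := cja_dart_ext (hfst d hd) he
      exact (List.nodup_append.1 hnd).2.2 d hd _ (List.mem_singleton_self _) this
    have hlist := cja_list M r w hw l' hnd' hfst (by
      intro d hd hd'
      have h1 : d ∈ l' ++ [⟨(w, M.par r w), hadj⟩] := (hmem d).2 hd
      rcases List.mem_append.1 h1 with h | h
      · exact h
      · rw [List.mem_singleton] at h
        exact absurd (by rw [h]) (hd' hr))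
    refine ⟨_, hlist.1, hlist.2, l', hnd', hfst, fun _ => hne, rfl, ?_⟩
    intro K
    refine ⟨fun h => absurd h hr, ?_⟩
    intro d1 _ hf hs
    have : d1 = ⟨(w, M.par r w), hadj⟩ := cja_dart_ext hf hs
    rw [this]
    exact hK K

omit [Fintype V] in
lemma ioF_add' (r : V) (o : V → Bool) (K : Option S.Face → ZMod 2) {b : V} (hb : M.D b r ≠ ⊤)
    (hbr : b ≠ r) : K (ioF S M r o false b) + K (ioF S M r o true b) =
      K (S.side s(M.par r b, b) true) + K (S.side s(M.par r b, b) false) := by
  have hadj : G.Adj (M.par r b) b := (LMet.par_adj hbr hb).symm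
  have h := S.side_add K ⟨(M.par r b, b), hadj⟩
  have he : (⟨(M.par r b, b), hadj⟩ : G.Dart).edge = s(M.par r b, b) := rfl
  rw [he] at h
  rw [h]
  unfold ioF
  rw [dif_pos hadj, dif_pos hadj]
  simp only [inD, outD]
  cases o (M.par r b)
  · simp
  · simp [add_comm]

lemma ioF_add (r : V) (o : V → Bool) (K : Option S.Face → ZMod 2) {b : V} (hb : M.D b r ≠ ⊤)
    (hbr : b ≠ r) : K (ioF S M r o false b) + K (ioF S M r o true b) =
      K (S.side s(M.par r b, b) true) + K (S.side s(M.par r b, b) false) :=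
  ioF_add' S M r o K hb hbr

end Pool.Agent.BTD
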