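import Pool.Agent.BTD.CJa
import Pool.Agent.BTD.CHb
import Pool.Agent.BTD.CAb

/-! Core CJb: the contour, one step. -/

set_option autoImplicit false

open Classical

namespace Pool.Agent.BTD

open Pool.Agent.H81.Balls

universe u

variable {V : Type u} [Fintype V] {G : SimpleGraph V} (S : EmbeddingScheme G) (M : LMet G)

private lemma CJb_ioF_dart (r : V) (o : V → Bool) (i : Bool) (d : G.Dart)
    (h : M.par r d.snd = d.fst) :
    ioF S M r o i d.snd = some (if i then outD S (o d.fst) d else inD S (o d.fst) d) := by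
  obtain ⟨⟨a, b⟩, hd⟩ := d
  simp only at h hd
  subst h
  unfold ioF
  rw [dif_pos hd]

private lemma CJb_eq_of_add {a b : ZMod 2} (h : a + b = 0) : a = b := by
  revert a b; decide

private lemma CJb_add_self (a : ZMod 2) : a + a = 0 := CharTwo.add_self_eq_zero a

/-- one step of the induction: from the chains of the children to the chain of the vertex -/
lemma contour_step (r : V) (o : V → Bool)
    (ho : ∀ (d : G.Dart), M.D d.snd r ≠ ⊤ → d.snd ≠ r → M.par r d.snd = d.fst →
      o d.snd = xor (o d.fst) (S.twist d)) (ch : V → List V)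
    (hch : ∀ w, M.D w r ≠ ⊤ → IsCh S M r o w (ch w)) (N₀ Sel : Set V) (h0 : M.Cl r N₀)
    (hSel : ∀ b ∈ Sel, M.D b r ≠ ⊤ ∧ b ≠ r ∧ M.par r b ∈ N₀ ∧ b ∉ N₀)
    (K : Option S.Face → ZMod 2)
    (hK : ∀ w ∈ N₀, ∀ u, G.Adj w u → ¬ (u ∈ N₀ ∧ (M.par r u = w ∨ M.par r w = u)) →
      ¬ (u ∈ Sel ∧ M.par r u = w) → K (S.side s(w, u) true) = K (S.side s(w, u) false))
    (w : V) (hw : w ∈ N₀) (F : V → List V)
    (hF : ∀ u ∈ ch w, u ∈ N₀ → Lk (fun b => K (ioF S M r o false b))
      (fun b => K (ioF S M r o true b)) (K (ioF S M r o false u)) (K (ioF S M r o true u))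
      ((F u).filter (fun b => b ∈ Sel)))
    (hF' : ∀ u ∈ ch w, u ∉ N₀ → (F u).filter (fun b => b ∈ Sel) = if u ∈ Sel then [u] else []) :
    (w = r → ∃ x, Lk (fun b => K (ioF S M r o false b)) (fun b => K (ioF S M r o true b)) x x
      ((w :: (ch w).flatMap F).filter (fun b => b ∈ Sel))) ∧
    (w ≠ r → Lk (fun b => K (ioF S M r o false b)) (fun b => K (ioF S M r o true b))
      (K (ioF S M r o false w)) (K (ioF S M r o true w))
      ((w :: (ch w).flatMap F).filter (fun b => b ∈ Sel))) := by
  have hDw : M.D w r ≠ ⊤ := (h0 w hw).1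
  have hwSel : w ∉ Sel := fun h => (hSel w h).2.2.2 hw
  obtain ⟨hnd, hmem, L, hLnd, hLfst, hLpar, hchL, hchain⟩ := hch w hDw
  -- the filtered list
  have hlist : ((w :: (ch w).flatMap F).filter (fun b => b ∈ Sel)) =
      (ch w).flatMap (fun u => (F u).filter (fun b => b ∈ Sel)) := by
    rw [List.filter_cons, if_neg (by simpa using hwSel), List.filter_flatMap]
  rw [hlist]
  -- non child darts do not change `K`
  have hnon : ∀ d ∈ L, ¬ (M.par r d.snd = w ∧ d.snd ≠ r) →
      K (some (inD S (o w) d)) = K (some (outD S (o w) d)) := by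
    intro d hd hP
    have hfst := hLfst d hd
    have hadj : G.Adj w d.snd := hfst ▸ d.adj
    have h1 : M.par r d.snd ≠ w := by
      intro h
      have h2 : d.snd = r := by
        by_contra h3
        exact hP ⟨h, h3⟩
      rw [h2, LMet.par_root] at h
      rw [h2, ← h] at hadj
      exact G.loopless.irrefl _ hadj
    have h2 : M.par r w ≠ d.snd := by
      intro h
      by_cases hwr : w = r
      · rw [hwr, LMet.par_root] at h
        rw [hwr, ← h] at hadj
        exact G.loopless.irrefl _ hadj
      · exact hLpar hwr d hd h.symm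
    have h3 := hK w hw d.snd hadj (by tauto) (by tauto)
    have h4 := S.side_add K d
    have h5 : d.edge = s(w, d.snd) := by rw [← hfst]; rfl
    rw [h5, h3, CJb_add_self] at h4
    have h6 := CJb_eq_of_add h4.symm
    unfold inD outD
    cases o w
    · exact h6
    · exact h6.symm
  -- the main passage
  have main : ∀ X Y : ZMod 2, Lk (fun d => K (some (inD S (o w) d)))
      (fun d => K (some (outD S (o w) d))) X Y L →
      Lk (fun b => K (ioF S M r o false b)) (fun b => K (ioF S M r o true b)) X Y
        ((ch w).flatMap (fun u => (F u).filter (fun b => b ∈ Sel))) := by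
    intro X Y hXY
    have h1 := Lk.filter (fun d : G.Dart => M.par r d.snd = w ∧ d.snd ≠ r) hXY hnon
    have h2 : Lk (fun b => K (ioF S M r o false b)) (fun b => K (ioF S M r o true b)) X Y
        (ch w) := by
      rw [hchL]
      have h3 := Lk.map (gi := fun b => K (ioF S M r o false b))
        (go := fun b => K (ioF S M r o true b)) (fun d : G.Dart => d.snd) h1 (by
        intro d hd
        have hd' := List.mem_filter.mp hd
        have h4 := hLfst d hd'.1
        have h5 : M.par r d.snd = w ∧ d.snd ≠ r := by simpa using hd'.2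
        have h6 : M.par r d.snd = d.fst := h5.1.trans h4.symm
        constructor
        · simp only [CJb_ioF_dart S M r o false d h6, h4]
          simp
        · simp only [CJb_ioF_dart S M r o true d h6, h4]
          simp)
      refine Eq.subst (motive := fun A : List G.Dart => Lk (fun b => K (ioF S M r o false b))
        (fun b => K (ioF S M r o true b)) X Y (A.map fun d => d.snd)) ?_ h3
      exact List.filter_congr (fun d _ => decide_eq_decide.mpr Iff.rfl)
    refine Lk.flatMap (fun u => (F u).filter (fun b => b ∈ Sel)) h2 ?_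
    intro u hu
    by_cases huN : u ∈ N₀
    · exact hF u hu huN
    · rw [hF' u hu huN]
      split_ifs with huS
      · exact ⟨rfl, rfl⟩
      · obtain ⟨hu1, hu2, hu3⟩ := (hmem u).mp hu
        have hadj : G.Adj w u := by
          have := (LMet.par_adj hu2 hu1).symm
          rwa [hu3] at this
        have h3 := hK w hw u hadj (by tauto) (by tauto)
        have h4 := ioF_add S M r o K hu1 hu2
        rw [hu3, h3, CJb_add_self] at h4
        exact CJb_eq_of_add h4
  obtain ⟨hK1, hK2⟩ := hchain K
  refine ⟨fun hwr => ?_, fun hwr => ?_⟩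
  · obtain ⟨x, hx⟩ := hK1 hwr
    exact ⟨x, main x x hx⟩
  · have hadj : G.Adj (M.par r w) w := (LMet.par_adj hwr hDw).symm
    have h1 := main _ _ (hK2 ⟨(w, M.par r w), hadj.symm⟩ hwr rfl rfl)
    have h2 := in_out_symm S (o (M.par r w)) ⟨(M.par r w, w), hadj⟩
    have h3 : o w = xor (o (M.par r w)) (S.twist ⟨(M.par r w, w), hadj⟩) :=
      ho ⟨(M.par r w, w), hadj⟩ hDw hwr rfl
    rw [← h3] at h2
    have h4 : ioF S M r o false w = some (outD S (o w) ⟨(w, M.par r w), hadj.symm⟩) := by
      unfold ioF
      rw [dif_pos hadj]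
      simp only [Bool.false_eq_true, if_false]
      rw [h2.1]
      rfl
    have h5 : ioF S M r o true w = some (inD S (o w) ⟨(w, M.par r w), hadj.symm⟩) := by
      unfold ioF
      rw [dif_pos hadj]
      simp only [if_true]
      rw [h2.2]
      rfl
    rw [h4, h5]
    exact h1

end Pool.Agent.BTD
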