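import Pool.Agent.BTD.CJb
import Pool.Agent.BTD.CHa

/-! Core CJc: the contour theorem. -/

set_option autoImplicit false

open Classical

namespace Pool.Agent.BTD

open Pool.Agent.H81.Balls

universe u

variable {V : Type u} [Fintype V] {G : SimpleGraph V} (S : EmbeddingScheme G) (M : LMet G)

omit [Fintype V] in
private lemma CJc_anc {r : V} {ch : V → List V}
    (hch : ∀ v, M.D v r ≠ ⊤ → ∀ w, w ∈ ch v ↔ M.D w r ≠ ⊤ ∧ w ≠ r ∧ M.par r w = v) :
    ∀ (m : ℕ) (c d : V), M.D c r ≠ ⊤ → d ∈ pre ch m c → M.Anc r c d := by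
  intro m
  induction m with
  | zero =>
    intro c d _ hd
    simp only [pre, List.mem_singleton] at hd
    subst hd
    exact LMet.anc_refl
  | succ m ih =>
    intro c d hc hd
    simp only [pre, List.mem_cons, List.mem_flatMap] at hd
    rcases hd with hd | ⟨c', hc', hd⟩
    · subst hd
      exact LMet.anc_refl
    · have h1 := (hch c hc c').1 hc'
      have h2 := ih c' d h1.1 hd
      have h3 : M.Anc r c c' := by
        have := LMet.anc_par (M := M) (q := r) (v := c')
        rw [h1.2.2] at this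
        exact this
      exact LMet.anc_trans h3 h2

omit [Fintype V] in
private lemma CJc_filter {r : V} {ch : V → List V}
    (hch : ∀ v, M.D v r ≠ ⊤ → ∀ w, w ∈ ch v ↔ M.D w r ≠ ⊤ ∧ w ≠ r ∧ M.par r w = v)
    {N₀ Sel : Set V} (h0 : M.Cl r N₀)
    (hSel : ∀ b ∈ Sel, M.D b r ≠ ⊤ ∧ b ≠ r ∧ M.par r b ∈ N₀ ∧ b ∉ N₀) {u : V}
    (hu : M.D u r ≠ ⊤) (huN : u ∉ N₀) (n : ℕ) :
    (pre ch n u).filter (fun b => b ∈ Sel) = if u ∈ Sel then [u] else [] := by
  cases n with
  | zero =>
    simp only [pre]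
    by_cases h : u ∈ Sel <;> simp [h]
  | succ n =>
    have hrest : ((ch u).flatMap (pre ch n)).filter (fun b => b ∈ Sel) = [] := by
      rw [List.filter_eq_nil_iff]
      intro d hd hdS
      simp only [decide_eq_true_eq] at hdS
      rw [List.mem_flatMap] at hd
      obtain ⟨c, hc, hd⟩ := hd
      have h1 := (hch u hu c).1 hc
      have h2 := CJc_anc M hch n c d h1.1 hd
      have h3 : M.Anc r u (M.par r d) := by
        by_cases hdc : c = d
        · subst hdc
          rw [h1.2.2]
          exact LMet.anc_refl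
        · have h4 := LMet.anc_par_of_ne h2 hdc
          have h5 : M.Anc r u c := by
            have := LMet.anc_par (M := M) (q := r) (v := c)
            rw [h1.2.2] at this
            exact this
          exact LMet.anc_trans h5 h4
      exact huN (LMet.Cl.anc h0 (hSel d hdS).2.2.1 h3)
    simp only [pre, List.filter_cons, hrest]
    by_cases h : u ∈ Sel <;> simp [h]

/-- CONTOUR THEOREM. -/
theorem contour (r : V) : ∃ (ch : V → List V) (inF outF : V → Option S.Face),
    (∀ v, M.D v r ≠ ⊤ → ∀ w, w ∈ ch v ↔ M.D w r ≠ ⊤ ∧ w ≠ r ∧ M.par r w = v) ∧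
    (∀ v, M.D v r ≠ ⊤ → (ch v).Nodup) ∧
    (∀ (K : Option S.Face → ZMod 2) (b : V), M.D b r ≠ ⊤ → b ≠ r → K (inF b) + K (outF b) =
      K (S.side s(M.par r b, b) true) + K (S.side s(M.par r b, b) false)) ∧
    ∀ (n N : ℕ), (∀ v, M.D v r ≠ ⊤ → (M.D v r).toNat ≤ N) → N ≤ n →
      ∀ (N₀ Sel : Set V), M.Cl r N₀ → r ∈ N₀ →
      (∀ b ∈ Sel, M.D b r ≠ ⊤ ∧ b ≠ r ∧ M.par r b ∈ N₀ ∧ b ∉ N₀) →
      ∀ K : Option S.Face → ZMod 2,
      (∀ w ∈ N₀, ∀ u, G.Adj w u → ¬ (u ∈ N₀ ∧ (M.par r u = w ∨ M.par r w = u)) →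
        ¬ (u ∈ Sel ∧ M.par r u = w) → K (S.side s(w, u) true) = K (S.side s(w, u) false)) →
      ∃ x, Lk (fun b => K (inF b)) (fun b => K (outF b)) x x
        ((pre ch n r).filter (fun b => b ∈ Sel)) := by
  obtain ⟨o, ho⟩ := exists_orient S M r
  set ch : V → List V := fun w => if h : M.D w r ≠ ⊤ then (exists_ch S M r o w h).choose else []
    with hchdef
  have hIs : ∀ w, M.D w r ≠ ⊤ → IsCh S M r o w (ch w) := by
    intro w hw
    have : ch w = (exists_ch S M r o w hw).choose := by rw [hchdef]; simp only [dif_pos hw]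
    rw [this]
    exact (exists_ch S M r o w hw).choose_spec
  have hch : ∀ v, M.D v r ≠ ⊤ → ∀ w, w ∈ ch v ↔ M.D w r ≠ ⊤ ∧ w ≠ r ∧ M.par r w = v :=
    fun v hv => (hIs v hv).2.1
  refine ⟨ch, ioF S M r o false, ioF S M r o true, hch, fun v hv => (hIs v hv).1,
    fun K b hb hbr => ioF_add S M r o K hb hbr, ?_⟩
  intro n N hN hNn N₀ Sel h0 hr hSel K hK
  have key : ∀ (n : ℕ) (w : V), w ∈ N₀ → N ≤ n + (M.D w r).toNat →
      (w = r → ∃ x, Lk (fun b => K (ioF S M r o false b)) (fun b => K (ioF S M r o true b)) x x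
        ((pre ch n w).filter (fun b => b ∈ Sel))) ∧
      (w ≠ r → Lk (fun b => K (ioF S M r o false b)) (fun b => K (ioF S M r o true b))
        (K (ioF S M r o false w)) (K (ioF S M r o true w))
        ((pre ch n w).filter (fun b => b ∈ Sel))) := by
    intro n
    induction n with
    | zero =>
      intro w hw hNw
      have hwt : M.D w r ≠ ⊤ := (h0 w hw).1
      have hnil : ch w = [] := by
        rw [List.eq_nil_iff_forall_not_mem]
        intro u hu
        have h1 := (hch w hwt u).1 hu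
        have h2 := LMet.toNat_par_lt h1.2.1 h1.1
        rw [h1.2.2] at h2
        have h3 := hN u h1.1
        omega
      have := contour_step S M r o ho ch hIs N₀ Sel h0 hSel K hK w hw (fun _ => [])
        (by intro u hu; rw [hnil] at hu; simp at hu) (by intro u hu; rw [hnil] at hu; simp at hu)
      rw [hnil] at this
      simpa only [pre, List.flatMap_nil] using this
    | succ n ih =>
      intro w hw hNw
      have hwt : M.D w r ≠ ⊤ := (h0 w hw).1
      have := contour_step S M r o ho ch hIs N₀ Sel h0 hSel K hK w hw (pre ch n) ?_ ?_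
      · simpa only [pre] using this
      · intro u hu huN
        have h1 := (hch w hwt u).1 hu
        have h2 := LMet.toNat_par_lt h1.2.1 h1.1
        rw [h1.2.2] at h2
        exact (ih u huN (by omega)).2 h1.2.1
      · intro u hu huN
        have h1 := (hch w hwt u).1 hu
        exact CJc_filter M hch h0 hSel h1.1 huN n
  exact (key n r hr (by omega)).1 rfl

end Pool.Agent.BTD
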