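import Mathlib

/-! Core CK: a product-closed binary code without words of weight one. -/

set_option autoImplicit false

open Classical

namespace Pool.Agent.BTD

private lemma CK_prod_mem {m : ℕ} (C : Set (Fin m → ZMod 2)) (h1 : (fun _ => 1) ∈ C)
    (hmul : ∀ a ∈ C, ∀ b ∈ C, (fun i => a i * b i) ∈ C) (c : Fin m → (Fin m → ZMod 2))
    (hc : ∀ j, c j ∈ C) (s : Finset (Fin m)) : (fun k => ∏ j ∈ s, c j k) ∈ C := by
  induction s using Finset.induction_on with
  | empty => simpa using h1
  | insert a s ha ih =>
    have := hmul (c a) (hc a) _ ih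
    have e : (fun k => ∏ j ∈ insert a s, c j k) = (fun k => c a k * ∏ j ∈ s, c j k) := by
      funext k
      rw [Finset.prod_insert ha]
    rw [e]
    exact this

private lemma CK_two (x : ZMod 2) : x = 0 ∨ x = 1 := by
  fin_cases x
  · left; rfl
  · right; rfl

/-- Indicators of coordinate classes are codewords. -/
lemma code_class (m : ℕ) (C : Set (Fin m → ZMod 2)) (h1 : (fun _ => 1) ∈ C)
    (hadd : ∀ a ∈ C, ∀ b ∈ C, (fun i => a i + b i) ∈ C)
    (hmul : ∀ a ∈ C, ∀ b ∈ C, (fun i => a i * b i) ∈ C) (i : Fin m) :
    (fun j => if (∀ a ∈ C, a i = a j) then (1 : ZMod 2) else 0) ∈ C := by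
  have key : ∀ j : Fin m, ∃ c ∈ C, c i = 1 ∧ (¬ (∀ a ∈ C, a i = a j) → c j = 0) := by
    intro j
    by_cases h : ∀ a ∈ C, a i = a j
    · exact ⟨fun _ => 1, h1, rfl, fun h' => absurd h h'⟩
    · have h' := h
      push Not at h'
      obtain ⟨a, ha, hne⟩ := h'
      rcases CK_two (a i) with h0 | h0 <;> rcases CK_two (a j) with h2 | h2
      · exact absurd (h0.trans h2.symm) hne
      · refine ⟨fun k => a k + 1, hadd a ha _ h1, ?_, fun _ => ?_⟩
        · show a i + 1 = 1
          rw [h0]; rfl
        · show a j + 1 = 0
          rw [h2]; decide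
      · exact ⟨a, ha, h0, fun _ => h2⟩
      · exact absurd (h0.trans h2.symm) hne
  choose c hc hci hcj using key
  have hm := CK_prod_mem C h1 hmul c hc Finset.univ
  have e : (fun k => ∏ j ∈ Finset.univ, c j k) =
      (fun j => if (∀ a ∈ C, a i = a j) then (1 : ZMod 2) else 0) := by
    funext k
    by_cases h : ∀ a ∈ C, a i = a k
    · rw [if_pos h]
      apply Finset.prod_eq_one
      intro j _
      rw [← h (c j) (hc j)]
      exact hci j
    · rw [if_neg h]
      exact Finset.prod_eq_zero (Finset.mem_univ k) (hcj k h)
  rw [← e]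
  exact hm

theorem code_bound (m n : ℕ) (C : Set (Fin m → ZMod 2)) (h1 : (fun _ => 1) ∈ C)
    (hadd : ∀ a ∈ C, ∀ b ∈ C, (fun i => a i + b i) ∈ C)
    (hmul : ∀ a ∈ C, ∀ b ∈ C, (fun i => a i * b i) ∈ C)
    (hw : ∀ i, (fun j => if j = i then (1 : ZMod 2) else 0) ∉ C) (hn : 2 ^ n ≤ C.ncard) :
    2 * n ≤ m := by
  let s : Setoid (Fin m) :=
    { r := fun i j => ∀ a ∈ C, a i = a j
      iseqv := ⟨fun i a _ => rfl, fun h a ha => (h a ha).symm,
        fun h h' a ha => (h a ha).trans (h' a ha)⟩ }
  haveI : Fintype (Quotient s) := Fintype.ofFinite _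
  -- every class has a second element
  have htwo : ∀ i : Fin m, ∃ j, j ≠ i ∧ ∀ a ∈ C, a i = a j := by
    intro i
    by_contra hcon
    push Not at hcon
    apply hw i
    have hm := code_class m C h1 hadd hmul i
    have e : (fun j => if (∀ a ∈ C, a i = a j) then (1 : ZMod 2) else 0) =
        (fun j => if j = i then (1 : ZMod 2) else 0) := by
      funext j
      by_cases hj : j = i
      · subst hj
        simp
      · rw [if_neg hj, if_neg]
        intro h
        obtain ⟨a, ha, hne⟩ := hcon j hj
        exact hne (h a ha)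
    rw [← e]
    exact hm
  choose e he1 he2 using htwo
  -- injection of C into functions on classes
  have hcard : C.ncard ≤ 2 ^ Fintype.card (Quotient s) := by
    have hf : Function.Injective (fun (a : C) (q : Quotient s) =>
        Quotient.lift (fun i => a.1 i) (fun i j (hij : ∀ b ∈ C, b i = b j) => hij a.1 a.2) q) := by
      intro a b hab
      apply Subtype.ext
      funext i
      have := congrFun hab (Quotient.mk s i)
      exact this
    have := Nat.card_le_card_of_injective _ hf
    rw [Nat.card_coe_set_eq] at this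
    refine this.trans (le_of_eq ?_)
    rw [Nat.card_eq_fintype_card, Fintype.card_fun, ZMod.card]
  have hnQ : n ≤ Fintype.card (Quotient s) :=
    (Nat.pow_le_pow_iff_right (by norm_num)).1 (hn.trans hcard)
  have hinj : Function.Injective (fun p : Quotient s × Bool =>
      if p.2 then e (Quotient.out p.1) else Quotient.out p.1) := by
    have hq : ∀ p : Quotient s × Bool,
        Quotient.mk s (if p.2 then e (Quotient.out p.1) else Quotient.out p.1) = p.1 := by
      rintro ⟨q, b⟩
      cases b
      · simp
      · simp only [if_true]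
        have : Quotient.mk s (e (Quotient.out q)) = Quotient.mk s (Quotient.out q) := by
          apply Quotient.sound
          intro a ha
          exact (he2 (Quotient.out q) a ha).symm
        rw [this, Quotient.out_eq]
    rintro ⟨q, b⟩ ⟨q', b'⟩ h
    have h1 := hq (q, b)
    have h2 := hq (q', b')
    have hqq : q = q' := h1.symm.trans ((congrArg (Quotient.mk s) h).trans h2)
    subst hqq
    congr 1
    cases b <;> cases b'
    · rfl
    · exfalso
      simp only [if_true] at h
      exact he1 _ h.symm
    · exfalso
      simp only [if_true] at h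
      exact he1 _ h
    · rfl
  have := Fintype.card_le_of_injective _ hinj
  rw [Fintype.card_prod, Fintype.card_bool, Fintype.card_fin] at this
  omega

/-- Kernels of additive maps between finite groups are large. -/
lemma ker_card {A B : Type*} [AddCommGroup A] [AddCommGroup B] [Fintype A] [Fintype B]
    (f : A →+ B) : Fintype.card A ≤ Fintype.card B * {a | f a = 0}.ncard := by
  have h1 := AddSubgroup.card_mul_index f.ker
  have h2 : f.ker.index = Nat.card f.range := AddSubgroup.index_ker f
  have h3 : Nat.card f.range ≤ Nat.card B :=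
    Nat.card_le_card_of_injective (fun x : f.range => (x : B)) Subtype.val_injective
  have h4 : ({a | f a = 0} : Set A).ncard = Nat.card f.ker := by
    rw [← Nat.card_coe_set_eq]
    rfl
  rw [h4, ← Nat.card_eq_fintype_card, ← Nat.card_eq_fintype_card, ← h1, h2, mul_comm]
  exact Nat.mul_le_mul_right _ h3

end Pool.Agent.BTD
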