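import Pool.Agent.H81.Balls.Surface

/-! Core CLa: homology classes for the sides of an embedding scheme. -/

set_option autoImplicit false

open Classical

namespace Pool.Agent.BTD

open Pool.Agent.H81.Balls

universe u

variable {V : Type u} [Fintype V] {G : SimpleGraph V} (S : EmbeddingScheme G)

open EmbeddingScheme in
/-- (copy of the proof of `EmbeddingScheme.nonempty_faceData`, with the sides `S.side`) -/
theorem exists_hcls {g : ℕ} (hg : S.EulerGenusLE g) (x : V) :
    ∃ φ : (Sym2 V → ZMod 2) →+ (Fin g → ZMod 2), ∀ c : Sym2 V → ZMod 2,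
      (∀ v, ∑ u, c s(v, u) = 0) → (∀ v u, c s(v, u) ≠ 0 → G.Adj v u ∧ G.Reachable x v) →
      φ c = 0 → ∃ K : Option S.Face → ZMod 2, ∀ v u, G.Adj v u → G.Reachable x v →
        K (S.side s(v, u) true) + K (S.side s(v, u) false) = c s(v, u) := by
  by_cases hx : ∃ y, G.Adj x y
  swap
  · refine ⟨0, ?_⟩
    intro c _ _ _
    refine ⟨0, ?_⟩
    intro v u hvu hv
    exfalso
    apply hx
    obtain ⟨p⟩ := hv
    cases p with
    | nil => exact ⟨u, hvu⟩
    | cons h q => exact ⟨_, h⟩
  have hgen := hg x hx
  -- cardinalities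
  have cE : {e : Sym2 V | e ∈ G.edgeSet ∧ ∀ v ∈ e, G.Reachable x v}.ncard =
      Fintype.card (EC G x) := by
    rw [← Nat.card_coe_set_eq, Nat.card_eq_fintype_card]; exact Fintype.card_congr (Equiv.refl _)
  have cV : {v : V | G.Reachable x v}.ncard = Fintype.card (VC G x) := by
    rw [← Nat.card_coe_set_eq, Nat.card_eq_fintype_card]; rfl
  have cF : (S.facesOf x).ncard = Fintype.card (S.FC x) := by
    rw [← Nat.card_coe_set_eq, Nat.card_eq_fintype_card]
  rw [cE, cV, cF] at hgen
  -- dimension of the cycle space and of the space of boundaries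
  have d1 := LinearMap.finrank_range_add_finrank_ker (MM G x).mulVecLin
  have d2 := LinearMap.finrank_range_add_finrank_ker (MM G x).transpose.mulVecLin
  have d3 := LinearMap.finrank_range_add_finrank_ker (S.NN x).mulVecLin
  rw [Module.finrank_fintype_fun_eq_card] at d1 d2 d3
  have d4 : Module.finrank (ZMod 2) (LinearMap.range (MM G x).transpose.mulVecLin) =
      Module.finrank (ZMod 2) (LinearMap.range (MM G x).mulVecLin) :=
    Matrix.rank_transpose (MM G x)
  have d5 := ker_MMT (G := G) (x := x)
  have d6 := S.ker_NN (x := x)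
  set Z := LinearMap.ker (MM G x).mulVecLin with hZ
  set B := LinearMap.range (S.NN x).mulVecLin with hB
  have hBZ : B ≤ Z := by
    rintro _ ⟨K, rfl⟩
    rw [hZ, LinearMap.mem_ker, Matrix.mulVecLin_apply, Matrix.mulVecLin_apply]
    funext v
    -- the chain of the boundary of `K`
    set c : Sym2 V → ZMod 2 := fun e =>
      if (e ∈ G.edgeSet ∧ ∀ v ∈ e, G.Reachable x v) then
        S.extF K (S.side e true) + S.extF K (S.side e false) else 0 with hc
    have h1 : (S.NN x).mulVec K = fun e : EC G x => c e.1 := by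
      funext e
      rw [NN_mulVec, hc]
      simp only
      rw [if_pos e.2]
    rw [h1, MM_mulVec c]
    · rw [Pi.zero_apply, ← S.even (S.extF K) v.1]
      apply Finset.sum_congr rfl
      intro u _
      by_cases hu : G.Adj v.1 u
      · rw [if_pos hu, hc]
        simp only
        rw [if_pos (mem_EC hu v.2)]
      · rw [if_neg hu, hc]
        simp only
        rw [if_neg]
        rintro ⟨h, _⟩
        exact hu h
    · intro v u h
      by_contra hcon
      apply h
      simp only [hc]
      rw [if_neg]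
      rintro ⟨h2, h3⟩
      exact hcon ⟨h2, h3 v (Sym2.mem_mk_left v u)⟩
  obtain ⟨φ, hφ⟩ := exists_class Z B hBZ g (by omega)
  set res : (Sym2 V → ZMod 2) →+ (EC G x → ZMod 2) :=
    { toFun := fun c e => c e.1
      map_zero' := rfl
      map_add' := fun _ _ => rfl } with hres
  refine ⟨φ.toAddMonoidHom.comp res, ?_⟩
  intro c hc1 hc2 hc3
  have h1 : (fun e : EC G x => c e.1) ∈ Z := by
    rw [hZ, LinearMap.mem_ker, Matrix.mulVecLin_apply]
    funext v
    rw [MM_mulVec c hc2]
    exact hc1 v.1
  have h2 : φ (fun e : EC G x => c e.1) = 0 := hc3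
  obtain ⟨K, hK⟩ := hφ _ h1 h2
  refine ⟨S.extF K, ?_⟩
  intro v u hvu hv
  have h3 := congrFun hK ⟨s(v, u), mem_EC hvu hv⟩
  rw [Matrix.mulVecLin_apply, NN_mulVec] at h3
  exact h3

end Pool.Agent.BTD
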