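import Pool.Agent.H81.Balls.Surface

/-! Core CLb: parity of cuts. -/

set_option autoImplicit false

open Classical

namespace Pool.Agent.BTD

open Pool.Agent.H81.Balls

universe u

variable {V : Type u} [Fintype V] {G : SimpleGraph V} (S : EmbeddingScheme G)

/-- The boundary of a set of faces crosses every cut evenly. -/
theorem cut_parity (K : Option S.Face → ZMod 2) (W : Finset V) :
    ∑ v ∈ W, ∑ u ∈ Wᶜ, (if G.Adj v u then K (S.side s(v, u) true) + K (S.side s(v, u) false)
      else 0) = 0 := by
  have h1 : ∑ v ∈ W, ∑ u, (if G.Adj v u then K (S.side s(v, u) true) +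
      K (S.side s(v, u) false) else 0) = 0 := Finset.sum_eq_zero (fun v _ => S.even K v)
  have h2 : ∀ v, ∑ u, (if G.Adj v u then K (S.side s(v, u) true) +
      K (S.side s(v, u) false) else 0) = ∑ u ∈ W, (if G.Adj v u then K (S.side s(v, u) true) +
      K (S.side s(v, u) false) else 0) + ∑ u ∈ Wᶜ, (if G.Adj v u then K (S.side s(v, u) true) +
      K (S.side s(v, u) false) else 0) := fun v => (Finset.sum_add_sum_compl W _).symm
  rw [Finset.sum_congr rfl (fun v _ => h2 v), Finset.sum_add_distrib] at h1
  rw [sum_symm_zero W (fun v u => if G.Adj v u then K (S.side s(v, u) true) +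
      K (S.side s(v, u) false) else 0) (fun a b => by rw [Sym2.eq_swap, G.adj_comm])
      (fun a => by simp), zero_add] at h1
  exact h1

end Pool.Agent.BTD
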