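import Pool.Agent.BTD.CAb

/-! Core CMa: legs. -/

set_option autoImplicit false

open Classical

namespace Pool.Agent.BTD

open Pool.Agent.H81.Balls

universe u

variable {V : Type u} [Fintype V] {G : SimpleGraph V} {M : LMet G}

private theorem CMa_aux {q : V} {W : Set V} (hW : M.Cl q W) (n : ℕ) :
    ∀ v ∈ W, (M.D v q).toNat = n →
    ∃ c : Sym2 V → ZMod 2, (∀ y, ∑ u, c s(y, u) = (if y = v then 1 else 0) +
      (if y = q then 1 else 0)) ∧ ∀ e, c e ≠ 0 → e ∈ TE M q W := by
  induction n using Nat.strong_induction_on with
  | _ n ih =>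
    intro v hv hn
    by_cases hvq : v = q
    · refine ⟨fun _ => 0, fun y => ?_, fun e he => absurd rfl he⟩
      rw [hvq]
      by_cases hy : y = q
      · simp only [hy, Finset.sum_const_zero, if_true]
        decide
      · simp only [hy, Finset.sum_const_zero, if_false, add_zero]
    · obtain ⟨hfin, hpW⟩ := hW v hv
      have hlt := LMet.toNat_par_lt (M := M) hvq hfin
      obtain ⟨c', h1, h2⟩ := ih _ (by rw [← hn]; exact hlt) (M.par q v) hpW rfl
      have hadj := LMet.par_adj (M := M) hvq hfin
      refine ⟨fun e => dl v (M.par q v) e + c' e, fun y => ?_, fun e he => ?_⟩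
      · rw [Finset.sum_add_distrib, bd_dl hadj.ne, h1]
        have h2' : ∀ a : ZMod 2, a + a = 0 := by decide
        have e1 := h2' (if y = M.par q v then 1 else 0)
        linear_combination e1
      · by_cases hd : dl v (M.par q v) e = 0
        · have : c' e ≠ 0 := by
            intro h
            apply he
            show dl v (M.par q v) e + c' e = 0
            rw [hd, h, add_zero]
          exact h2 e this
        · have he' : e = s(v, M.par q v) := by
            by_contra hne
            apply hd
            unfold dl
            rw [if_neg hne]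
          exact ⟨v, hv, hvq, he'⟩

/-- The chain of the tree path from `v` to `q`. -/
theorem exists_leg {q : V} {W : Set V} (hW : M.Cl q W) {v : V} (hv : v ∈ W) :
    ∃ c : Sym2 V → ZMod 2, (∀ y, ∑ u, c s(y, u) = (if y = v then 1 else 0) +
      (if y = q then 1 else 0)) ∧ ∀ e, c e ≠ 0 → e ∈ TE M q W :=
  CMa_aux hW _ v hv rfl

end Pool.Agent.BTD
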