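import Pool.Agent.BTD.CMa
import Pool.Agent.BTD.CBa

/-! Core CMb: meridians. -/

set_option autoImplicit false

open Classical

namespace Pool.Agent.BTD

open Pool.Agent.H81.Balls

universe u

variable {V : Type u} [Fintype V] {G : SimpleGraph V} {M : LMet G}

omit [Fintype V] in
private lemma cmb_TE_mem {q : V} {W : Set V} (hW : M.Cl q W) {x y : V}
    (h : s(x, y) ∈ TE M q W) : x ∈ W ∧ y ∈ W := by
  obtain ⟨w, hw, -, he⟩ := h
  rw [Sym2.eq_iff] at he
  rcases he with ⟨h1, h2⟩ | ⟨h1, h2⟩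
  · subst h1; subst h2; exact ⟨hw, (hW _ hw).2⟩
  · subst h1; subst h2; exact ⟨(hW _ hw).2, hw⟩

/-- The meridian of a frontier element: from `r` inside `N₀`, over the frontier edge, to `q`
inside `W`. -/
theorem exists_meridian {r q : V} {N₀ W : Set V} (h0 : M.Cl r N₀) (hW : M.Cl q W)
    (hd : Disjoint N₀ W) (hr : r ∈ N₀) {b : V} (hb : b ∈ Fr M r N₀ W) :
    ∃ c : Sym2 V → ZMod 2, (∀ y, ∑ u, c s(y, u) = (if y = r then 1 else 0) +
      (if y = q then 1 else 0)) ∧ c s(M.par r b, b) = 1 ∧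
      ∀ e, c e ≠ 0 → e ∈ TE M r N₀ ∨ e ∈ TE M q W ∨ e = s(M.par r b, b) := by
  have hbW : b ∈ W := hb.2
  have hpN : M.par r b ∈ N₀ := hb.1
  have hne : M.par r b ≠ b := fun h => Set.disjoint_left.mp hd hpN (by rw [h]; exact hbW)
  obtain ⟨c0, h1, h2⟩ := exists_leg h0 hpN
  obtain ⟨c1, h3, h4⟩ := exists_leg hW hbW
  refine ⟨fun e => c0 e + dl (M.par r b) b e + c1 e, ?_, ?_, ?_⟩
  · intro y
    rw [Finset.sum_add_distrib, Finset.sum_add_distrib, h1, h3, bd_dl hne]
    generalize (if y = M.par r b then (1 : ZMod 2) else 0) = A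
    generalize (if y = r then (1 : ZMod 2) else 0) = B
    generalize (if y = b then (1 : ZMod 2) else 0) = C
    generalize (if y = q then (1 : ZMod 2) else 0) = E
    have hA := CharTwo.add_self_eq_zero A
    have hC := CharTwo.add_self_eq_zero C
    linear_combination hA + hC
  · have e0 : c0 s(M.par r b, b) = 0 := by
      by_contra h
      exact Set.disjoint_left.mp hd (cmb_TE_mem h0 (h2 _ h)).2 hbW
    have e1 : c1 s(M.par r b, b) = 0 := by
      by_contra h
      exact Set.disjoint_left.mp hd hpN (cmb_TE_mem hW (h4 _ h)).1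
    show c0 s(M.par r b, b) + dl (M.par r b) b s(M.par r b, b) + c1 s(M.par r b, b) = 1
    rw [e0, e1, zero_add, add_zero]
    exact if_pos rfl
  · intro e he
    by_cases g0 : c0 e ≠ 0
    · exact Or.inl (h2 _ g0)
    by_cases g1 : c1 e ≠ 0
    · exact Or.inr (Or.inl (h4 _ g1))
    right; right
    by_contra hc
    apply he
    have e2 : dl (M.par r b) b e = 0 := if_neg hc
    show c0 e + dl (M.par r b) b e + c1 e = 0
    rw [not_not.mp g0, not_not.mp g1, e2, add_zero, add_zero]

end Pool.Agent.BTD
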