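import Pool.Agent.BTD.CBa

/-! Core CMc: edges of the skeleton. -/

set_option autoImplicit false

open Classical

namespace Pool.Agent.BTD

open Pool.Agent.H81.Balls

universe u

variable {V : Type u} [Fintype V] {G : SimpleGraph V} {M : LMet G}

omit [Fintype V] in
private lemma cmc_TE_mem {q : V} {W : Set V} (hW : M.Cl q W) {x y : V}
    (h : s(x, y) ∈ TE M q W) : x ∈ W ∧ y ∈ W := by
  obtain ⟨w, hw, -, he⟩ := h
  rw [Sym2.eq_iff] at he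
  rcases he with ⟨h1, h2⟩ | ⟨h1, h2⟩
  · subst h1; subst h2; exact ⟨hw, (hW _ hw).2⟩
  · subst h1; subst h2; exact ⟨(hW _ hw).2, hw⟩

omit [Fintype V] in
private lemma cmc_TE_adj {q : V} {W : Set V} (hW : M.Cl q W) {x y : V}
    (h : s(x, y) ∈ TE M q W) : G.Adj x y ∧ G.Reachable x q := by
  obtain ⟨w, hw, hwq, he⟩ := h
  have ht := (hW _ hw).1
  have ha := LMet.par_adj hwq ht
  have hr := LMet.ne_top_iff.mp ht
  rw [Sym2.eq_iff] at he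
  rcases he with ⟨h1, h2⟩ | ⟨h1, h2⟩
  · subst h1; subst h2; exact ⟨ha, hr⟩
  · subst h1; subst h2; exact ⟨ha.symm, ha.reachable.symm.trans hr⟩

/-- Frontier edges are not tree edges and determine the frontier element. -/
lemma frontier_edge {r q₁ q₂ : V} {N₀ V₁ V₂ : Set V} (h0 : M.Cl r N₀) (h1 : M.Cl q₁ V₁)
    (h2 : M.Cl q₂ V₂) (h01 : Disjoint N₀ V₁) (h02 : Disjoint N₀ V₂) {b b' : V}
    (hb : b ∈ Fr M r N₀ (V₁ ∪ V₂)) (hb' : b' ∈ Fr M r N₀ (V₁ ∪ V₂)) :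
    s(M.par r b, b) ∉ TE M r N₀ ∧ s(M.par r b, b) ∉ TE M q₁ V₁ ∧ s(M.par r b, b) ∉ TE M q₂ V₂ ∧
      (s(M.par r b, b) = s(M.par r b', b') → b = b') := by
  have hb0 : b ∉ N₀ := by
    intro h
    rcases hb.2 with h' | h'
    · exact Set.disjoint_left.mp h01 h h'
    · exact Set.disjoint_left.mp h02 h h'
  have hb0' : b' ∉ N₀ := by
    intro h
    rcases hb'.2 with h' | h'
    · exact Set.disjoint_left.mp h01 h h'
    · exact Set.disjoint_left.mp h02 h h'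
  refine ⟨fun h => hb0 (cmc_TE_mem h0 h).2, fun h => ?_, fun h => ?_, fun h => ?_⟩
  · exact Set.disjoint_left.mp h01 hb.1 (cmc_TE_mem h1 h).1
  · exact Set.disjoint_left.mp h02 hb.1 (cmc_TE_mem h2 h).1
  · rw [Sym2.eq_iff] at h
    rcases h with h | h
    · exact h.2
    · exact absurd (h.1 ▸ hb.1) hb0'

/-- Edges of the skeleton leaving `V₁` are frontier edges. -/
lemma leave_V1 {r q₁ q₂ : V} {N₀ V₁ V₂ : Set V} (h0 : M.Cl r N₀) (h1 : M.Cl q₁ V₁)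
    (h2 : M.Cl q₂ V₂) (h01 : Disjoint N₀ V₁) (h12 : Disjoint V₁ V₂) {m : ℕ} {b : Fin m → V}
    (hb : ∀ i, b i ∈ Fr M r N₀ (V₁ ∪ V₂)) {v u : V} (hv : v ∈ V₁) (hu : u ∉ V₁)
    (h : s(v, u) ∈ Hed M r q₁ q₂ N₀ V₁ V₂ b) : ∃ i, b i = v ∧ u = M.par r (b i) := by
  rcases h with h | h | h | ⟨i, h⟩
  · exact absurd (cmc_TE_mem h0 h).1 (fun h' => Set.disjoint_left.mp h01 h' hv)
  · exact absurd (cmc_TE_mem h1 h).2 hu
  · exact absurd (cmc_TE_mem h2 h).1 (fun h' => Set.disjoint_left.mp h12 hv h')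
  · rw [Sym2.eq_iff] at h
    rcases h with h | h
    · exact absurd (h.1 ▸ (hb i).1) (fun h' => Set.disjoint_left.mp h01 h' hv)
    · exact ⟨i, h.1.symm, h.2⟩

/-- Edges of the skeleton touching `N₀` are tree edges inside `N₀` or frontier edges. -/
lemma touch_N0 {r q₁ q₂ : V} {N₀ V₁ V₂ : Set V} (h0 : M.Cl r N₀) (h1 : M.Cl q₁ V₁)
    (h2 : M.Cl q₂ V₂) (h01 : Disjoint N₀ V₁) (h02 : Disjoint N₀ V₂) {m : ℕ} {b : Fin m → V}
    (hb : ∀ i, b i ∈ Fr M r N₀ (V₁ ∪ V₂)) {w u : V} (hw : w ∈ N₀)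
    (h : s(w, u) ∈ Hed M r q₁ q₂ N₀ V₁ V₂ b) :
    (u ∈ N₀ ∧ (M.par r u = w ∨ M.par r w = u)) ∨ ∃ i, b i = u ∧ M.par r u = w := by
  rcases h with h | h | h | ⟨i, h⟩
  · left
    refine ⟨(cmc_TE_mem h0 h).2, ?_⟩
    obtain ⟨x, hx, -, he⟩ := h
    rw [Sym2.eq_iff] at he
    rcases he with ⟨e1, e2⟩ | ⟨e1, e2⟩
    · right; rw [e1, e2]
    · left; rw [e1, e2]
  · exact absurd (cmc_TE_mem h1 h).1 (fun h' => Set.disjoint_left.mp h01 hw h')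
  · exact absurd (cmc_TE_mem h2 h).1 (fun h' => Set.disjoint_left.mp h02 hw h')
  · right
    rw [Sym2.eq_iff] at h
    rcases h with h | h
    · exact ⟨i, h.2.symm, by rw [h.2, h.1]⟩
    · exfalso
      have h3 := (hb i).2
      rw [← h.1] at h3
      rcases h3 with h3 | h3
      · exact Set.disjoint_left.mp h01 hw h3
      · exact Set.disjoint_left.mp h02 hw h3

/-- Edges of the skeleton are edges of the component of `r`. -/
lemma Hed_adj {r q₁ q₂ : V} {N₀ V₁ V₂ : Set V} (h0 : M.Cl r N₀) (hr : r ∈ N₀) (h1 : M.Cl q₁ V₁)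
    (h2 : M.Cl q₂ V₂) (h01 : Disjoint N₀ V₁) (h02 : Disjoint N₀ V₂) {m : ℕ} {b : Fin m → V}
    (hb : ∀ i, b i ∈ Fr M r N₀ (V₁ ∪ V₂)) (hV1 : ∃ i, b i ∈ V₁) (hV2 : ∃ i, b i ∈ V₂)
    {v u : V} (h : s(v, u) ∈ Hed M r q₁ q₂ N₀ V₁ V₂ b) : G.Adj v u ∧ G.Reachable r v := by
  have hd : Disjoint N₀ (V₁ ∪ V₂) := Set.disjoint_union_right.mpr ⟨h01, h02⟩
  have hreach : ∀ i, G.Reachable r (b i) := fun i =>
    (LMet.ne_top_iff.mp (Fr.facts h0 hr hd (hb i)).1).symm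
  rcases h with h | h | h | ⟨i, h⟩
  · exact ⟨(cmc_TE_adj h0 h).1, (cmc_TE_adj h0 h).2.symm⟩
  · obtain ⟨i, hi⟩ := hV1
    have h3 := cmc_TE_adj h1 h
    exact ⟨h3.1, ((hreach i).trans (LMet.ne_top_iff.mp (h1 _ hi).1)).trans h3.2.symm⟩
  · obtain ⟨i, hi⟩ := hV2
    have h3 := cmc_TE_adj h2 h
    exact ⟨h3.1, ((hreach i).trans (LMet.ne_top_iff.mp (h2 _ hi).1)).trans h3.2.symm⟩
  · have hf := Fr.facts h0 hr hd (hb i)
    have ha := LMet.par_adj hf.2.1 hf.1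
    rw [Sym2.eq_iff] at h
    rcases h with ⟨e1, e2⟩ | ⟨e1, e2⟩
    · rw [e1, e2]
      exact ⟨ha.symm, (hreach i).trans ha.reachable⟩
    · rw [e1, e2]
      exact ⟨ha, hreach i⟩

end Pool.Agent.BTD
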