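import Pool.Agent.BTD.CLb
import Pool.Agent.BTD.CMc

/-! Core CNa: parity at V₁. -/

set_option autoImplicit false

open Classical

namespace Pool.Agent.BTD

open Pool.Agent.H81.Balls

universe u

variable {V : Type u} [Fintype V] {G : SimpleGraph V} {S : EmbeddingScheme G} {M : LMet G}

variable {r q₁ q₂ : V} {N₀ V₁ V₂ : Set V} {m : ℕ} {b : Fin (m + 2) → V}

omit [Fintype V] in
private lemma CNa_ne_top {r v : V} (h : M.par r v ≠ v) : M.D v r ≠ ⊤ := fun h' => h (LMet.par_of_top h')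

/-- Parity at `V₁`. -/
lemma parity_V1 (h0 : M.Cl r N₀) (hr : r ∈ N₀) (h1 : M.Cl q₁ V₁)
    (h2 : M.Cl q₂ V₂) (h01 : Disjoint N₀ V₁) (h02 : Disjoint N₀ V₂) (h12 : Disjoint V₁ V₂)
    (hinj : Function.Injective b) (hb : ∀ i, b i ∈ Fr M r N₀ (V₁ ∪ V₂))
    (hV1 : ∃ i, b i ∈ V₁) {K : Option S.Face → ZMod 2}
    (hK : K ∈ KK (M := M) S r q₁ q₂ N₀ V₁ V₂ b) :
    ∑ i, (if b i ∈ V₁ then K (S.side s(M.par r (b i), b i) true) +
      K (S.side s(M.par r (b i), b i) false) else 0) = 0 := by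
  have hpar : ∀ i, M.par r (b i) ∈ N₀ := fun i => (hb i).1
  have hne : ∀ i, b i ∈ V₁ → M.par r (b i) ≠ b i := by
    intro i hi h
    exact Set.disjoint_left.1 h01 (hpar i) (by rw [h]; exact hi)
  have hnt : ∀ i, b i ∈ V₁ → M.D (b i) r ≠ ⊤ := fun i hi => CNa_ne_top (hne i hi)
  have hbr : ∀ i, b i ∈ V₁ → b i ≠ r := by
    intro i hi h
    exact Set.disjoint_left.1 h01 hr (by rw [← h]; exact hi)
  have hadj : ∀ i, b i ∈ V₁ → G.Adj (b i) (M.par r (b i)) := fun i hi =>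
    LMet.par_adj (hbr i hi) (hnt i hi)
  have hreach : ∀ v ∈ V₁, G.Reachable r v := by
    intro v hv
    obtain ⟨i0, hi0⟩ := hV1
    have e1 : G.Reachable (b i0) r := LMet.ne_top_iff.1 (hnt i0 hi0)
    have e2 : G.Reachable (b i0) q₁ := LMet.ne_top_iff.1 (h1 _ hi0).1
    have e3 : G.Reachable v q₁ := LMet.ne_top_iff.1 (h1 _ hv).1
    exact e1.symm.trans (e2.trans e3.symm)
  set W : Finset V := Finset.univ.filter (fun v => v ∈ V₁) with hW
  have hmW : ∀ v, v ∈ W ↔ v ∈ V₁ := fun v => by simp [hW]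
  have hcut := cut_parity S K W
  rw [← Finset.sum_product'] at hcut
  set f : V × V → ZMod 2 := fun p => if G.Adj p.1 p.2 then K (S.side s(p.1, p.2) true) +
    K (S.side s(p.1, p.2) false) else 0 with hf
  have hcut' : ∑ p ∈ W ×ˢ Wᶜ, f p = 0 := hcut
  set I : Finset (Fin (m + 2)) := Finset.univ.filter (fun i => b i ∈ V₁) with hI
  have hmI : ∀ i, i ∈ I ↔ b i ∈ V₁ := fun i => by simp [hI]
  have hsub : I.image (fun i => (b i, M.par r (b i))) ⊆ W ×ˢ Wᶜ := by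
    intro p hp
    obtain ⟨i, hi, rfl⟩ := Finset.mem_image.1 hp
    rw [Finset.mem_product, Finset.mem_compl, hmW, hmW]
    exact ⟨(hmI i).1 hi, fun h => Set.disjoint_left.1 h01 (hpar i) h⟩
  have hzero : ∀ p ∈ W ×ˢ Wᶜ, p ∉ I.image (fun i => (b i, M.par r (b i))) → f p = 0 := by
    rintro ⟨v, u⟩ hp hnp
    rw [Finset.mem_product, Finset.mem_compl, hmW, hmW] at hp
    simp only [hf]
    by_cases ha : G.Adj v u
    · rw [if_pos ha]
      by_cases hh : s(v, u) ∈ Hed M r q₁ q₂ N₀ V₁ V₂ b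
      · exfalso
        obtain ⟨i, hi, hu⟩ := leave_V1 h0 h1 h2 h01 h12 hb hp.1 hp.2 hh
        apply hnp
        refine Finset.mem_image.2 ⟨i, (hmI i).2 (by rw [hi]; exact hp.1), ?_⟩
        exact Prod.ext hi hu.symm
      · rw [hK v u ha (hreach v hp.1) hh]
        exact CharTwo.add_self_eq_zero _
    · rw [if_neg ha]
  have h3 := Finset.sum_subset hsub hzero
  rw [hcut', Finset.sum_image (fun i _ j _ h => hinj (by simpa using congrArg Prod.fst h))] at h3
  rw [← Finset.sum_filter, ← hI, ← h3]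
  refine Finset.sum_congr rfl fun i hi => ?_
  simp only [hf]
  rw [if_pos (hadj i ((hmI i).1 hi)), Sym2.eq_swap]

end Pool.Agent.BTD
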