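import Pool.Agent.BTD.CLa
import Pool.Agent.BTD.CMb
import Pool.Agent.BTD.CMc
import Pool.Agent.BTD.CK

/-! Core CNb: many boundaries. -/

set_option autoImplicit false

open Classical

namespace Pool.Agent.BTD

open Pool.Agent.H81.Balls

universe u

variable {V : Type u} [Fintype V] {G : SimpleGraph V} {S : EmbeddingScheme G} {M : LMet G}

variable {r q₁ q₂ : V} {N₀ V₁ V₂ : Set V} {m : ℕ} {b : Fin (m + 2) → V}

/-- Enough boundaries: the set of coefficient vectors `a` on the frontier edges which are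
realized by elements of `KK` has at least `2 ^ m / 2 ^ g` elements. -/
lemma many_vectors {g : ℕ} (hg : S.EulerGenusLE g) (h0 : M.Cl r N₀) (hr : r ∈ N₀) (h1 : M.Cl q₁ V₁)
    (h2 : M.Cl q₂ V₂) (h01 : Disjoint N₀ V₁) (h02 : Disjoint N₀ V₂) (h12 : Disjoint V₁ V₂)
    (hinj : Function.Injective b) (hb : ∀ i, b i ∈ Fr M r N₀ (V₁ ∪ V₂))
    (hV1 : ∃ i, b i ∈ V₁) (hV2 : ∃ i, b i ∈ V₂) :
    2 ^ m ≤ 2 ^ g * {a : Fin (m + 2) → ZMod 2 | ∃ K ∈ KK (M := M) S r q₁ q₂ N₀ V₁ V₂ b,
      ∀ i, K (S.side s(M.par r (b i), b i) true) +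
        K (S.side s(M.par r (b i), b i) false) = a i}.ncard := by
  obtain ⟨φ, hφ⟩ := exists_hcls S hg r
  -- meridians
  have hmer : ∀ i : Fin (m + 2), ∃ c : Sym2 V → ZMod 2,
      (∀ y, ∑ u, c s(y, u) = (if y = r then 1 else 0) +
        ((if b i ∈ V₁ then 1 else 0) * (if y = q₁ then 1 else 0) +
          (if b i ∈ V₂ then 1 else 0) * (if y = q₂ then 1 else 0))) ∧
      c s(M.par r (b i), b i) = 1 ∧
      ∀ e, c e ≠ 0 → e ∈ TE M r N₀ ∨ e ∈ TE M q₁ V₁ ∨ e ∈ TE M q₂ V₂ ∨
        e = s(M.par r (b i), b i) := by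
    intro i
    obtain ⟨hp, hbi⟩ := hb i
    rcases hbi with hbi | hbi
    · obtain ⟨c, hc1, hc2, hc3⟩ := exists_meridian h0 h1 h01 hr (b := b i) ⟨hp, hbi⟩
      have hn : b i ∉ V₂ := fun h => Set.disjoint_left.mp h12 hbi h
      refine ⟨c, fun y => ?_, hc2, fun e he => ?_⟩
      · rw [hc1 y, if_pos hbi, if_neg hn, one_mul, zero_mul, add_zero]
      · rcases hc3 e he with h | h | h
        · exact Or.inl h
        · exact Or.inr (Or.inl h)
        · exact Or.inr (Or.inr (Or.inr h))
    · obtain ⟨c, hc1, hc2, hc3⟩ := exists_meridian h0 h2 h02 hr (b := b i) ⟨hp, hbi⟩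
      have hn : b i ∉ V₁ := fun h => Set.disjoint_left.mp h12 h hbi
      refine ⟨c, fun y => ?_, hc2, fun e he => ?_⟩
      · rw [hc1 y, if_pos hbi, if_neg hn, one_mul, zero_mul, zero_add]
      · rcases hc3 e he with h | h | h
        · exact Or.inl h
        · exact Or.inr (Or.inr (Or.inl h))
        · exact Or.inr (Or.inr (Or.inr h))
  choose mer hm1 hm2 hm3 using hmer
  -- values on the frontier edges
  have hval : ∀ i j, mer i s(M.par r (b j), b j) = if i = j then 1 else 0 := by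
    intro i j
    by_cases hij : i = j
    · subst hij
      rw [if_pos rfl]; exact hm2 i
    · rw [if_neg hij]
      by_contra hne
      have hf := frontier_edge h0 h1 h2 h01 h02 (hb j) (hb i)
      rcases hm3 i _ hne with h | h | h | h
      · exact hf.1 h
      · exact hf.2.1 h
      · exact hf.2.2.1 h
      · exact hij (hinj (hf.2.2.2 h)).symm
  have hsupp : ∀ i e, mer i e ≠ 0 → e ∈ Hed M r q₁ q₂ N₀ V₁ V₂ b := by
    intro i e he
    rcases hm3 i e he with h | h | h | h
    · exact Or.inl h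
    · exact Or.inr (Or.inl h)
    · exact Or.inr (Or.inr (Or.inl h))
    · exact Or.inr (Or.inr (Or.inr ⟨i, h⟩))
  -- the homomorphisms
  let Z : (Fin (m + 2) → ZMod 2) →+ (Sym2 V → ZMod 2) :=
    { toFun := fun a e => ∑ i, a i * mer i e
      map_zero' := by funext e; simp
      map_add' := by
        intro a a'
        funext e
        simp only [Pi.add_apply, add_mul, Finset.sum_add_distrib] }
  let s1 : (Fin (m + 2) → ZMod 2) →+ ZMod 2 :=
    { toFun := fun a => ∑ i, a i * (if b i ∈ V₁ then 1 else 0)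
      map_zero' := by simp
      map_add' := by
        intro a a'
        simp only [Pi.add_apply, add_mul, Finset.sum_add_distrib] }
  let s2 : (Fin (m + 2) → ZMod 2) →+ ZMod 2 :=
    { toFun := fun a => ∑ i, a i * (if b i ∈ V₂ then 1 else 0)
      map_zero' := by simp
      map_add' := by
        intro a a'
        simp only [Pi.add_apply, add_mul, Finset.sum_add_distrib] }
  let f : (Fin (m + 2) → ZMod 2) →+ ZMod 2 × (ZMod 2 × (Fin g → ZMod 2)) :=
    s1.prod (s2.prod (φ.comp Z))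
  have hcard := ker_card f
  have hsub : {a | f a = 0} ⊆ {a : Fin (m + 2) → ZMod 2 |
      ∃ K ∈ KK (M := M) S r q₁ q₂ N₀ V₁ V₂ b,
      ∀ i, K (S.side s(M.par r (b i), b i) true) +
        K (S.side s(M.par r (b i), b i) false) = a i} := by
    intro a ha
    have ha' : f a = 0 := ha
    have e1 : s1 a = 0 := congrArg Prod.fst ha'
    have e2 : s2 a = 0 := congrArg (fun p => p.2.1) ha'
    have e3 : φ (Z a) = 0 := congrArg (fun p => p.2.2) ha'
    have e1' : ∑ i, a i * (if b i ∈ V₁ then (1 : ZMod 2) else 0) = 0 := e1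
    have e2' : ∑ i, a i * (if b i ∈ V₂ then (1 : ZMod 2) else 0) = 0 := e2
    have e4 : ∑ i, a i = 0 := by
      have : ∑ i, a i = ∑ i, (a i * (if b i ∈ V₁ then (1 : ZMod 2) else 0) +
          a i * (if b i ∈ V₂ then (1 : ZMod 2) else 0)) := by
        refine Finset.sum_congr rfl fun i _ => ?_
        rcases (hb i).2 with h | h
        · have hn : b i ∉ V₂ := fun h' => Set.disjoint_left.mp h12 h h'
          rw [if_pos h, if_neg hn, mul_one, mul_zero, add_zero]
        · have hn : b i ∉ V₁ := fun h' => Set.disjoint_left.mp h12 h' h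
          rw [if_pos h, if_neg hn, mul_one, mul_zero, zero_add]
      rw [this, Finset.sum_add_distrib, e1', e2', add_zero]
    have hZ : ∀ e, Z a e = ∑ i, a i * mer i e := fun e => rfl
    have hbd : ∀ v, ∑ u, Z a s(v, u) = 0 := by
      intro v
      simp only [hZ]
      rw [Finset.sum_comm]
      simp only [← Finset.mul_sum, hm1]
      have : ∀ i, a i * ((if v = r then (1 : ZMod 2) else 0) +
          ((if b i ∈ V₁ then 1 else 0) * (if v = q₁ then 1 else 0) +
            (if b i ∈ V₂ then 1 else 0) * (if v = q₂ then 1 else 0))) =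
          a i * (if v = r then (1 : ZMod 2) else 0) +
          (a i * (if b i ∈ V₁ then 1 else 0) * (if v = q₁ then 1 else 0) +
           a i * (if b i ∈ V₂ then 1 else 0) * (if v = q₂ then 1 else 0)) := by
        intro i; ring
      simp only [this]
      rw [Finset.sum_add_distrib, Finset.sum_add_distrib, ← Finset.sum_mul, ← Finset.sum_mul,
        ← Finset.sum_mul, e1', e2', e4]
      simp
    have hex : ∀ e, Z a e ≠ 0 → e ∈ Hed M r q₁ q₂ N₀ V₁ V₂ b := by
      intro e he
      rw [hZ] at he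
      obtain ⟨i, _, hi⟩ := Finset.exists_ne_zero_of_sum_ne_zero he
      exact hsupp i e (fun h => hi (by rw [h, mul_zero]))
    obtain ⟨K, hK⟩ := hφ (Z a) hbd
      (fun v u h => Hed_adj h0 hr h1 h2 h01 h02 hb hV1 hV2 (hex _ h)) e3
    refine ⟨K, ?_, ?_⟩
    · intro v u hvu hrv hnot
      have h3 : Z a s(v, u) = 0 := by
        by_contra hne
        exact hnot (hex _ hne)
      have h4 := hK v u hvu hrv
      rw [h3] at h4
      exact zmod2_add_eq_zero.mp h4
    · intro i
      have hmem : s(M.par r (b i), b i) ∈ Hed M r q₁ q₂ N₀ V₁ V₂ b :=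
        Or.inr (Or.inr (Or.inr ⟨i, rfl⟩))
      obtain ⟨h5, h6⟩ := Hed_adj h0 hr h1 h2 h01 h02 hb hV1 hV2 hmem
      rw [hK _ _ h5 h6, hZ]
      simp only [hval]
      simp
  have hle : {a | f a = 0}.ncard ≤ {a : Fin (m + 2) → ZMod 2 |
      ∃ K ∈ KK (M := M) S r q₁ q₂ N₀ V₁ V₂ b,
      ∀ i, K (S.side s(M.par r (b i), b i) true) +
        K (S.side s(M.par r (b i), b i) false) = a i}.ncard :=
    Set.ncard_le_ncard hsub (Set.toFinite _)
  have hc1 : Fintype.card (Fin (m + 2) → ZMod 2) = 4 * 2 ^ m := by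
    rw [Fintype.card_fun, ZMod.card, Fintype.card_fin, pow_add]; ring
  have hc2 : Fintype.card (ZMod 2 × (ZMod 2 × (Fin g → ZMod 2))) = 4 * 2 ^ g := by
    rw [Fintype.card_prod, Fintype.card_prod, Fintype.card_fun, ZMod.card, Fintype.card_fin]; ring
  rw [hc1, hc2] at hcard
  have hcard' : 4 * 2 ^ m ≤ 4 * (2 ^ g * {a | f a = 0}.ncard) := by
    rw [← mul_assoc]; exact hcard
  have h7 : 2 ^ m ≤ 2 ^ g * {a | f a = 0}.ncard := Nat.le_of_mul_le_mul_left hcard' (by norm_num)
  exact h7.trans (Nat.mul_le_mul_left _ hle)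

end Pool.Agent.BTD
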