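import Pool.Agent.BTD.CNa
import Pool.Agent.BTD.CNb
import Pool.Agent.BTD.CK

/-! Core CNc: the alternation bound. -/

set_option autoImplicit false

open Classical

namespace Pool.Agent.BTD

open Pool.Agent.H81.Balls

universe u

variable {V : Type u} [Fintype V] {G : SimpleGraph V} {S : EmbeddingScheme G} {M : LMet G}

variable {r q₁ q₂ : V} {N₀ V₁ V₂ : Set V} {m : ℕ} {b : Fin (m + 2) → V}

private lemma CNc_two {n : ℕ} (C A : Set (Fin (n + 2) → ZMod 2))
    (hC1 : ∀ k ∈ C, (fun i => k i + 1) ∈ C)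
    (hA : ∀ a ∈ A, ∃ k ∈ C, ∀ i, k i + k (i + 1) = a (i + 1)) : 2 * A.ncard ≤ C.ncard := by
  choose! s hs1 hs2 using hA
  have hZ : ∀ t : ZMod 2, t = 0 ∨ t = 1 := by decide
  have h1 : (A ×ˢ (Set.univ : Set (ZMod 2))).ncard = A.ncard * 2 := by
    rw [Set.ncard_prod, Set.ncard_univ]
    simp
  have h2 : (A ×ˢ (Set.univ : Set (ZMod 2))).ncard ≤ C.ncard := by
    refine Set.ncard_le_ncard_of_injOn (fun p => fun i => s p.1 i + p.2) ?_ ?_ (Set.toFinite _)
    · rintro ⟨a, t⟩ ⟨ha, -⟩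
      rcases hZ t with rfl | rfl
      · simpa using hs1 a ha
      · exact hC1 _ (hs1 a ha)
    · rintro ⟨a, t⟩ ⟨ha, -⟩ ⟨a', t'⟩ ⟨ha', -⟩ h
      have hh : ∀ i, s a i + t = s a' i + t' := fun i => congrFun h i
      have haa : a = a' := by
        funext j
        have hj : j = (j - 1) + 1 := (sub_add_cancel j 1).symm
        rw [hj, ← hs2 a ha, ← hs2 a' ha']
        have e1 := hh (j - 1)
        have e2 := hh (j - 1 + 1)
        have e3 : (t + t : ZMod 2) = 0 := CharTwo.add_self_eq_zero t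
        have e4 : (t' + t' : ZMod 2) = 0 := CharTwo.add_self_eq_zero t'
        linear_combination e1 + e2 - e3 + e4
      subst haa
      have := hh 0
      have htt : t = t' := by linear_combination this
      rw [htt]
  omega

/-- ALTERNATION THEOREM. -/
theorem alternation {g : ℕ} (hg : S.EulerGenusLE g) (h0 : M.Cl r N₀) (hr : r ∈ N₀)
    (h1 : M.Cl q₁ V₁) (h2 : M.Cl q₂ V₂) (h01 : Disjoint N₀ V₁) (h02 : Disjoint N₀ V₂)
    (h12 : Disjoint V₁ V₂) (hinj : Function.Injective b) (hb : ∀ i, b i ∈ Fr M r N₀ (V₁ ∪ V₂))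
    (halt : ∀ i, b i ∈ V₁ ↔ b (i + 1) ∈ V₂) (inF outF : V → Option S.Face)
    (hio : ∀ (K : Option S.Face → ZMod 2) i, K (inF (b i)) + K (outF (b i)) =
      K (S.side s(M.par r (b i), b i) true) + K (S.side s(M.par r (b i), b i) false))
    (hcont : ∀ K ∈ KK (M := M) S r q₁ q₂ N₀ V₁ V₂ b, ∀ i, K (inF (b (i + 1))) = K (outF (b i))) :
    m ≤ 2 * g := by
  have hnot : ∀ i, (b (i + 1) ∈ V₁ ↔ b i ∉ V₁) := by
    intro i
    constructor
    · intro h h'
      exact Set.disjoint_left.1 h12 h ((halt i).1 h')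
    · intro h
      rcases (hb (i + 1)).2 with h' | h'
      · exact h'
      · exact absurd ((halt i).2 h') h
  have hV1 : ∃ i, b i ∈ V₁ := by
    by_cases h : b 0 ∈ V₁
    · exact ⟨0, h⟩
    · exact ⟨0 + 1, (hnot 0).2 h⟩
  have hV2 : ∃ i, b i ∈ V₂ := by
    obtain ⟨i, hi⟩ := hV1
    exact ⟨i + 1, (halt i).1 hi⟩
  have hmany := many_vectors (S := S) hg h0 hr h1 h2 h01 h02 h12 hinj hb hV1 hV2
  set A : Set (Fin (m + 2) → ZMod 2) := {a : Fin (m + 2) → ZMod 2 | ∃ K ∈ KK (M := M) S r q₁ q₂ N₀ V₁ V₂ b,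
      ∀ i, K (S.side s(M.par r (b i), b i) true) +
        K (S.side s(M.par r (b i), b i) false) = a i} with hA
  set C : Set (Fin (m + 2) → ZMod 2) :=
    {k | ∃ K ∈ KK (M := M) S r q₁ q₂ N₀ V₁ V₂ b, ∀ i, k i = K (outF (b i))} with hC
  have hC1 : (fun _ => 1) ∈ C := ⟨fun _ => 1, fun v u _ _ _ => rfl, fun i => rfl⟩
  have hCadd : ∀ a ∈ C, ∀ b ∈ C, (fun i => a i + b i) ∈ C := by
    rintro k ⟨K, hK, hk⟩ k' ⟨K', hK', hk'⟩
    refine ⟨fun f => K f + K' f, fun v u h h' h'' => ?_, fun i => ?_⟩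
    · change K _ + K' _ = K _ + K' _
      rw [hK v u h h' h'', hK' v u h h' h'']
    · change k i + k' i = K _ + K' _
      rw [hk, hk']
  have hCmul : ∀ a ∈ C, ∀ b ∈ C, (fun i => a i * b i) ∈ C := by
    rintro k ⟨K, hK, hk⟩ k' ⟨K', hK', hk'⟩
    refine ⟨fun f => K f * K' f, fun v u h h' h'' => ?_, fun i => ?_⟩
    · change K _ * K' _ = K _ * K' _
      rw [hK v u h h' h'', hK' v u h h' h'']
    · change k i * k' i = K _ * K' _
      rw [hk, hk']
  have hCw : ∀ i, (fun j => if j = i then (1 : ZMod 2) else 0) ∉ C := by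
    rintro j ⟨K, hK, hk⟩
    have hp := parity_V1 h0 hr h1 h2 h01 h02 h12 hinj hb hV1 hK
    have hterm : ∀ i, (if b i ∈ V₁ then K (S.side s(M.par r (b i), b i) true) +
      K (S.side s(M.par r (b i), b i) false) else 0) =
        (if i = j then (if b j ∈ V₁ then (1 : ZMod 2) else 0) else 0) +
        (if i = j + 1 then (if b (j + 1) ∈ V₁ then (1 : ZMod 2) else 0) else 0) := by
      intro i
      have e1 : K (inF (b i)) = if i = j + 1 then (1 : ZMod 2) else 0 := by
        have h3 := hcont K hK (i - 1)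
        rw [sub_add_cancel] at h3
        rw [h3, ← hk (i - 1)]
        change (if i - 1 = j then (1 : ZMod 2) else 0) = _
        by_cases h4 : i = j + 1
        · rw [if_pos h4, if_pos (by rw [h4, add_sub_cancel_right])]
        · rw [if_neg h4, if_neg (fun h5 => h4 (by rw [← h5, sub_add_cancel]))]
      have e2 : K (outF (b i)) = if i = j then (1 : ZMod 2) else 0 := (hk i).symm
      rw [← hio K i, e1, e2]
      by_cases hi : b i ∈ V₁
      · rw [if_pos hi]
        by_cases h4 : i = j + 1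
        · by_cases h5 : i = j
          · rw [if_pos h4, if_pos h5, if_pos h5, if_pos h4, if_pos (h5 ▸ hi), if_pos (h4 ▸ hi)]
          · rw [if_pos h4, if_neg h5, if_neg h5, if_pos h4, if_pos (h4 ▸ hi)]
            ring
        · by_cases h5 : i = j
          · rw [if_neg h4, if_pos h5, if_pos h5, if_neg h4, if_pos (h5 ▸ hi)]
            ring
          · rw [if_neg h4, if_neg h5, if_neg h5, if_neg h4]
      · rw [if_neg hi]
        by_cases h4 : i = j + 1
        · by_cases h5 : i = j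
          · rw [if_pos h5, if_pos h4, if_neg (h5 ▸ hi), if_neg (h4 ▸ hi)]
            ring
          · rw [if_neg h5, if_pos h4, if_neg (h4 ▸ hi)]
            ring
        · by_cases h5 : i = j
          · rw [if_pos h5, if_neg h4, if_neg (h5 ▸ hi)]
            ring
          · rw [if_neg h4, if_neg h5]
            ring
    rw [Finset.sum_congr rfl (fun i _ => hterm i), Finset.sum_add_distrib,
      Finset.sum_ite_eq' Finset.univ j, Finset.sum_ite_eq' Finset.univ (j + 1),
      if_pos (Finset.mem_univ _), if_pos (Finset.mem_univ _)] at hp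
    by_cases hj : b j ∈ V₁
    · rw [if_pos hj, if_neg (fun h => (hnot j).1 h hj)] at hp
      exact absurd hp (by decide)
    · rw [if_neg hj, if_pos ((hnot j).2 hj)] at hp
      exact absurd hp (by decide)
  have hAC : 2 * A.ncard ≤ C.ncard := by
    refine CNc_two C A ?_ ?_
    · intro k hk
      exact hCadd k hk _ hC1
    · rintro a ⟨K, hK, ha⟩
      refine ⟨fun i => K (outF (b i)), ⟨K, hK, fun i => rfl⟩, fun i => ?_⟩
      change K (outF (b i)) + K (outF (b (i + 1))) = a (i + 1)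
      rw [← hcont K hK i, hio K (i + 1), ha]
  rcases Nat.lt_or_ge (m + 1) g with hlt | hge
  · omega
  · have hn : 2 ^ (m + 1 - g) ≤ C.ncard := by
      have e1 : 2 ^ g * 2 ^ (m + 1 - g) = 2 ^ (m + 1) := by
        rw [← pow_add]
        congr 1
        omega
      have e2 : 2 ^ g * 2 ^ (m + 1 - g) ≤ 2 ^ g * C.ncard := by
        rw [e1, pow_succ]
        calc 2 ^ m * 2 ≤ (2 ^ g * A.ncard) * 2 := Nat.mul_le_mul_right 2 hmany
          _ = 2 ^ g * (2 * A.ncard) := by ring
          _ ≤ 2 ^ g * C.ncard := Nat.mul_le_mul_left _ hAC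
      exact Nat.le_of_mul_le_mul_left e2 (by positivity)
    have := code_bound (m + 2) (m + 1 - g) C hC1 hCadd hCmul hCw hn
    omega

end Pool.Agent.BTD
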