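import Pool.Agent.BTD.CJc
import Pool.Agent.BTD.CNc
import Pool.Agent.BTD.CHa
import Pool.Agent.BTD.CHb

/-! Core COa: the root order. -/

set_option autoImplicit false

open Classical

namespace Pool.Agent.BTD

open Pool.Agent.H81.Balls

universe u

private lemma COa_add {k : ℕ} (i : Fin (k + 2)) : (i + 1).val = (i.val + 1) % (k + 2) := by
  rw [Fin.val_add, Fin.val_one]

private lemma COa_alt {V : Type u} {G : SimpleGraph V} {M : LMet G} {r : V} {l : List V}
    {N₀ V₁ V₂ : Set V} (h12 : Disjoint V₁ V₂) (hFr : ∀ b ∈ l, b ∈ Fr M r N₀ (V₁ ∪ V₂))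
    (hch : l.IsChain (fun a b => a ∈ V₁ ↔ b ∈ V₂)) :
    ∀ (j : ℕ) (hj : j < l.length), (l[j] ∈ V₁ ↔ (l[0] ∈ V₁ ↔ Even j)) := by
  have hmem : ∀ (j : ℕ) (hj : j < l.length), (l[j] ∈ V₂ ↔ l[j] ∉ V₁) := by
    intro j hj
    have h := (hFr l[j] (List.getElem_mem hj)).2
    constructor
    · intro h2 h1
      exact Set.disjoint_left.1 h12 h1 h2
    · intro h1
      rcases h with h | h
      · exact absurd h h1
      · exact h
  intro j
  induction j with
  | zero => intro hj; simp
  | succ j ih =>
    intro hj
    have h1 := ih (by omega)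
    have h2 : l[j] ∈ V₁ ↔ l[j + 1] ∈ V₂ := by
      have := List.isChain_iff_getElem.1 hch j (by omega)
      exact this
    rw [hmem] at h2
    have h3 : Even (j + 1) ↔ ¬ Even j := Nat.even_add_one
    rw [h3]
    tauto

/-- The preorder of the contour is a root order. -/
theorem exists_rootOrd {V : Type u} [Fintype V] {G : SimpleGraph V} (S : EmbeddingScheme G)
    {g : ℕ} (hg : S.EulerGenusLE g) (M : LMet G) (r : V) :
    Nonempty (RootOrd M (2 * g + 3) r) := by
  obtain ⟨ch, inF, outF, hc1, hc2, hc3, hc4⟩ := contour S M r
  let T : PTree V :=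
    { comp := {v | M.D v r ≠ ⊤}
      r := r
      p := M.par r
      mu := fun v => (M.D v r).toNat
      ch := ch
      r_mem := by simp [M.D_self]
      p_root := LMet.par_root
      p_mem := fun v hv => LMet.par_ne_top hv
      mu_lt := fun v hv hvr => LMet.toNat_par_lt hvr hv
      mem_ch := fun v hv w => hc1 v hv w
      nodup := hc2 }
  set N : ℕ := Finset.univ.sup (fun v => (M.D v r).toNat) with hNdef
  have hN : ∀ v, (M.D v r).toNat ≤ N := fun v =>
    Finset.le_sup (f := fun v => (M.D v r).toNat) (Finset.mem_univ v)
  have hNT : ∀ v ∈ T.comp, T.mu v ≤ N := fun v _ => hN v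
  set L : List V := pre ch N r with hL
  have hmemL : ∀ v, M.D v r ≠ ⊤ → v ∈ L := by
    intro v hv
    exact (T.mem_pre (n := N) hNT T.r_mem (by omega) v).2 ⟨hv, LMet.anc_root hv⟩
  have hndL : L.Nodup := T.nodup_pre (n := N) hNT T.r_mem (by omega)
  have hrf := T.rank_facts (n := N) hNT le_rfl
  refine ⟨{ rk := fun v => L.idxOf v
            inj := ?_
            anc_le := fun a v hv ha => hrf.1 a v hv ha
            interval := fun a y v hy hv ha h1 h2 => hrf.2 a y v hy hv ha h1 h2
            alt := ?_ }⟩
  · intro v w hv hw h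
    exact (List.idxOf_inj (hmemL v hv)).1 h
  · intro N₀ V₁ V₂ q₁ q₂ h0 hr h1 h2 h01 h02 h12 l hsort hFr hchain
    by_contra hlen
    push Not at hlen
    set l' : List V := l.take (2 * g + 4) with hl'
    have hlen' : l'.length = 2 * g + 4 := by
      rw [hl', List.length_take]; omega
    have hsub : ∀ b ∈ l', b ∈ l := fun b hb => List.mem_of_mem_take hb
    have hsort' : l'.Pairwise (fun a b => L.idxOf a < L.idxOf b) :=
      hsort.sublist (List.take_sublist _ _)
    have hFr' : ∀ b ∈ l', b ∈ Fr M r N₀ (V₁ ∪ V₂) := fun b hb => hFr b (hsub b hb)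
    have hchain' : l'.IsChain (fun a b => a ∈ V₁ ↔ b ∈ V₂) := hchain.take _
    have hnN : ∀ b ∈ l', b ∉ N₀ := by
      intro b hb hbN
      rcases (hFr' b hb).2 with h | h
      · exact Set.disjoint_left.1 h01 hbN h
      · exact Set.disjoint_left.1 h02 hbN h
    have hpN : ∀ b ∈ l', M.par r b ∈ N₀ := fun b hb => (hFr' b hb).1
    have hnt : ∀ b ∈ l', M.D b r ≠ ⊤ := by
      intro b hb h
      have := hpN b hb
      rw [LMet.par_of_top h] at this
      exact hnN b hb this
    have hbr : ∀ b ∈ l', b ≠ r := by
      intro b hb h
      exact hnN b hb (by rw [h]; exact hr)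
    have hnd' : l'.Nodup := by
      refine hsort'.imp ?_
      intro a b h1 h2
      rw [h2] at h1
      exact lt_irrefl _ h1
    have hfilter : L.filter (fun b => b ∈ l') = l' :=
      filter_eq_of_sorted hndL hsort' (fun b hb => hmemL b (hnt b hb))
    let b : Fin (2 * g + 2 + 2) → V := fun i => l'[i.val]'(by have := i.isLt; omega)
    have hbmem : ∀ i, b i ∈ l' := fun i => List.getElem_mem _
    have hinj : Function.Injective b := by
      intro i j hij
      exact Fin.ext ((hnd'.getElem_inj_iff).1 hij)
    have halt : ∀ i, b i ∈ V₁ ↔ b (i + 1) ∈ V₂ := by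
      intro i
      have hA := COa_alt h12 hFr' hchain'
      by_cases hi : i.val + 1 < 2 * g + 2 + 2
      · have e : (i + 1).val = i.val + 1 := by
          rw [COa_add, Nat.mod_eq_of_lt hi]
        have h3 := List.isChain_iff_getElem.1 hchain' i.val (by omega)
        have h4 : b (i + 1) = l'[i.val + 1]'(by omega) := by
          show l'[(i + 1).val]'_ = _
          simp only [e]
        rw [h4]
        exact h3
      · have hi' : i.val = 2 * g + 3 := by have := i.isLt; omega
        have e : (i + 1).val = 0 := by
          rw [COa_add, hi']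
          exact Nat.mod_self _
        have h4 : b (i + 1) = l'[0]'(by omega) := by
          show l'[(i + 1).val]'_ = _
          simp only [e]
        have h5 : b i = l'[2 * g + 3]'(by omega) := by
          show l'[i.val]'_ = _
          simp only [hi']
        rw [h4, h5, hA (2 * g + 3) (by omega)]
        have h6 : ¬ Even (2 * g + 3) := by
          rw [Nat.not_even_iff_odd]
          exact ⟨g + 1, by ring⟩
        have h7 := (hFr' (l'[0]'(by omega)) (List.getElem_mem _)).2
        constructor
        · intro h8
          rcases h7 with h7 | h7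
          · exact absurd (h8.1 h7) h6
          · exact h7
        · intro h8
          constructor
          · intro h9
            exact absurd h8 (Set.disjoint_left.1 h12 h9)
          · intro h9
            exact absurd h9 h6
    have hcont : ∀ K ∈ KK (M := M) S r q₁ q₂ N₀ V₁ V₂ b, ∀ i, K (inF (b (i + 1))) =
        K (outF (b i)) := by
      intro K hK i
      obtain ⟨x, hx⟩ := hc4 N N (fun v _ => hN v) le_rfl N₀ {v | v ∈ l'} h0 hr
        (fun b hb => ⟨hnt b hb, hbr b hb, hpN b hb, hnN b hb⟩) K (by
          intro w hw u hadj hn1 hn2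
          refine hK w u hadj (LMet.ne_top_iff.1 (h0 w hw).1).symm ?_
          intro hh
          rcases touch_N0 h0 h1 h2 h01 h02 (fun i => hFr' _ (hbmem i)) hw hh with h | ⟨j, hj, hj'⟩
          · exact hn1 h
          · exact hn2 ⟨by rw [← hj]; exact hbmem j, hj'⟩)
      have hx' : Lk (fun b => K (inF b)) (fun b => K (outF b)) x x l' := by
        refine Eq.subst (motive := fun t => Lk (fun b => K (inF b)) (fun b => K (outF b)) x x t)
          ?_ hx
        rw [← hL]
        conv_rhs => rw [← hfilter]
        refine List.filter_congr ?_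
        intro b _
        simp
      have hne : l' ≠ [] := by
        intro h
        rw [h] at hlen'
        simp at hlen'
      have hg2 := Lk.get hx' hne
      by_cases hi : i.val + 1 < 2 * g + 2 + 2
      · have e : (i + 1).val = i.val + 1 := by
          rw [COa_add, Nat.mod_eq_of_lt hi]
        have h4 : b (i + 1) = l'[i.val + 1]'(by omega) := by
          show l'[(i + 1).val]'_ = _
          simp only [e]
        rw [h4]
        exact hg2.2 i.val (by omega)
      · have hi' : i.val = 2 * g + 3 := by have := i.isLt; omega
        have e : (i + 1).val = 0 := by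
          rw [COa_add, hi']
          exact Nat.mod_self _
        have h4 : b (i + 1) = l'[0]'(by omega) := by
          show l'[(i + 1).val]'_ = _
          simp only [e]
        have h5 : b i = l'.getLast hne := by
          rw [List.getLast_eq_getElem]
          show l'[i.val]'_ = _
          simp only [hi', hlen']
          rfl
        rw [h4, h5]
        exact hg2.1
    have := alternation (b := b) hg h0 hr h1 h2 h01 h02 h12 hinj (fun i => hFr' _ (hbmem i)) halt
      inF outF (fun K i => hc3 K (b i) (hnt _ (hbmem i)) (hbr _ (hbmem i))) hcont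
    omega

end Pool.Agent.BTD
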