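import Pool.Agent.BTD.COa
import Pool.Agent.BTD.CEc
import Pool.Agent.BTD.CGc

/-! Core COb: the core theorem. -/

set_option autoImplicit false

open Classical

namespace Pool.Agent.BTD

open Pool.Agent.H81.Balls

universe u

private lemma COb_mono {C P : Type*} {s : Bool} {N N' : ℕ} {inc : C → P → Prop} {C₀ : Set C}
    {P₀ : Set P} (h : Cert s N inc C₀ P₀) (hN : N ≤ N') : Cert s N' inc C₀ P₀ := by
  obtain ⟨H, T, i1, i2, h1, h2, h3⟩ := h
  exact ⟨H, T, i1, i2, h1.trans hN, h2.trans hN, h3⟩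

/-- CORE THEOREM. -/
theorem cert_embedded_core (g : ℕ) : ∃ N : ℕ, ∀ (s : Bool) (V : Type u) [Fintype V]
    (G : SimpleGraph V) (S : EmbeddingScheme G), S.EulerGenusLE g → ∀ M : LMet G,
    Cert s N M.inc Set.univ Set.univ := by
  obtain ⟨N1, h1⟩ := cert_pos.{u} (2 * g + 3)
  obtain ⟨N2, h2⟩ := cert_neg.{u} (2 * g + 3)
  refine ⟨max N1 N2, ?_⟩
  intro s V _ G S hg M
  have h : ∀ r, Nonempty (RootOrd M (2 * g + 3) r) := fun r => exists_rootOrd S hg M r
  cases s with
  | true => exact COb_mono (h1 V G M h) (le_max_left _ _)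
  | false => exact COb_mono (h2 V G M h) (le_max_right _ _)

end Pool.Agent.BTD
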