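import Pool.Agent.BTD.Base

set_option autoImplicit false

open Classical

namespace Pool.Agent.BTD

open Pool.Agent.H81.Balls Set

variable {C P C' P' : Type*} {s : Bool} {N : ℕ} {inc : C → P → Prop} {C₀ C₁ : Set C}
  {P₀ P₁ : Set P}

theorem Cert.mono {N' : ℕ} (h : Cert s N inc C₀ P₀) (hN : N ≤ N') : Cert s N' inc C₀ P₀ := by
  obtain ⟨H, T, iH, iT, h1, h2, h3⟩ := h
  exact ⟨H, T, iH, iT, h1.trans hN, h2.trans hN, h3⟩

theorem Cert.sub (h : Cert s N inc C₀ P₀) (hC : C₁ ⊆ C₀) (hP : P₁ ⊆ P₀) :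
    Cert s N inc C₁ P₁ := by
  obtain ⟨H, T, iH, iT, h1, h2, dec, h3⟩ := h
  refine ⟨H, T, iH, iT, h1, h2, fun a t => dec a t ∩ C₁, ?_⟩
  intro X hX e he hs
  obtain ⟨a, t, h4, h5, h6⟩ := h3 X (hX.trans hP) e (hC he) hs
  exact ⟨a, t, h4, ⟨h5, he⟩, fun e' he' => ⟨he'.2, (h6 e' he'.1).2⟩⟩

theorem Cert.congr {inc' : C → P → Prop} (h : Cert s N inc C₀ P₀)
    (hi : ∀ e ∈ C₀, ∀ x ∈ P₀, (inc e x ↔ inc' e x)) : Cert s N inc' C₀ P₀ := by
  obtain ⟨H, T, iH, iT, h1, h2, dec, h3⟩ := h
  refine ⟨H, T, iH, iT, h1, h2, dec, ?_⟩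
  intro X hX e he hs
  obtain ⟨a, t, h4, h5, h6⟩ := h3 X hX e he
    (fun x hx => (hi e he x (hX hx)).trans (hs x hx))
  exact ⟨a, t, h4, h5, fun e' he' => ⟨(h6 e' he').1, fun x hx =>
    (hi e' (h6 e' he').1 x (hX hx)).symm.trans ((h6 e' he').2 x hx)⟩⟩

theorem Cert.normal (h : Cert s N inc C₀ P₀) : CertHT s inc C₀ P₀ (Fin N) (Fin N) := by
  obtain ⟨H, T, iH, iT, h1, h2, dec, h3⟩ := h
  have e1 : Nonempty (H ↪ Fin N) := Function.Embedding.nonempty_of_card_le (by simpa using h1)
  have e2 : Nonempty (T ↪ Fin N) := Function.Embedding.nonempty_of_card_le (by simpa using h2)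
  obtain ⟨fH⟩ := e1
  obtain ⟨fT⟩ := e2
  refine ⟨fun a t => if ht : ∃ t', fT t' = t then dec (fun i => a (fH i)) ht.choose else ∅, ?_⟩
  intro X hX e he hs
  obtain ⟨a, t, h4, h5, h6⟩ := h3 X hX e he hs
  refine ⟨fun j => if hj : ∃ i, fH i = j then a hj.choose else none, fT t, ?_, ?_⟩
  · intro j x hjx
    by_cases hj : ∃ i, fH i = j
    · simp only [dif_pos hj] at hjx
      exact h4 _ _ hjx
    · simp only [dif_neg hj] at hjx
      cases hjx
  · have ht : ∃ t', fT t' = fT t := ⟨t, rfl⟩
    have ht' : ht.choose = t := fT.injective ht.choose_spec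
    have hH : (fun i => (if hj : ∃ i', fH i' = fH i then a hj.choose else none)) = a := by
      funext i
      have hj : ∃ i', fH i' = fH i := ⟨i, rfl⟩
      rw [dif_pos hj, fH.injective hj.choose_spec]
    simp only [dif_pos ht, ht', hH]
    exact ⟨h5, h6⟩

theorem Cert.ofNormal (h : CertHT s inc C₀ P₀ (Fin N) (Fin N)) : Cert s N inc C₀ P₀ :=
  ⟨Fin N, Fin N, inferInstance, inferInstance, by simp, by simp, h⟩

/-- Union rule. -/
theorem Cert.iUnion {J : Type} [Fintype J] {K : ℕ} (hJ : Fintype.card J ≤ K)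
    (incs : J → C → P → Prop) (h : ∀ j, Cert s N (incs j) C₀ P₀) :
    Cert s (K * N + N ^ K + 1) (fun e x => ∃ j, incs j e x) C₀ P₀ := by
  choose dec hdec using fun j => (h j).normal
  refine ⟨J × Fin N, J → Fin N, inferInstance, inferInstance, ?_, ?_,
    fun a t => {e | e ∈ C₀ ∧ ∀ j, e ∈ dec j (fun i => a (j, i)) (t j)}, ?_⟩
  · rw [Fintype.card_prod, Fintype.card_fin]
    have := Nat.mul_le_mul_right N hJ
    omega
  · rw [Fintype.card_fun, Fintype.card_fin]
    rcases Nat.eq_zero_or_pos N with h0 | h0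
    · subst h0
      have : 0 ^ Fintype.card J ≤ 1 := by
        rcases Nat.eq_zero_or_pos (Fintype.card J) with h1 | h1
        · rw [h1]; simp
        · rw [Nat.zero_pow h1]; omega
      exact this.trans (Nat.le_add_left 1 _)
    · have := Nat.pow_le_pow_right h0 hJ
      omega
  intro X hX e he hs
  have key : ∀ j, ∃ X' ⊆ X, (∀ x ∈ X', (incs j e x ↔ s = true)) ∧
      (s = true → X' = {x ∈ X | incs j e x}) ∧ (s = false → X' = X) := by
    intro j
    cases s
    · refine ⟨X, Subset.rfl, ?_, by simp, by simp⟩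
      intro x hx
      have := hs x hx
      simp only [Bool.false_eq_true, iff_false, not_exists] at this ⊢
      exact this j
    · exact ⟨{x ∈ X | incs j e x}, fun x hx => hx.1, fun x hx => by simpa using hx.2, by simp,
        by simp⟩
  choose X' hX' hX's hX't hX'f using key
  choose a t h1 h2 h3 using fun j => hdec j (X' j) ((hX' j).trans hX) e he (hX's j)
  refine ⟨fun p => a p.1 p.2, t, ?_, ⟨he, fun j => h2 j⟩, ?_⟩
  · rintro ⟨j, i⟩ x hx
    exact hX' j (h1 j i x hx)
  · intro e' he'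
    refine ⟨he'.1, ?_⟩
    intro x hx
    cases s
    · simp only [Bool.false_eq_true, iff_false, not_exists]
      intro j hj
      have h4 := (h3 j e' (he'.2 j)).2 x (by rw [hX'f j rfl]; exact hx)
      simp only [Bool.false_eq_true, iff_false] at h4
      exact h4 hj
    · simp only [iff_true]
      have h5 := hs x hx
      simp only [iff_true] at h5
      obtain ⟨j, hj⟩ := h5
      have h4 := (h3 j e' (he'.2 j)).2 x (by rw [hX't j rfl]; exact ⟨hx, hj⟩)
      simp only [iff_true] at h4
      exact ⟨j, h4⟩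

/-- Pullback along partial maps. -/
theorem Cert.pullback {inc' : C' → P' → Prop} (h : Cert s N inc' univ univ)
    (φ : C → Option C') (ψ : P → Option P') :
    Cert s (N + 1) (fun e x => ∃ e' x', φ e = some e' ∧ ψ x = some x' ∧ inc' e' x')
      univ univ := by
  obtain ⟨dec, hdec⟩ := h.normal
  refine ⟨Fin N, Option (Fin N), inferInstance, inferInstance, by simp, by simp,
    fun a t => match t with
      | none => if s = true then univ else {e | φ e = none}
      | some t => {e | ∃ e', φ e = some e' ∧ e' ∈ dec (fun i => (a i).bind ψ) t}, ?_⟩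
  intro X _ e _ hs
  have main : ∀ e', φ e = some e' → (∀ x ∈ X, s = true → ψ x ≠ none) →
      ∃ (a : Fin N → Option P) (t : Option (Fin N)), (∀ i x, a i = some x → x ∈ X) ∧
      e ∈ (match t with
        | none => if s = true then univ else {e | φ e = none}
        | some t => {e | ∃ e', φ e = some e' ∧ e' ∈ dec (fun i => (a i).bind ψ) t} : Set C) ∧
      ∀ e' ∈ (match t with
        | none => if s = true then univ else {e | φ e = none}
        | some t => {e | ∃ e', φ e = some e' ∧ e' ∈ dec (fun i => (a i).bind ψ) t} : Set C),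
        e' ∈ (univ : Set C) ∧ ∀ x ∈ X,
          ((∃ e'' x', φ e' = some e'' ∧ ψ x = some x' ∧ inc' e'' x') ↔ s = true) := by
    intro e' he' hne
    have hs' : ∀ x' ∈ {x' | ∃ x ∈ X, ψ x = some x'}, (inc' e' x' ↔ s = true) := by
      rintro x' ⟨x, hx, hxx'⟩
      rw [← hs x hx]
      constructor
      · intro hh; exact ⟨e', x', he', hxx', hh⟩
      · rintro ⟨e2, x2, h1, h2, h3⟩
        rw [he'] at h1; rw [hxx'] at h2
        cases h1; cases h2; exact h3
    obtain ⟨a', t, h1, h2, h3⟩ := hdec {x' | ∃ x ∈ X, ψ x = some x'} (subset_univ _) e'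
      (mem_univ _) hs'
    have hch : ∀ i, ∃ o : Option P, (∀ x, o = some x → x ∈ X) ∧ o.bind ψ = a' i := by
      intro i
      cases hai : a' i with
      | none => exact ⟨none, by simp, by simp⟩
      | some x' =>
        obtain ⟨x, hx, hxx⟩ := h1 i x' hai
        refine ⟨some x, ?_, by simpa using hxx⟩
        intro y hy; cases hy; exact hx
    choose a ha1 ha2 using hch
    have ha2' : (fun i => (a i).bind ψ) = a' := funext ha2
    refine ⟨a, some t, fun i x hx => ha1 i x hx, ?_, ?_⟩
    · refine ⟨e', he', ?_⟩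
      rw [ha2']; exact h2
    · rintro e2 ⟨e2', h4, h5⟩
      rw [ha2'] at h5
      refine ⟨mem_univ _, ?_⟩
      intro x hx
      cases hψ : ψ x with
      | none =>
        cases hsb : s with
        | false => simp
        | true => exact absurd hψ (hne x hx hsb)
      | some x' =>
        have h6 := (h3 e2' h5).2 x' ⟨x, hx, hψ⟩
        rw [← h6]
        constructor
        · rintro ⟨e3, x3, h7, h8, h9⟩
          rw [h4] at h7; cases h7; cases h8; exact h9
        · intro hh; exact ⟨e2', x', h4, rfl, hh⟩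
  cases hsb : s with
  | false =>
    subst hsb
    cases hφ : φ e with
    | none =>
      refine ⟨fun _ => none, none, by simp, by simpa using hφ, ?_⟩
      intro e' he'
      have he'' : φ e' = none := by simpa using he'
      refine ⟨mem_univ _, ?_⟩
      intro x _
      simp [he'']
    | some e' => exact main e' hφ (by simp)
  | true =>
    subst hsb
    by_cases hX : X.Nonempty
    · obtain ⟨x0, hx0⟩ := hX
      have h0 := (hs x0 hx0).mpr rfl
      obtain ⟨e', x', h1, _, _⟩ := h0
      refine main e' h1 ?_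
      intro x hx _ hn
      obtain ⟨_, x2, _, h2, _⟩ := (hs x hx).mpr rfl
      rw [hn] at h2; cases h2
    · rw [not_nonempty_iff_eq_empty] at hX
      subst hX
      exact ⟨fun _ => none, none, by simp, by simp, by simp⟩

/-- Thresholds. -/
theorem Cert.threshold (s : Bool) : Cert s 1 (fun (ρ o : ℕ) => o ≤ ρ) univ univ := by
  refine ⟨Unit, Unit, inferInstance, inferInstance, by simp, by simp,
    fun a _ => match a () with
      | none => univ
      | some o => if s = true then {ρ | o ≤ ρ} else {ρ | ρ < o}, ?_⟩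
  intro X _ ρ _ hs
  by_cases hX : X.Nonempty
  · cases s
    · simp only [Bool.false_eq_true, iff_false, not_le] at hs ⊢
      obtain ⟨m, hm, hmin⟩ : ∃ m ∈ X, ∀ x ∈ X, m ≤ x :=
        ⟨sInf X, Nat.sInf_mem hX, fun x hx => Nat.sInf_le hx⟩
      refine ⟨fun _ => some m, (), ?_, ?_, ?_⟩
      · intro i x hx; cases hx; exact hm
      · simpa using hs m hm
      · intro e' he'
        have : e' < m := by simpa using he'
        exact ⟨mem_univ _, fun x hx => lt_of_lt_of_le this (hmin x hx)⟩
    · simp only [iff_true] at hs ⊢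
      have hbd : BddAbove X := ⟨ρ, fun x hx => hs x hx⟩
      obtain ⟨m, hm, hmax⟩ : ∃ m ∈ X, ∀ x ∈ X, x ≤ m :=
        ⟨sSup X, Nat.sSup_mem hX hbd, fun x hx => le_csSup hbd hx⟩
      refine ⟨fun _ => some m, (), ?_, ?_, ?_⟩
      · intro i x hx; cases hx; exact hm
      · simpa using hs m hm
      · intro e' he'
        have : m ≤ e' := by simpa using he'
        exact ⟨mem_univ _, fun x hx => (hmax x hx).trans this⟩
  · rw [not_nonempty_iff_eq_empty] at hX
    subst hX
    exact ⟨fun _ => none, (), by simp, by simp, by simp⟩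

/-- Case distinction with decodable regions. -/
theorem Cert.of_cases {m : ℕ} (δ : (Fin m → Option P) → Fin m → Set C × Set P)
    (h : ∀ X ⊆ P₀, ∀ e ∈ C₀, (∀ x ∈ X, (inc e x ↔ s = true)) →
      ∃ (a : Fin m → Option P) (t : Fin m), (∀ i x, a i = some x → x ∈ X) ∧
        e ∈ (δ a t).1 ∧ X ⊆ (δ a t).2 ∧ (δ a t).1 ⊆ C₀ ∧ Cert s N inc (δ a t).1 (δ a t).2) :
    Cert s (m + N + m * N) inc C₀ P₀ := by
  refine ⟨Fin m ⊕ Fin N, Fin m × Fin N, inferInstance, inferInstance, by simp, by simp,
    fun a t => if hc : Cert s N inc (δ (fun i => a (Sum.inl i)) t.1).1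
      (δ (fun i => a (Sum.inl i)) t.1).2 then hc.normal.choose (fun i => a (Sum.inr i)) t.2
      else ∅, ?_⟩
  intro X hX e he hs
  obtain ⟨a, t, h1, h2, h3, h4, hc⟩ := h X hX e he hs
  obtain ⟨b, u, h5, h6, h7⟩ := hc.normal.choose_spec X h3 e h2 hs
  refine ⟨Sum.elim a b, (t, u), ?_, ?_⟩
  · rintro (i | i) x hx
    · exact h1 i x hx
    · exact h5 i x hx
  · have e1 : (fun i => (Sum.elim a b : Fin m ⊕ Fin N → Option P) (Sum.inl i)) = a := rfl
    have e2 : (fun i => (Sum.elim a b : Fin m ⊕ Fin N → Option P) (Sum.inr i)) = b := rfl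
    simp only [e1, e2, dif_pos hc]
    exact ⟨h6, fun e' he' => ⟨h4 (h7 e' he').1, (h7 e' he').2⟩⟩

end Pool.Agent.BTD
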