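import Mathlib

set_option autoImplicit false

open Classical

namespace Pool.Agent.BTD

/-- A rooted tree given by its parent map. -/
structure RTree (ι : Type*) where
  root : ι
  par : ι → ι
  par_root : par root = root
  reach : ∀ i, ∃ n : ℕ, par^[n] i = root

namespace RTree

variable {ι : Type*} (R : RTree ι)

/-- The subtree below `a`. -/
def sub (a : ι) : Set ι := {i | ∃ n : ℕ, R.par^[n] i = a}

lemma mem_sub_self (a : ι) : a ∈ R.sub a := ⟨0, rfl⟩

lemma mem_sub_root (i : ι) : i ∈ R.sub R.root := R.reach i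

lemma mem_sub_of_par {a i : ι} (h : R.par i ∈ R.sub a) : i ∈ R.sub a := by
  obtain ⟨n, hn⟩ := h
  exact ⟨n + 1, by rw [Function.iterate_succ_apply]; exact hn⟩

lemma sub_trans {a b i : ι} (h : b ∈ R.sub a) (hi : i ∈ R.sub b) : i ∈ R.sub a := by
  obtain ⟨n, hn⟩ := h
  obtain ⟨m, hm⟩ := hi
  exact ⟨n + m, by rw [Function.iterate_add_apply, hm, hn]⟩

lemma iterate_root (n : ℕ) : R.par^[n] R.root = R.root := by
  induction n with
  | zero => rfl
  | succ n ih => rw [Function.iterate_succ_apply, R.par_root, ih]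

lemma par_mem_sub {a i : ι} (h : i ∈ R.sub a) (hne : i ≠ a) : R.par i ∈ R.sub a ∧ i ≠ R.root := by
  obtain ⟨n, hn⟩ := h
  cases n with
  | zero => exact absurd hn hne
  | succ n =>
    refine ⟨⟨n, by rw [Function.iterate_succ_apply] at hn; exact hn⟩, ?_⟩
    rintro rfl
    rw [R.iterate_root] at hn
    exact hne hn

lemma comparable {a b i : ι} (ha : i ∈ R.sub a) (hb : i ∈ R.sub b) : a ∈ R.sub b ∨ b ∈ R.sub a := by
  obtain ⟨n, hn⟩ := ha
  obtain ⟨m, hm⟩ := hb
  rcases le_total n m with h | h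
  · left
    obtain ⟨k, rfl⟩ := Nat.exists_eq_add_of_le' h
    exact ⟨k, by rw [Function.iterate_add_apply, hn] at hm; exact hm⟩
  · right
    obtain ⟨k, rfl⟩ := Nat.exists_eq_add_of_le' h
    exact ⟨k, by rw [Function.iterate_add_apply, hm] at hn; exact hn⟩

/-- The depth of a node. -/
noncomputable def depth (i : ι) : ℕ := Nat.find (R.reach i)

lemma depth_spec (i : ι) : R.par^[R.depth i] i = R.root := Nat.find_spec (R.reach i)

lemma depth_le {i : ι} {n : ℕ} (h : R.par^[n] i = R.root) : R.depth i ≤ n := Nat.find_min' _ h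

lemma depth_par {i : ι} (h : i ≠ R.root) : R.depth (R.par i) < R.depth i := by
  have h1 := R.depth_spec i
  cases hd : R.depth i with
  | zero => rw [hd] at h1; exact absurd h1 h
  | succ n =>
    rw [hd, Function.iterate_succ_apply] at h1
    exact Nat.lt_succ_of_le (R.depth_le h1)

lemma depth_le_of_mem {a i : ι} (h : i ∈ R.sub a) : R.depth a ≤ R.depth i := by
  obtain ⟨n, hn⟩ := h
  induction n generalizing i with
  | zero => rw [← hn]; rfl
  | succ n ih =>
    rw [Function.iterate_succ_apply] at hn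
    have h1 := ih hn
    by_cases hr : i = R.root
    · rw [hr, R.par_root] at h1
      rw [hr]; exact h1
    · exact h1.trans (R.depth_par hr).le

lemma depth_lt_of_mem {a i : ι} (h : i ∈ R.sub a) (hne : i ≠ a) : R.depth a < R.depth i := by
  obtain ⟨h1, h2⟩ := R.par_mem_sub h hne
  exact lt_of_le_of_lt (R.depth_le_of_mem h1) (R.depth_par h2)

lemma antisymm {a b : ι} (h1 : a ∈ R.sub b) (h2 : b ∈ R.sub a) : a = b := by
  by_contra hne
  have h3 := R.depth_lt_of_mem h1 hne
  have h4 := R.depth_le_of_mem h2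
  omega

lemma par_not_mem {b : ι} (h : b ≠ R.root) : R.par b ∉ R.sub b := by
  intro h1
  have h2 := R.depth_le_of_mem h1
  have h3 := R.depth_par h
  omega

/-- Induction upwards. -/
lemma up_induction {Q : ι → Prop} (hroot : Q R.root) (hstep : ∀ i, i ≠ R.root → Q (R.par i) → Q i)
    (i : ι) : Q i := by
  obtain ⟨n, hn⟩ := R.reach i
  induction n generalizing i with
  | zero => rw [show i = R.root from hn]; exact hroot
  | succ n ih =>
    by_cases h : i = R.root
    · rw [h]; exact hroot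
    · exact hstep i h (ih _ (by rw [Function.iterate_succ_apply] at hn; exact hn))

/-- `b` is a child of `a`. -/
def IsChild (b a : ι) : Prop := b ≠ R.root ∧ R.par b = a

lemma IsChild.mem_sub {R : RTree ι} {b a : ι} (h : R.IsChild b a) : b ∈ R.sub a :=
  R.mem_sub_of_par (by rw [h.2]; exact R.mem_sub_self a)

lemma IsChild.not_mem {R : RTree ι} {b a : ι} (h : R.IsChild b a) : a ∉ R.sub b := by
  rw [← h.2]; exact R.par_not_mem h.1

lemma exists_toward {a i : ι} (h : i ∈ R.sub a) (hne : i ≠ a) :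
    ∃ b, R.IsChild b a ∧ i ∈ R.sub b := by
  obtain ⟨n, hn⟩ := h
  induction n generalizing i with
  | zero => exact absurd hn hne
  | succ n ih =>
    rw [Function.iterate_succ_apply] at hn
    by_cases hp : R.par i = a
    · refine ⟨i, ⟨?_, hp⟩, R.mem_sub_self i⟩
      rintro rfl
      rw [R.par_root] at hp
      exact hne hp
    · obtain ⟨b, hb, hib⟩ := ih hp hn
      exact ⟨b, hb, R.mem_sub_of_par hib⟩

lemma toward_unique {a b b' i : ι} (h : R.IsChild b a) (h' : R.IsChild b' a) (hi : i ∈ R.sub b)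
    (hi' : i ∈ R.sub b') : b = b' := by
  by_contra hne
  rcases R.comparable hi hi' with h1 | h1
  · have h2 := (R.par_mem_sub h1 hne).1
    rw [h.2] at h2
    exact h'.not_mem h2
  · have h2 := (R.par_mem_sub h1 (Ne.symm hne)).1
    rw [h'.2] at h2
    exact h.not_mem h2

/-- The child of `a` towards `i`. -/
noncomputable def toward (a i : ι) : ι :=
  if h : ∃ b, R.IsChild b a ∧ i ∈ R.sub b then h.choose else a

lemma toward_spec {a i : ι} (h : i ∈ R.sub a) (hne : i ≠ a) :
    R.IsChild (R.toward a i) a ∧ i ∈ R.sub (R.toward a i) := by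
  have h1 := R.exists_toward h hne
  unfold toward
  rw [dif_pos h1]
  exact h1.choose_spec

lemma toward_eq {a b i : ι} (h : R.IsChild b a) (hi : i ∈ R.sub b) : R.toward a i = b := by
  have h1 : i ∈ R.sub a := R.sub_trans h.mem_sub hi
  have hne : i ≠ a := by
    rintro rfl
    exact h.not_mem hi
  obtain ⟨h2, h3⟩ := R.toward_spec h1 hne
  exact R.toward_unique h2 h h3 hi

/-- The lowest ancestor with a property of the root. -/
lemma exists_lowest (Q : ι → Prop) (hQ : Q R.root) (i : ι) :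
    ∃ a, i ∈ R.sub a ∧ Q a ∧ ∀ b, i ∈ R.sub b → b ∈ R.sub a → b ≠ a → ¬ Q b := by
  obtain ⟨n, hn⟩ := R.reach i
  have hex : ∃ n, Q (R.par^[n] i) := ⟨n, by rw [hn]; exact hQ⟩
  refine ⟨R.par^[Nat.find hex] i, ⟨_, rfl⟩, Nat.find_spec hex, ?_⟩
  rintro b ⟨m, hm⟩ hb hne hQb
  have h1 : Nat.find hex ≤ m := Nat.find_min' hex (by rw [hm]; exact hQb)
  have h2 : R.par^[Nat.find hex] i ∈ R.sub b → False := fun h3 => hne (R.antisymm hb h3)
  apply hne
  obtain ⟨k, hk⟩ := Nat.exists_eq_add_of_le' h1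
  have h3 : b ∈ R.sub (R.par^[Nat.find hex] i) := hb
  have h4 : R.par^[Nat.find hex] i ∈ R.sub b := by
    refine ⟨k, ?_⟩
    rw [← Function.iterate_add_apply, ← hk, hm]
  exact absurd (R.antisymm hb h4) hne

lemma exists_lca (i j : ι) : ∃ m, i ∈ R.sub m ∧ j ∈ R.sub m ∧
    ∀ m', i ∈ R.sub m' → j ∈ R.sub m' → m ∈ R.sub m' := by
  obtain ⟨a, h1, h2, h3⟩ := R.exists_lowest (fun a => j ∈ R.sub a) (R.mem_sub_root j) i
  refine ⟨a, h1, h2, ?_⟩
  intro m' hi hj
  rcases R.comparable h1 hi with h4 | h4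
  · exact h4
  · by_cases hne : m' = a
    · rw [hne]; exact R.mem_sub_self a
    · exact absurd hj (h3 m' hi h4 hne)

/-- The lowest common ancestor. -/
noncomputable def lca (i j : ι) : ι := (R.exists_lca i j).choose

lemma left_mem_lca (i j : ι) : i ∈ R.sub (R.lca i j) := (R.exists_lca i j).choose_spec.1

lemma right_mem_lca (i j : ι) : j ∈ R.sub (R.lca i j) := (R.exists_lca i j).choose_spec.2.1

lemma lca_mem {i j m : ι} (hi : i ∈ R.sub m) (hj : j ∈ R.sub m) : R.lca i j ∈ R.sub m :=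
  (R.exists_lca i j).choose_spec.2.2 m hi hj

/-- The lowest common ancestor of a nonempty set is the lowest common ancestor of two of its
elements. -/
lemma exists_lca_set (Y : Set ι) (hY : Y.Nonempty) :
    ∃ y ∈ Y, ∃ y' ∈ Y, ∀ z ∈ Y, z ∈ R.sub (R.lca y y') := by
  obtain ⟨y, hy⟩ := hY
  have hne : {d | ∃ z ∈ Y, R.depth (R.lca y z) = d}.Nonempty := ⟨_, y, hy, rfl⟩
  obtain ⟨y', hy', hd⟩ := Nat.sInf_mem hne
  refine ⟨y, hy, y', hy', ?_⟩
  intro z hz
  have h1 : R.depth (R.lca y y') ≤ R.depth (R.lca y z) := by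
    rw [hd]; exact Nat.sInf_le ⟨z, hz, rfl⟩
  rcases R.comparable (R.left_mem_lca y y') (R.left_mem_lca y z) with h2 | h2
  · by_cases he : R.lca y y' = R.lca y z
    · rw [he]; exact R.right_mem_lca y z
    · have := R.depth_lt_of_mem h2 he
      omega
  · exact R.sub_trans h2 (R.right_mem_lca y z)

/-- The lowest common ancestor of elements not below one common child. -/
lemma lca_eq_of_children {s i j : ι} (hi : i ∈ R.sub s) (hj : j ∈ R.sub s)
    (h : ∀ b, R.IsChild b s → i ∈ R.sub b → j ∉ R.sub b) : R.lca i j = s := by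
  by_contra hne
  obtain ⟨h1, h2⟩ := R.toward_spec (R.lca_mem hi hj) hne
  exact h _ h1 (R.sub_trans h2 (R.left_mem_lca i j)) (R.sub_trans h2 (R.right_mem_lca i j))

end RTree

end Pool.Agent.BTD
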