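import Pool.Agent.BTD.T2

set_option autoImplicit false

open Classical

namespace Pool.Agent.BTD

universe u

variable {V : Type u} {G : SimpleGraph V}

lemma edist_le_one {a b : V} (h : G.Adj a b) : G.edist a b ≤ 1 :=
  (SimpleGraph.edist_eq_one_iff_adj.mpr h).le

lemma walk_exit {S : Set V} {x : V} (hx : x ∉ S) : ∀ {a : V} (p : G.Walk a x), a ∈ S →
    ∃ u w, G.Adj u w ∧ u ∈ S ∧ w ∉ S ∧ G.edist a w + G.edist w x ≤ (p.length : ℕ∞)
  | _, .nil, ha => absurd ha hx
  | a, .cons (v := b) hab q, ha => by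
    by_cases hb : b ∈ S
    · obtain ⟨u, w, h1, h2, h3, h4⟩ := walk_exit hx q hb
      refine ⟨u, w, h1, h2, h3, ?_⟩
      have h5 : G.edist a w ≤ 1 + G.edist b w :=
        SimpleGraph.edist_triangle.trans (add_le_add (edist_le_one hab) le_rfl)
      calc G.edist a w + G.edist w x ≤ (1 + G.edist b w) + G.edist w x := add_le_add h5 le_rfl
        _ = 1 + (G.edist b w + G.edist w x) := add_assoc _ _ _
        _ ≤ 1 + (q.length : ℕ∞) := add_le_add le_rfl h4
        _ = _ := by rw [SimpleGraph.Walk.length_cons]; push_cast; rw [add_comm]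
    · refine ⟨a, b, hab, ha, hb, ?_⟩
      calc G.edist a b + G.edist b x ≤ 1 + (q.length : ℕ∞) :=
            add_le_add (edist_le_one hab) (SimpleGraph.edist_le q)
        _ = _ := by rw [SimpleGraph.Walk.length_cons]; push_cast; rw [add_comm]

/-- A shortest walk leaves a set through an edge. -/
lemma exists_exitT {S : Set V} {c x : V} (hc : c ∈ S) (hx : x ∉ S) (hd : G.edist c x ≠ ⊤) :
    ∃ u w, G.Adj u w ∧ u ∈ S ∧ w ∉ S ∧ G.edist c w + G.edist w x = G.edist c x := by
  have hr : G.Reachable c x := SimpleGraph.edist_ne_top_iff_reachable.mp hd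
  obtain ⟨p, hp⟩ := hr.exists_walk_length_eq_edist
  obtain ⟨u, w, h1, h2, h3, h4⟩ := walk_exit hx p hc
  exact ⟨u, w, h1, h2, h3, le_antisymm (h4.trans hp.le) SimpleGraph.edist_triangle⟩

/-- First step of a shortest walk. -/
lemma exists_first {w q : V} (hne : w ≠ q) (hd : G.edist w q ≠ ⊤) :
    ∃ u, G.Adj w u ∧ 1 + G.edist u q = G.edist w q := by
  have hr : G.Reachable w q := SimpleGraph.edist_ne_top_iff_reachable.mp hd
  obtain ⟨p, hp⟩ := hr.exists_walk_length_eq_edist
  cases p with
  | nil => exact absurd rfl hne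
  | @cons _ u _ hab r =>
    refine ⟨u, hab, le_antisymm ?_ ?_⟩
    · rw [← hp, SimpleGraph.Walk.length_cons]
      push_cast
      rw [add_comm]
      exact add_le_add (SimpleGraph.edist_le r) le_rfl
    · exact SimpleGraph.edist_triangle.trans (add_le_add (edist_le_one hab) le_rfl)

/-- A tree decomposition over a rooted tree, with the homes (top bags) of the vertices. -/
structure RDec {ι : Type*} (G : SimpleGraph V) (R : RTree ι) where
  bag : ι → Set V
  home : V → ι
  home_mem : ∀ v, v ∈ bag (home v)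
  up : ∀ v i, v ∈ bag i → i ≠ home v → i ≠ R.root ∧ v ∈ bag (R.par i)
  edge : ∀ u v, G.Adj u v → ∃ i, u ∈ bag i ∧ v ∈ bag i

namespace RDec

variable {ι : Type*} {R : RTree ι} (D : RDec G R)

/-- The adhesion set above `a`. -/
def adh (a : ι) : Set V := D.bag a ∩ D.bag (R.par a)

lemma sub_home {v : V} {i : ι} (h : v ∈ D.bag i) : i ∈ R.sub (D.home v) := by
  revert h
  refine R.up_induction (Q := fun i => v ∈ D.bag i → i ∈ R.sub (D.home v)) ?_ ?_ i
  · intro h
    by_cases he : R.root = D.home v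
    · rw [he]; exact R.mem_sub_self _
    · exact absurd rfl (D.up v _ h he).1
  · intro i hi ih h
    by_cases he : i = D.home v
    · rw [he]; exact R.mem_sub_self _
    · exact R.mem_sub_of_par (ih (D.up v _ h he).2)

lemma mem_bag_between {v : V} {i a : ι} (h : v ∈ D.bag i) (hi : i ∈ R.sub a)
    (ha : a ∈ R.sub (D.home v)) : v ∈ D.bag a := by
  obtain ⟨n, hn⟩ := hi
  induction n generalizing i with
  | zero => rw [← (show i = a from hn)]; exact h
  | succ n ih =>
    by_cases he : i = D.home v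
    · have h1 : a = i := by
        apply R.antisymm
        · rw [he]; exact ha
        · exact ⟨n + 1, hn⟩
      rw [h1]; exact h
    · exact ih (D.up v _ h he).2 (by rw [Function.iterate_succ_apply] at hn; exact hn)

lemma mem_adh {v : V} {i a : ι} (h : v ∈ D.bag i) (hi : i ∈ R.sub a)
    (ha : D.home v ∉ R.sub a) : v ∈ D.adh a := by
  have h1 : a ∈ R.sub (D.home v) := by
    rcases R.comparable hi (D.sub_home h) with h2 | h2
    · exact h2
    · exact absurd h2 ha
  have h2 := D.mem_bag_between h hi h1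
  refine ⟨h2, (D.up v a h2 ?_).2⟩
  intro he
  exact ha (by rw [← he]; exact R.mem_sub_self a)

lemma edge_cross {u v : V} {a : ι} (h : G.Adj u v) (hu : D.home u ∈ R.sub a)
    (hv : D.home v ∉ R.sub a) : v ∈ D.adh a := by
  obtain ⟨i, h1, h2⟩ := D.edge u v h
  exact D.mem_adh h2 (R.sub_trans hu (D.sub_home h1)) hv

/-- Separation by adhesion sets. -/
lemma sep {c x : V} {a : ι} (hc : D.home c ∈ R.sub a) (hx : D.home x ∉ R.sub a)
    (hd : G.edist c x ≠ ⊤) : ∃ w ∈ D.adh a, G.edist c w + G.edist w x = G.edist c x := by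
  obtain ⟨u, w, h1, h2, h3, h4⟩ := exists_exitT (S := {v | D.home v ∈ R.sub a}) hc hx hd
  exact ⟨w, D.edge_cross h1 h2 h3, h4⟩

/-- Neighbouring nodes. -/
def Nbr (_ : RDec G R) (s t : ι) : Prop := R.IsChild t s ∨ R.IsChild s t

/-- The gates of a vertex at the node `s`. -/
noncomputable def gate (s : ι) (x : V) : Set V :=
  if x ∈ D.bag s then {x} else
    if D.home x ∈ R.sub s then D.adh (R.toward s (D.home x)) else D.adh s

lemma home_ne {s : ι} {x : V} (h : x ∉ D.bag s) : D.home x ≠ s := by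
  rintro rfl
  exact h (D.home_mem x)

lemma gate_sub (s : ι) (x : V) : D.gate s x ⊆ D.bag s := by
  unfold gate
  split_ifs with h1 h2
  · simpa using h1
  · have h3 := (R.toward_spec h2 (D.home_ne h1)).1
    intro w hw
    have := hw.2
    rw [h3.2] at this
    exact this
  · exact fun w hw => hw.1

/-- A vertex of the bag has its home not strictly below the node. -/
lemma home_not_below {s b : ι} {w : V} (hw : w ∈ D.bag s) (hb : R.IsChild b s) :
    D.home w ∉ R.sub b := by
  intro h
  exact hb.not_mem (R.sub_trans h (D.sub_home hw))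

lemma exists_gate {s : ι} {w x : V} (hw : w ∈ D.bag s) (hd : G.edist w x ≠ ⊤) :
    ∃ q ∈ D.gate s x, G.edist w q + G.edist q x = G.edist w x := by
  unfold gate
  split_ifs with h1 h2
  · exact ⟨x, rfl, by simp⟩
  · obtain ⟨h3, h4⟩ := R.toward_spec h2 (D.home_ne h1)
    obtain ⟨q, hq, h5⟩ := D.sep (c := x) (x := w) h4 (D.home_not_below hw h3)
      (by rwa [SimpleGraph.edist_comm])
    refine ⟨q, hq, ?_⟩
    rw [SimpleGraph.edist_comm (u := w) (v := q), SimpleGraph.edist_comm (u := q) (v := x),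
      SimpleGraph.edist_comm (u := w) (v := x), add_comm]
    exact h5
  · by_cases h3 : D.home w ∈ R.sub s
    · exact D.sep h3 h2 hd
    · exact ⟨w, D.mem_adh hw (R.mem_sub_self s) h3, by simp⟩

/-- One step in the torso. -/
lemma exists_step {s : ι} {w q : V} (hw : w ∈ D.bag s) (hq : q ∈ D.bag s) (hne : w ≠ q)
    (hd : G.edist w q ≠ ⊤) : ∃ w1 ∈ D.bag s, w1 ≠ w ∧
      (G.Adj w w1 ∨ ∃ t, D.Nbr s t ∧ w ∈ D.bag t ∧ w1 ∈ D.bag t) ∧
      G.edist w w1 + G.edist w1 q = G.edist w q := by
  obtain ⟨u, hu1, hu2⟩ := exists_first hne hd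
  by_cases hus : u ∈ D.bag s
  · refine ⟨u, hus, hu1.ne', Or.inl hu1, ?_⟩
    rw [SimpleGraph.edist_eq_one_iff_adj.mpr hu1]
    exact hu2
  have hduq : G.edist u q ≠ ⊤ := by
    intro h
    rw [h] at hu2
    exact hd (by rw [← hu2]; simp)
  have hlt : G.edist u q < G.edist w q := by
    rw [← hu2, add_comm]
    exact ENat.lt_add_one_iff hduq |>.mpr le_rfl
  have fin : ∀ w1, G.edist u w1 + G.edist w1 q = G.edist u q → w1 ≠ w ∧
      G.edist w w1 + G.edist w1 q = G.edist w q := by
    intro w1 h1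
    constructor
    · rintro rfl
      have : G.edist w1 q ≤ G.edist u q := by rw [← h1]; exact le_add_self
      exact absurd hlt (not_lt.mpr this)
    · apply le_antisymm _ SimpleGraph.edist_triangle
      calc G.edist w w1 + G.edist w1 q ≤ (G.edist w u + G.edist u w1) + G.edist w1 q :=
            add_le_add SimpleGraph.edist_triangle le_rfl
        _ = G.edist w u + (G.edist u w1 + G.edist w1 q) := add_assoc _ _ _
        _ = G.edist w u + G.edist u q := by rw [h1]
        _ = G.edist w q := by rw [SimpleGraph.edist_eq_one_iff_adj.mpr hu1, hu2]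
  by_cases h2 : D.home u ∈ R.sub s
  · obtain ⟨h3, h4⟩ := R.toward_spec h2 (D.home_ne hus)
    set b := R.toward s (D.home u) with hb
    obtain ⟨w1, hw1, h5⟩ := D.sep (c := u) (x := q) h4 (D.home_not_below hq h3) hduq
    obtain ⟨h6, h7⟩ := fin w1 h5
    have h8 := D.edge_cross hu1.symm h4 (D.home_not_below hw h3)
    refine ⟨w1, ?_, h6, Or.inr ⟨b, Or.inl h3, h8.1, hw1.1⟩, h7⟩
    have := hw1.2
    rw [h3.2] at this
    exact this
  · have hwn : D.home w ∉ R.sub s := by
      intro h
      exact hus (D.edge_cross hu1 h h2).1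
    have hwa := D.mem_adh hw (R.mem_sub_self s) hwn
    have hsr : s ≠ R.root := by
      rintro rfl
      exact h2 (R.mem_sub_root _)
    by_cases h3 : D.home q ∈ R.sub s
    · obtain ⟨w1, hw1, h5⟩ := D.sep (c := q) (x := u) h3 h2 (by rwa [SimpleGraph.edist_comm])
      have h5' : G.edist u w1 + G.edist w1 q = G.edist u q := by
        rw [SimpleGraph.edist_comm (u := u) (v := w1), SimpleGraph.edist_comm (u := w1) (v := q),
          SimpleGraph.edist_comm (u := u) (v := q), add_comm]
        exact h5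
      obtain ⟨h6, h7⟩ := fin w1 h5'
      exact ⟨w1, hw1.1, h6, Or.inr ⟨R.par s, Or.inr ⟨hsr, rfl⟩, hwa.2, hw1.2⟩, h7⟩
    · have hqa := D.mem_adh hq (R.mem_sub_self s) h3
      exact ⟨q, hq, hne.symm, Or.inr ⟨R.par s, Or.inr ⟨hsr, rfl⟩, hwa.2, hqa.2⟩, by simp⟩

end RDec

end Pool.Agent.BTD
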