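import Pool.Agent.BTD.Base
import Pool.Agent.BTD.T3

set_option autoImplicit false

open Classical

namespace Pool.Agent.BTD

universe u

variable {V : Type u} {G : SimpleGraph V}

/-- Weighted length of a walk. -/
noncomputable def wlen {H : SimpleGraph V} (len : V → V → ℕ∞) :
    ∀ {a b : V}, H.Walk a b → ℕ∞
  | _, _, .nil => 0
  | a, _, .cons (v := b) _ p => len a b + wlen len p

lemma exists_wlen {H : SimpleGraph V} (len : V → V → ℕ∞) {v x : V}
    (h : (⨅ p : H.Walk v x, wlen len p) ≠ ⊤) :
    ∃ p : H.Walk v x, wlen len p = ⨅ p : H.Walk v x, wlen len p := by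
  have hne : Nonempty (H.Walk v x) := by
    by_contra hcon
    rw [not_nonempty_iff] at hcon
    exact h (iInf_of_empty _)
  exact ciInf_mem (fun p : H.Walk v x => wlen len p)

lemma iInf_wlen_le {H : SimpleGraph V} (len : V → V → ℕ∞) {v w x : V} (h : H.Adj v w) :
    (⨅ p : H.Walk v x, wlen len p) ≤ len v w + ⨅ p : H.Walk w x, wlen len p := by
  by_cases ht : (⨅ p : H.Walk w x, wlen len p) = ⊤
  · rw [ht]; simp
  · obtain ⟨p, hp⟩ := exists_wlen len ht
    rw [← hp]
    exact iInf_le (fun p : H.Walk v x => wlen len p) (.cons h p)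

/-- The weighted path metric of a graph. -/
noncomputable def pathMet (H : SimpleGraph V) (len : V → V → ℕ)
    (hpos : ∀ v w, H.Adj v w → 0 < len v w) : LMet H where
  len := len
  D v x := ⨅ p : H.Walk v x, wlen (fun a b => (len a b : ℕ∞)) p
  len_pos := hpos
  D_self x := le_antisymm
    (iInf_le (fun p : H.Walk x x => wlen (fun a b => (len a b : ℕ∞)) p) .nil) bot_le
  D_le v w x h := iInf_wlen_le (fun a b => (len a b : ℕ∞)) h
  D_par v x hne hfin := by
    obtain ⟨p, hp⟩ := exists_wlen (fun a b => (len a b : ℕ∞)) hfin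
    cases p with
    | nil => exact absurd rfl hne
    | @cons _ w _ h q =>
      refine ⟨w, h, le_antisymm (iInf_wlen_le (fun a b => (len a b : ℕ∞)) h) ?_⟩
      rw [← hp]
      exact add_le_add le_rfl
        (iInf_le (fun p : H.Walk w x => wlen (fun a b => (len a b : ℕ∞)) p) q)

lemma exists_bigL [Finite V] (G : SimpleGraph V) :
    ∃ L : ℕ, 0 < L ∧ ∀ u v, G.edist u v ≠ ⊤ → G.edist u v < L := by
  obtain ⟨B, hB⟩ : ∃ B : ℕ, ∀ p : V × V, (G.edist p.1 p.2).toNat ≤ B := by
    have hf : (Set.range (fun p : V × V => (G.edist p.1 p.2).toNat)).Finite :=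
      Set.finite_range _
    obtain ⟨B, hB⟩ := hf.bddAbove
    exact ⟨B, fun p => hB ⟨p, rfl⟩⟩
  refine ⟨B + 1, by omega, ?_⟩
  intro u v h
  rw [← ENat.natCast_toNat h]
  have := hB (u, v)
  exact_mod_cast Nat.lt_succ_of_le this

/-- A number larger than all finite distances. -/
noncomputable def bigL (G : SimpleGraph V) : ℕ :=
  if h : ∃ L : ℕ, 0 < L ∧ ∀ u v, G.edist u v ≠ ⊤ → G.edist u v < L then h.choose else 1

lemma bigL_pos (G : SimpleGraph V) : 0 < bigL G := by
  unfold bigL
  split_ifs with h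
  · exact h.choose_spec.1
  · exact Nat.one_pos

lemma lt_bigL [Finite V] {u v : V} (h : G.edist u v ≠ ⊤) : G.edist u v < bigL G := by
  have hex := exists_bigL G
  unfold bigL
  rw [dif_pos hex]
  exact hex.choose_spec.2 u v h

/-- Truncated distances. -/
noncomputable def tlen (G : SimpleGraph V) (u v : V) : ℕ := (min (G.edist u v) (bigL G)).toNat

lemma coe_tlen (u v : V) : (tlen G u v : ℕ∞) = min (G.edist u v) (bigL G) := by
  unfold tlen
  rw [ENat.natCast_toNat]
  exact ne_top_of_le_ne_top (ENat.natCast_ne_top _) (min_le_right _ _)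

lemma tlen_triangle (a b c : V) : (tlen G a b : ℕ∞) ≤ tlen G a c + tlen G c b := by
  rw [coe_tlen, coe_tlen, coe_tlen]
  rcases le_total (G.edist a c) (bigL G) with h1 | h1
  · rcases le_total (G.edist c b) (bigL G) with h2 | h2
    · rw [min_eq_left h1, min_eq_left h2]
      exact (min_le_left _ _).trans SimpleGraph.edist_triangle
    · rw [min_eq_right h2]
      exact (min_le_right _ _).trans le_add_self
  · rw [min_eq_right h1]
    exact (min_le_right _ _).trans le_self_add

lemma tlen_of_ne_top [Finite V] {a b : V} (h : G.edist a b ≠ ⊤) :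
    (tlen G a b : ℕ∞) = G.edist a b := by
  rw [coe_tlen, min_eq_left (lt_bigL h).le]

lemma tlen_le_wlen {H : SimpleGraph V} : ∀ {a b : V} (p : H.Walk a b),
    (tlen G a b : ℕ∞) ≤ wlen (fun a b => (tlen G a b : ℕ∞)) p
  | a, _, .nil => by
    rw [coe_tlen, SimpleGraph.edist_self]
    simp [wlen]
  | a, b, .cons (v := c) _ p => by
    calc (tlen G a b : ℕ∞) ≤ tlen G a c + tlen G c b := tlen_triangle a b c
      _ ≤ tlen G a c + wlen (fun a b => (tlen G a b : ℕ∞)) p :=
          add_le_add le_rfl (tlen_le_wlen p)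

/-- The metric of a graph with lengths given by the (truncated) distances of `G`. -/
noncomputable def distMet (G H : SimpleGraph V) : LMet H :=
  pathMet H (tlen G) (fun v w h => by
    have h1 : (0 : ℕ∞) < (tlen G v w : ℕ∞) := by
      rw [coe_tlen, pos_iff_ne_zero]
      intro h0
      rcases min_choice (G.edist v w) (bigL G : ℕ∞) with h2 | h2
      · rw [h2] at h0
        exact h.ne (SimpleGraph.edist_eq_zero_iff.mp h0)
      · rw [h2] at h0
        have := bigL_pos G
        have h3 : bigL G = 0 := by exact_mod_cast h0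
        omega
    exact_mod_cast h1)

lemma edist_le_distMet {H : SimpleGraph V} {a b : V} {ρ : ℕ} (hρ : ρ < bigL G)
    (h : (distMet G H).D a b ≤ ρ) : G.edist a b ≤ (distMet G H).D a b := by
  have h1 : (tlen G a b : ℕ∞) ≤ (distMet G H).D a b := le_iInf fun p => tlen_le_wlen p
  rw [coe_tlen] at h1
  rcases le_total (G.edist a b) (bigL G) with h2 | h2
  · rwa [min_eq_left h2] at h1
  · rw [min_eq_right h2] at h1
    have h3 : (bigL G : ℕ∞) ≤ ρ := h1.trans h
    have h4 : bigL G ≤ ρ := by exact_mod_cast h3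
    omega

variable {ι : Type*} {R : RTree ι} (D : RDec G R)

/-- `H` is the torso at `s` minus the set `A`, as a graph on all vertices. -/
def IsTorso (H : SimpleGraph V) (s : ι) (A : Set V) : Prop :=
  ∀ u v, H.Adj u v ↔ u ≠ v ∧ (u ∈ D.bag s ∧ v ∈ D.bag s) ∧ (u ∉ A ∧ v ∉ A) ∧
    (G.Adj u v ∨ ∃ t, D.Nbr s t ∧ u ∈ D.bag t ∧ v ∈ D.bag t)

/-- Distances inside the torso: through `H` or through a vertex of `A`. -/
lemma torso_dist [Finite V] {H : SimpleGraph V} {s : ι} {A : Set V} (hH : IsTorso D H s A) (n : ℕ) :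
    ∀ w q : V, w ∈ D.bag s → q ∈ D.bag s → w ∉ A → q ∉ A → G.edist w q = n →
      (distMet G H).D w q ≤ G.edist w q ∨
        ∃ a ∈ A, G.edist w a + G.edist a q = G.edist w q := by
  induction n using Nat.strong_induction_on with
  | _ n ih =>
    intro w q hw hq hwA hqA hn
    by_cases hne : w = q
    · subst hne
      left
      rw [(distMet G H).D_self]
      exact bot_le
    have hfin : G.edist w q ≠ ⊤ := by rw [hn]; exact ENat.natCast_ne_top n
    obtain ⟨w1, h1, h2, h3, h4⟩ := D.exists_step hw hq hne hfin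
    by_cases hA : w1 ∈ A
    · exact Or.inr ⟨w1, hA, h4⟩
    have hadj : H.Adj w w1 := (hH w w1).mpr ⟨h2.symm, ⟨hw, h1⟩, ⟨hwA, hA⟩, h3⟩
    have hf1 : G.edist w1 q ≠ ⊤ := by
      intro h
      rw [h] at h4
      exact hfin (by rw [← h4]; simp)
    have hf0 : G.edist w w1 ≠ ⊤ := by
      intro h
      rw [h] at h4
      exact hfin (by rw [← h4]; simp)
    obtain ⟨m, hm⟩ := ENat.ne_top_iff_exists.mp hf1
    obtain ⟨l, hl⟩ := ENat.ne_top_iff_exists.mp hf0
    have hl0 : l ≠ 0 := by
      rintro rfl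
      exact h2 (SimpleGraph.edist_eq_zero_iff.mp (by rw [← hl]; rfl)).symm
    have hsum : l + m = n := by
      have : ((l + m : ℕ) : ℕ∞) = n := by
        push_cast
        rw [hm, hl, h4, hn]
      exact_mod_cast this
    rcases ih m (by omega) w1 q h1 hq hA hqA hm.symm with h5 | ⟨a, ha, h5⟩
    · left
      calc (distMet G H).D w q ≤ (tlen G w w1 : ℕ∞) + (distMet G H).D w1 q :=
            (distMet G H).D_le w w1 q hadj
        _ = G.edist w w1 + (distMet G H).D w1 q := by rw [tlen_of_ne_top hf0]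
        _ ≤ G.edist w w1 + G.edist w1 q := add_le_add le_rfl h5
        _ = G.edist w q := h4
    · right
      refine ⟨a, ha, le_antisymm ?_ SimpleGraph.edist_triangle⟩
      calc G.edist w a + G.edist a q ≤ (G.edist w w1 + G.edist w1 a) + G.edist a q :=
            add_le_add SimpleGraph.edist_triangle le_rfl
        _ = G.edist w w1 + (G.edist w1 a + G.edist a q) := add_assoc _ _ _
        _ = G.edist w q := by rw [h5, h4]

end Pool.Agent.BTD
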