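import Pool.Agent.BTD.T1
import Pool.Agent.BTD.T4

set_option autoImplicit false

open Classical

namespace Pool.Agent.BTD

open Set

universe u

variable {V : Type u} {G : SimpleGraph V}

/-- The ball `(c, r)` covers the vertex `x`. -/
def binc (G : SimpleGraph V) (e : V × ℕ) (x : V) : Prop := G.edist e.1 x ≤ e.2

lemma enat_split (a b : ℕ∞) (r : ℕ) :
    a + b ≤ (r : ℕ∞) ↔ a ≤ r ∧ b ≠ ⊤ ∧ b ≤ ((r - a.toNat : ℕ) : ℕ∞) := by
  induction a using ENat.recTopCoe with
  | top => simp
  | coe a =>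
    induction b using ENat.recTopCoe with
    | top => simp
    | coe b =>
      simp only [ENat.toNat_natCast]
      norm_cast
      constructor
      · intro h
        exact ⟨by omega, by simp, by omega⟩
      · rintro ⟨h1, _, h2⟩
        omega

/-- The constant false relation. -/
theorem Cert.false_rel {C P : Type*} (s : Bool) :
    Cert s 1 (fun (_ : C) (_ : P) => False) univ univ := by
  refine ⟨Unit, Unit, inferInstance, inferInstance, by simp, by simp, fun _ _ => univ, ?_⟩
  intro X _ e _ hs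
  refine ⟨fun _ => none, (), by simp, mem_univ _, ?_⟩
  intro e' _
  exact ⟨mem_univ _, fun x hx => hs x hx⟩

/-- Distances through a vertex. -/
theorem cert_via (G : SimpleGraph V) (s : Bool) (w : V) :
    Cert s 2 (fun (e : V × ℕ) x => G.edist e.1 w + G.edist w x ≤ e.2) univ univ := by
  have h := (Cert.threshold s).pullback
    (fun e : V × ℕ => if G.edist e.1 w ≤ e.2 then some (e.2 - (G.edist e.1 w).toNat) else none)
    (fun x : V => if G.edist w x = ⊤ then none else some (G.edist w x).toNat)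
  refine h.congr ?_
  rintro ⟨c, r⟩ _ x _
  rw [enat_split]
  constructor
  · rintro ⟨e', x', h1, h2, h3⟩
    simp only at h1 h2
    split_ifs at h1 with h4
    split_ifs at h2 with h5
    cases h1; cases h2
    refine ⟨h4, h5, ?_⟩
    rw [← ENat.natCast_toNat h5]
    exact_mod_cast h3
  · rintro ⟨h4, h5, h6⟩
    refine ⟨_, _, if_pos h4, if_neg h5, ?_⟩
    rw [← ENat.natCast_toNat h5] at h6
    exact_mod_cast h6

/-- Enumeration of a small set. -/
lemma exists_enumT [Finite V] {W : Set V} {K : ℕ} (h : W.ncard ≤ K) :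
    ∃ f : Fin K → Option V, ∀ w, w ∈ W ↔ ∃ j, f j = some w := by
  have hf : W.Finite := W.toFinite
  have h1 : hf.toFinset.card ≤ K := by rwa [← Set.ncard_eq_toFinset_card W hf]
  set l := hf.toFinset.toList with hl
  have hlen : l.length ≤ K := by rw [hl, Finset.length_toList]; exact h1
  refine ⟨fun j => l[(j : ℕ)]?, ?_⟩
  intro w
  have h2 : w ∈ W ↔ w ∈ l := by rw [hl, Finset.mem_toList, Set.Finite.mem_toFinset]
  rw [h2, List.mem_iff_getElem?]
  constructor
  · rintro ⟨i, hi⟩
    have : i < l.length := by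
      by_contra hcon
      rw [List.getElem?_eq_none (by omega)] at hi
      cases hi
    exact ⟨⟨i, by omega⟩, hi⟩
  · rintro ⟨j, hj⟩
    exact ⟨j, hj⟩

/-- Distances through a vertex given by an option. -/
theorem cert_via_opt (G : SimpleGraph V) (s : Bool) (o : Option V) :
    Cert s 2 (fun (e : V × ℕ) x => ∃ w, o = some w ∧ G.edist e.1 w + G.edist w x ≤ e.2)
      univ univ := by
  cases o with
  | none =>
    refine ((Cert.false_rel s).mono (by norm_num : 1 ≤ 2)).congr ?_
    intro e _ x _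
    simp
  | some w =>
    refine (cert_via G s w).congr ?_
    intro e _ x _
    simp

/-- Separation by a small set. -/
theorem cert_sep [Finite V] (s : Bool) {K : ℕ} {W C P : Set V} (hW : W.ncard ≤ K)
    (hsep : ∀ c ∈ C, ∀ x ∈ P, G.edist c x ≠ ⊤ →
      ∃ w ∈ W, G.edist c w + G.edist w x ≤ G.edist c x) :
    Cert s (K * 2 + 2 ^ K + 1) (binc G) {e | e.1 ∈ C} P := by
  obtain ⟨f, hf⟩ := exists_enumT hW
  have h := Cert.iUnion (J := Fin K) (K := K) (by simp)
    (fun j (e : V × ℕ) x => ∃ w, f j = some w ∧ G.edist e.1 w + G.edist w x ≤ e.2)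
    (fun j => cert_via_opt G s (f j))
  refine (h.sub (subset_univ _) (subset_univ _)).congr ?_
  rintro ⟨c, r⟩ hc x hx
  unfold binc
  constructor
  · rintro ⟨j, w, h1, h2⟩
    exact SimpleGraph.edist_triangle.trans h2
  · intro h1
    have hfin : G.edist c x ≠ ⊤ := ne_top_of_le_ne_top (ENat.natCast_ne_top r) h1
    obtain ⟨w, hw, h2⟩ := hsep c hc x hx hfin
    obtain ⟨j, hj⟩ := (hf w).mp hw
    exact ⟨j, w, hj, h2.trans h1⟩

variable {ι : Type*} {R : RTree ι} (D : RDec G R)

/-- Truncated radii. -/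
noncomputable def trad (G : SimpleGraph V) (r : ℕ) : ℕ := min r (bigL G - 1)

lemma trad_lt (G : SimpleGraph V) (r : ℕ) : trad G r < bigL G := by
  have := bigL_pos G
  unfold trad
  omega

lemma le_trad_iff [Finite V] {c x : V} {r : ℕ} : G.edist c x ≤ trad G r ↔ G.edist c x ≤ r := by
  constructor
  · intro h
    refine h.trans ?_
    unfold trad
    exact_mod_cast min_le_left _ _
  · intro h
    have hfin : G.edist c x ≠ ⊤ := ne_top_of_le_ne_top (ENat.natCast_ne_top r) h
    have h1 := lt_bigL hfin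
    obtain ⟨n, hn⟩ := ENat.ne_top_iff_exists.mp hfin
    rw [← hn] at h h1 ⊢
    have h2 : n ≤ r := by exact_mod_cast h
    have h3 : n < bigL G := by exact_mod_cast h1
    have h4 : n ≤ trad G r := by unfold trad; omega
    exact_mod_cast h4

/-- Gate transfer of centres. -/
noncomputable def cmap (G : SimpleGraph V) (A : Set V) (g : V → Option V) (e : V × ℕ) :
    Option (V × ℕ) :=
  match g e.1 with
  | none => none
  | some w => if w ∉ A ∧ G.edist e.1 w ≤ trad G e.2 then
      some (w, trad G e.2 - (G.edist e.1 w).toNat) else none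

/-- Gate transfer of points. -/
noncomputable def pmap (G : SimpleGraph V) (A : Set V) (g : V → Option V) (x : V) :
    Option (V × ℕ) :=
  match g x with
  | none => none
  | some q => if q ∉ A ∧ G.edist q x ≠ ⊤ then some (q, (G.edist q x).toNat) else none

lemma cmap_eq {A : Set V} {g : V → Option V} {e e' : V × ℕ} :
    cmap G A g e = some e' ↔ g e.1 = some e'.1 ∧ e'.1 ∉ A ∧ G.edist e.1 e'.1 ≤ trad G e.2 ∧
      e'.2 = trad G e.2 - (G.edist e.1 e'.1).toNat := by
  unfold cmap
  cases hg : g e.1 with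
  | none => simp
  | some w =>
    simp only [Option.ite_none_right_eq_some, Option.some.injEq]
    constructor
    · rintro ⟨h1, rfl⟩
      exact ⟨rfl, h1.1, h1.2, rfl⟩
    · rintro ⟨rfl, h1, h2, h3⟩
      exact ⟨⟨h1, h2⟩, by rw [← h3]⟩

lemma pmap_eq {A : Set V} {g : V → Option V} {x : V} {x' : V × ℕ} :
    pmap G A g x = some x' ↔ g x = some x'.1 ∧ x'.1 ∉ A ∧ G.edist x'.1 x ≠ ⊤ ∧
      x'.2 = (G.edist x'.1 x).toNat := by
  unfold pmap
  cases hg : g x with
  | none => simp
  | some w =>
    simp only [Option.ite_none_right_eq_some, Option.some.injEq]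
    constructor
    · rintro ⟨h1, rfl⟩
      exact ⟨rfl, h1.1, h1.2, rfl⟩
    · rintro ⟨rfl, h1, h2, h3⟩
      exact ⟨⟨h1, h2⟩, by rw [← h3]⟩

/-- Size of the certificates at a node. -/
def nodeN (k N : ℕ) : ℕ :=
  (k + (k + 1) * (k + 1)) * (N + 2) + (N + 2) ^ (k + (k + 1) * (k + 1)) + 1

/-- The certificate at a node. -/
theorem cert_node [Finite V] (s : Bool) {k N : ℕ} {s0 : ι} {A : Set V} (hA : A.ncard ≤ k)
    (hadh : ∀ a, a ≠ R.root → (D.adh a).ncard ≤ k) {H : SimpleGraph V}
    (hH : IsTorso D H s0 A) (hcore : Cert s N (fun e x => (e.1 ∈ D.bag s0 ∧ e.1 ∉ A) ∧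
      (x.1 ∈ D.bag s0 ∧ x.1 ∉ A) ∧ (distMet G H).inc e x) univ univ) {C P : Set V}
    (hsep : ∀ c ∈ C, ∀ x ∈ P, c ∈ D.bag s0 ∨
      ∃ a, R.IsChild a s0 ∧ D.home c ∈ R.sub a ∧ D.home x ∉ R.sub a) :
    Cert s (nodeN k N) (binc G) {e | e.1 ∈ C} P := by
  obtain ⟨af, haf⟩ := exists_enumT hA
  have hgate : ∀ x, (D.gate s0 x).ncard ≤ k + 1 := by
    intro x
    unfold RDec.gate
    split_ifs with h1 h2
    · rw [Set.ncard_singleton]; omega
    · have h3 := (R.toward_spec h2 (D.home_ne h1)).1
      exact (hadh _ h3.1).trans (Nat.le_succ k)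
    · refine (hadh _ ?_).trans (Nat.le_succ k)
      rintro rfl
      exact h2 (R.mem_sub_root _)
  choose gf hgf using fun x => exists_enumT (hgate x)
  have hcert : ∀ j : Fin k ⊕ (Fin (k + 1) × Fin (k + 1)),
      Cert s (N + 2) (fun (e : V × ℕ) (x : V) => match j with
        | Sum.inl i => ∃ w, af i = some w ∧ G.edist e.1 w + G.edist w x ≤ e.2
        | Sum.inr p => ∃ e' x', cmap G A (fun c => gf c p.1) e = some e' ∧
            pmap G A (fun x => gf x p.2) x = some x' ∧ ((e'.1 ∈ D.bag s0 ∧ e'.1 ∉ A) ∧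
              (x'.1 ∈ D.bag s0 ∧ x'.1 ∉ A) ∧ (distMet G H).inc e' x')) univ univ := by
    rintro (i | p)
    · exact (cert_via_opt G s (af i)).mono (by omega)
    · exact (hcore.pullback _ _).mono (by omega)
  have h := Cert.iUnion (K := k + (k + 1) * (k + 1)) (by simp) _ hcert
  refine (h.sub (subset_univ _) (subset_univ _)).congr ?_
  rintro ⟨c, r⟩ hc x hx
  have hc' : c ∈ C := hc
  unfold binc
  simp only
  constructor
  · rintro ⟨i | p, hj⟩
    · obtain ⟨w, h1, h2⟩ := hj
      exact SimpleGraph.edist_triangle.trans h2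
    · obtain ⟨⟨w, ρ⟩, ⟨q, o⟩, h1, h2, _, _, h3⟩ := hj
      rw [cmap_eq] at h1
      rw [pmap_eq] at h2
      obtain ⟨_, _, h4, h5⟩ := h1
      obtain ⟨_, _, h6, h7⟩ := h2
      unfold LMet.inc at h3
      simp only at h3 h4 h5 h6 h7
      have h8 : G.edist c x ≤ G.edist c w + (G.edist w q + G.edist q x) :=
        SimpleGraph.edist_triangle.trans (add_le_add le_rfl SimpleGraph.edist_triangle)
      have hρ : ρ < bigL G := by
        have := trad_lt G r
        omega
      rw [← le_trad_iff]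
      refine h8.trans ?_
      rw [enat_split]
      have h9 : G.edist w q + G.edist q x ≤ (ρ : ℕ∞) := by
        rw [← ENat.natCast_toNat h6, ← h7]
        exact (add_le_add (edist_le_distMet hρ (le_self_add.trans h3)) le_rfl).trans h3
      refine ⟨h4, ne_top_of_le_ne_top (ENat.natCast_ne_top ρ) h9, ?_⟩
      rw [← h5]
      exact h9
  · intro h1
    have hfin : G.edist c x ≠ ⊤ := ne_top_of_le_ne_top (ENat.natCast_ne_top r) h1
    have hw : ∃ w ∈ D.gate s0 c, G.edist c w + G.edist w x = G.edist c x := by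
      by_cases hcb : c ∈ D.bag s0
      · refine ⟨c, ?_, by simp⟩
        unfold RDec.gate
        rw [if_pos hcb]
        rfl
      · rcases hsep c hc' x hx with h2 | ⟨a, ha, h2, h3⟩
        · exact absurd h2 hcb
        · unfold RDec.gate
          rw [if_neg hcb, if_pos (R.sub_trans ha.mem_sub h2), R.toward_eq ha h2]
          exact D.sep h2 h3 hfin
    obtain ⟨w, hw, h2⟩ := hw
    have hwb := D.gate_sub s0 c hw
    have hfw : G.edist w x ≠ ⊤ := by
      intro h
      rw [h] at h2
      exact hfin (by rw [← h2]; simp)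
    obtain ⟨q, hq, h3⟩ := D.exists_gate hwb hfw
    have hqb := D.gate_sub s0 x hq
    have hfq : G.edist q x ≠ ⊤ := by
      intro h
      rw [h] at h3
      exact hfw (by rw [← h3]; simp)
    have hfwq : G.edist w q ≠ ⊤ := by
      intro h
      rw [h] at h3
      exact hfw (by rw [← h3]; simp)
    have apex : ∀ a ∈ A, G.edist c a + G.edist a x ≤ (r : ℕ∞) →
        ∃ j : Fin k ⊕ (Fin (k + 1) × Fin (k + 1)), (match j with
        | Sum.inl i => ∃ w, af i = some w ∧ G.edist (c, r).1 w + G.edist w x ≤ ((c, r).2 : ℕ)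
        | Sum.inr p => ∃ e' x', cmap G A (fun c => gf c p.1) (c, r) = some e' ∧
            pmap G A (fun x => gf x p.2) x = some x' ∧ ((e'.1 ∈ D.bag s0 ∧ e'.1 ∉ A) ∧
              (x'.1 ∈ D.bag s0 ∧ x'.1 ∉ A) ∧ (distMet G H).inc e' x')) := by
      intro a ha h4
      obtain ⟨i, hi⟩ := (haf a).mp ha
      exact ⟨Sum.inl i, a, hi, h4⟩
    by_cases hwA : w ∈ A
    · exact apex w hwA (h2.le.trans h1)
    by_cases hqA : q ∈ A
    · refine apex q hqA (le_trans ?_ h1)
      calc G.edist c q + G.edist q x ≤ (G.edist c w + G.edist w q) + G.edist q x :=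
            add_le_add SimpleGraph.edist_triangle le_rfl
        _ = G.edist c w + (G.edist w q + G.edist q x) := add_assoc _ _ _
        _ = G.edist c x := by rw [h3, h2]
    obtain ⟨n, hn⟩ := ENat.ne_top_iff_exists.mp hfwq
    rcases torso_dist D hH n w q hwb hqb hwA hqA hn.symm with h4 | ⟨a, ha, h4⟩
    · obtain ⟨i, hi⟩ := (hgf c w).mp hw
      obtain ⟨j, hj⟩ := (hgf x q).mp hq
      have h5 : G.edist c w + (G.edist w q + G.edist q x) ≤ (trad G r : ℕ∞) := by
        rw [h3, h2]; exact le_trad_iff.mpr h1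
      rw [enat_split] at h5
      obtain ⟨h6, h7, h8⟩ := h5
      refine ⟨Sum.inr (i, j), (w, trad G r - (G.edist c w).toNat), (q, (G.edist q x).toNat),
        cmap_eq.mpr ⟨hi, hwA, h6, rfl⟩, pmap_eq.mpr ⟨hj, hqA, hfq, rfl⟩, ⟨hwb, hwA⟩,
        ⟨hqb, hqA⟩, ?_⟩
      unfold LMet.inc
      simp only
      rw [ENat.natCast_toNat hfq]
      exact (add_le_add h4 le_rfl).trans h8
    · refine apex a ha (le_trans ?_ h1)
      calc G.edist c a + G.edist a x
          ≤ (G.edist c w + G.edist w a) + (G.edist a q + G.edist q x) :=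
            add_le_add SimpleGraph.edist_triangle SimpleGraph.edist_triangle
        _ = G.edist c w + ((G.edist w a + G.edist a q) + G.edist q x) := by
            simp only [add_assoc]
        _ = G.edist c x := by rw [h4, h3, h2]

end Pool.Agent.BTD
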