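import Pool.Agent.BTD.T5

set_option autoImplicit false

open Classical

namespace Pool.Agent.BTD

open Set

universe u

variable {V : Type u} {G : SimpleGraph V} {ι : Type*} {R : RTree ι} (D : RDec G R)

/-- Size of the regional certificates. -/
def regN (k N : ℕ) : ℕ := nodeN k N + ((2 * k) * 2 + 2 ^ (2 * k) + 1)

lemma node_le_reg (k N : ℕ) : nodeN k N ≤ regN k N := Nat.le_add_right _ _

lemma one_le_reg (k N : ℕ) : 1 ≤ regN k N :=
  (Nat.le_add_left 1 _).trans (node_le_reg k N)

/-- The region decoded from hints and a tag. -/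
noncomputable def regd (f : ι → ℕ) (a : Fin 5 → Option V) (t : Fin 5) :
    Set (V × ℕ) × Set V :=
  let m : ι := match a 0, a 1 with
    | some x, some x' => R.lca (D.home x) (D.home x')
    | _, _ => R.root
  if t = 0 then (univ, ∅)
  else if t = 1 then ({e | e.1 ∈ {c | D.home c = m}}, univ)
  else if t = 2 then
    let I : Set ι := {b | R.IsChild b m ∧
      (∀ l, a 2 = some l → f (R.toward m (D.home l)) < f b) ∧
      (∀ l, a 3 = some l → f b < f (R.toward m (D.home l)))}
    ({e | e.1 ∈ {c | ∃ b ∈ I, D.home c ∈ R.sub b}}, {x | ∀ b ∈ I, D.home x ∉ R.sub b})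
  else match a 4 with
    | none => ({e | e.1 ∈ {c | D.home c ∉ R.sub m}}, {x | D.home x ∈ R.sub m})
    | some y =>
      let w := R.toward (R.lca (D.home y) m) m
      ({e | e.1 ∈ {c | D.home c ∈ R.sub w ∧ D.home c ∉ R.sub m}},
        {x | ¬ (D.home x ∈ R.sub w ∧ D.home x ∉ R.sub m)})

theorem cert_tree [Finite V] [Finite ι] (s : Bool) {k N : ℕ}
    (hadh : ∀ a, a ≠ R.root → (D.adh a).ncard ≤ k)
    (hcore : ∀ s0 : ι, ∃ (A : Set V) (H : SimpleGraph V), A.ncard ≤ k ∧ IsTorso D H s0 A ∧
      Cert s N (fun e x => (e.1 ∈ D.bag s0 ∧ e.1 ∉ A) ∧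
      (x.1 ∈ D.bag s0 ∧ x.1 ∉ A) ∧ (distMet G H).inc e x) univ univ) :
    Cert s (5 + regN k N + 5 * regN k N) (binc G) univ univ := by
  obtain ⟨f, hf⟩ : ∃ f : ι → ℕ, Function.Injective f := by
    obtain ⟨n, ⟨e⟩⟩ := Finite.exists_equiv_fin ι
    exact ⟨fun i => (e i : ℕ), fun i j h => e.injective (Fin.ext h)⟩
  refine Cert.of_cases (regd D f) ?_
  rintro X _ ⟨c, r⟩ _ hs
  -- the empty sample
  by_cases hX : X.Nonempty
  swap
  · rw [not_nonempty_iff_eq_empty] at hX
    subst hX
    refine ⟨fun _ => none, 0, by simp, ?_, ?_, ?_, ?_⟩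
    · simp [regd]
    · simp
    · exact subset_univ _
    · have h1 : (regd D f (fun _ => none) 0) = ((univ, ∅) : Set (V × ℕ) × Set V) := by
        simp [regd]
      rw [h1]
      have h2 := ((Cert.false_rel (C := V × ℕ) (P := V) s).sub (C₁ := univ) (P₁ := ∅)
        (subset_univ _) (subset_univ _)).congr (inc' := binc G)
        (fun e _ x hx => absurd hx (notMem_empty x))
      exact h2.mono (one_le_reg k N)
  -- the node `s1`
  obtain ⟨s1, h1, ⟨x0, hx0, hx0s⟩, h3⟩ := R.exists_lowest
    (fun a => ∃ x ∈ X, D.home x ∈ R.sub a)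
    ⟨hX.choose, hX.choose_spec, R.mem_sub_root _⟩ (D.home c)
  obtain ⟨y, ⟨x, ⟨hx, hxs⟩, rfl⟩, y', ⟨x', ⟨hx', hxs'⟩, rfl⟩, hY⟩ := R.exists_lca_set
    (D.home '' {x | x ∈ X ∧ D.home x ∈ R.sub s1}) ⟨_, x0, ⟨hx0, hx0s⟩, rfl⟩
  have hY' : ∀ z ∈ X, D.home z ∈ R.sub s1 → D.home z ∈ R.sub (R.lca (D.home x) (D.home x')) :=
    fun z hz hzs => hY _ ⟨z, ⟨hz, hzs⟩, rfl⟩
  have hms := R.lca_mem hxs hxs'
  set m := R.lca (D.home x) (D.home x') with hm
  by_cases hms1 : m = s1
  · by_cases hcs : D.home c = s1
    · -- the centre lives at the node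
      refine ⟨fun i => if i = 0 then some x else if i = 1 then some x' else none, 1, ?_, ?_, ?_,
        ?_, ?_⟩
      · intro i z hz
        simp only at hz
        split_ifs at hz
        · cases hz; exact hx
        · cases hz; exact hx'
      · simp [regd, ← hm, hms1, hcs]
      · simp [regd]
      · exact subset_univ _
      · have e1 : regd D f (fun i => if i = 0 then some x else if i = 1 then some x' else none) 1
            = ({e | e.1 ∈ {c | D.home c = m}}, univ) := by
          simp [regd, ← hm]
        rw [e1]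
        obtain ⟨A, H, hA, hH, hc⟩ := hcore m
        refine (cert_node D s hA hadh hH hc ?_).mono (node_le_reg k N)
        intro c hc x _
        left
        have hc' : D.home c = m := hc
        rw [← hc']
        exact D.home_mem c
    · -- the centre lives below the node
      obtain ⟨hb1, hb2⟩ := R.toward_spec h1 hcs
      set b0 := R.toward s1 (D.home c) with hb0
      have hb3 : ∀ z ∈ X, D.home z ∉ R.sub b0 := by
        intro z hz hzb
        refine h3 b0 hb2 hb1.mem_sub ?_ ⟨z, hz, hzb⟩
        intro h
        exact hb1.not_mem (by rw [h]; exact R.mem_sub_self _)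
      -- lower hint
      have hlow : ∃ l : Option V, (∀ z, l = some z → z ∈ X ∧
          f (R.toward s1 (D.home z)) < f b0) ∧
          ∀ z ∈ X, f (R.toward s1 (D.home z)) < f b0 → ∃ z', l = some z' ∧
            f (R.toward s1 (D.home z)) ≤ f (R.toward s1 (D.home z')) := by
        by_cases hne : {z | z ∈ X ∧ f (R.toward s1 (D.home z)) < f b0}.Nonempty
        · obtain ⟨z', hz', hmax⟩ := Set.exists_max_image
            {z | z ∈ X ∧ f (R.toward s1 (D.home z)) < f b0}
            (fun z => f (R.toward s1 (D.home z))) (Set.toFinite _) hne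
          refine ⟨some z', ?_, ?_⟩
          · intro z hz; cases hz; exact hz'
          · intro z hz hzl
            exact ⟨z', rfl, hmax z ⟨hz, hzl⟩⟩
        · refine ⟨none, by simp, ?_⟩
          intro z hz hzl
          exact absurd ⟨z, hz, hzl⟩ hne
      have hupp : ∃ l : Option V, (∀ z, l = some z → z ∈ X ∧
          f b0 < f (R.toward s1 (D.home z))) ∧
          ∀ z ∈ X, f b0 < f (R.toward s1 (D.home z)) → ∃ z', l = some z' ∧
            f (R.toward s1 (D.home z')) ≤ f (R.toward s1 (D.home z)) := by
        by_cases hne : {z | z ∈ X ∧ f b0 < f (R.toward s1 (D.home z))}.Nonempty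
        · obtain ⟨z', hz', hmin⟩ := Set.exists_min_image
            {z | z ∈ X ∧ f b0 < f (R.toward s1 (D.home z))}
            (fun z => f (R.toward s1 (D.home z))) (Set.toFinite _) hne
          refine ⟨some z', ?_, ?_⟩
          · intro z hz; cases hz; exact hz'
          · intro z hz hzl
            exact ⟨z', rfl, hmin z ⟨hz, hzl⟩⟩
        · refine ⟨none, by simp, ?_⟩
          intro z hz hzl
          exact absurd ⟨z, hz, hzl⟩ hne
      obtain ⟨lo, hlo1, hlo2⟩ := hlow
      obtain ⟨up, hup1, hup2⟩ := hupp
      set a : Fin 5 → Option V := fun i => if i = 0 then some x else if i = 1 then some x' else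
        if i = 2 then lo else if i = 3 then up else none with ha
      set I : Set ι := {b | R.IsChild b s1 ∧
        (∀ l, lo = some l → f (R.toward s1 (D.home l)) < f b) ∧
        (∀ l, up = some l → f b < f (R.toward s1 (D.home l)))} with hI
      have e1 : regd D f a 2 = ({e | e.1 ∈ {c | ∃ b ∈ I, D.home c ∈ R.sub b}},
          {x | ∀ b ∈ I, D.home x ∉ R.sub b}) := by
        simp [regd, ha, hI, ← hm, hms1]
      refine ⟨a, 2, ?_, ?_, ?_, ?_, ?_⟩
      · intro i z hz
        simp only [ha] at hz
        split_ifs at hz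
        · cases hz; exact hx
        · cases hz; exact hx'
        · exact (hlo1 z hz).1
        · exact (hup1 z hz).1
      · rw [e1]
        exact ⟨b0, ⟨hb1, fun l hl => (hlo1 l hl).2, fun l hl => (hup1 l hl).2⟩, hb2⟩
      · rw [e1]
        rintro z hz b ⟨hbc, hbl, hbu⟩ hzb
        have htz : R.toward s1 (D.home z) = b := R.toward_eq hbc hzb
        rcases lt_trichotomy (f b) (f b0) with h4 | h4 | h4
        · obtain ⟨z', hz', h5⟩ := hlo2 z hz (by rw [htz]; exact h4)
          have := hbl z' hz'
          rw [htz] at h5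
          omega
        · exact hb3 z hz (by rw [← hf h4]; exact hzb)
        · obtain ⟨z', hz', h5⟩ := hup2 z hz (by rw [htz]; exact h4)
          have := hbu z' hz'
          rw [htz] at h5
          omega
      · exact subset_univ _
      · rw [e1]
        obtain ⟨A, H, hA, hH, hc⟩ := hcore s1
        refine (cert_node D s hA hadh hH hc ?_).mono (node_le_reg k N)
        rintro c ⟨b, hb, hcb⟩ x hx
        exact Or.inr ⟨b, hb.1, hcb, hx b hb⟩
  · -- the tube
    have hmroot : m ≠ R.root := (R.par_mem_sub hms hms1).2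
    have hcm : D.home c ∉ R.sub m := by
      intro h
      exact h3 m h hms hms1 ⟨x, hx, R.left_mem_lca _ _⟩
    by_cases hall : ∀ z ∈ X, D.home z ∈ R.sub s1
    · set a : Fin 5 → Option V := fun i => if i = 0 then some x else if i = 1 then some x' else
        none with ha
      have e1 : regd D f a 3 = ({e | e.1 ∈ {c | D.home c ∉ R.sub m}},
          {x | D.home x ∈ R.sub m}) := by
        have h5 : (3 : Fin 5) ≠ 0 := by decide
        have h6 : (3 : Fin 5) ≠ 1 := by decide
        have h7 : (3 : Fin 5) ≠ 2 := by decide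
        simp [regd, ha, ← hm, h5, h6, h7]
      refine ⟨a, 3, ?_, ?_, ?_, ?_, ?_⟩
      · intro i z hz
        simp only [ha] at hz
        split_ifs at hz
        · cases hz; exact hx
        · cases hz; exact hx'
      · rw [e1]; exact hcm
      · rw [e1]
        intro z hz
        exact hY' z hz (hall z hz)
      · exact subset_univ _
      · rw [e1]
        refine (cert_sep s (K := 2 * k) (W := D.adh m) ((hadh m hmroot).trans (by omega))
          ?_).mono (by unfold regN; omega)
        intro c hc x hx hfin
        obtain ⟨w, hw, h4⟩ := D.sep (c := x) (x := c) hx hc (by rwa [SimpleGraph.edist_comm])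
        refine ⟨w, hw, ?_⟩
        rw [SimpleGraph.edist_comm (u := c) (v := w), SimpleGraph.edist_comm (u := w) (v := x),
          add_comm, h4, SimpleGraph.edist_comm]
    · push Not at hall
      obtain ⟨z0, hz0, hz0s⟩ := hall
      obtain ⟨u, hu1, ⟨y, hy, hyu, hys⟩, hu3⟩ := R.exists_lowest
        (fun a => ∃ y ∈ X, D.home y ∈ R.sub a ∧ D.home y ∉ R.sub s1)
        ⟨z0, hz0, R.mem_sub_root _, hz0s⟩ s1
      have hus : s1 ≠ u := by
        rintro rfl
        exact hys hyu
      obtain ⟨ht1, ht2⟩ := R.toward_spec hu1 hus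
      set u' := R.toward u s1 with hu'
      have hne : u' ≠ u := by
        intro h
        exact ht1.not_mem (by rw [h]; exact R.mem_sub_self _)
      have hnQ := hu3 u' ht2 ht1.mem_sub hne
      have hmu' : m ∈ R.sub u' := R.sub_trans ht2 hms
      have hlca : R.lca (D.home y) m = u := by
        apply R.lca_eq_of_children hyu (R.sub_trans hu1 hms)
        intro b hb hyb hmb
        have h4 : b = u' := R.toward_unique hb ht1 hmb hmu'
        rw [h4] at hyb
        exact hnQ ⟨y, hy, hyb, hys⟩
      have htow : R.toward u m = u' := R.toward_eq ht1 hmu'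
      set a : Fin 5 → Option V := fun i => if i = 0 then some x else if i = 1 then some x' else
        if i = 4 then some y else none with ha
      have e1 : regd D f a 3 = ({e | e.1 ∈ {c | D.home c ∈ R.sub u' ∧ D.home c ∉ R.sub m}},
          {x | ¬ (D.home x ∈ R.sub u' ∧ D.home x ∉ R.sub m)}) := by
        have h5 : (3 : Fin 5) ≠ 0 := by decide
        have h6 : (3 : Fin 5) ≠ 1 := by decide
        have h7 : (3 : Fin 5) ≠ 2 := by decide
        have h8 : (4 : Fin 5) ≠ 0 := by decide
        have h9 : (4 : Fin 5) ≠ 1 := by decide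
        simp only [regd, ha, if_neg h5, if_neg h6, if_neg h7, if_neg h8, if_neg h9, if_true,
          if_neg (by decide : (1 : Fin 5) ≠ 0), ← hm, hlca, htow]
      refine ⟨a, 3, ?_, ?_, ?_, ?_, ?_⟩
      · intro i z hz
        simp only [ha] at hz
        split_ifs at hz
        · cases hz; exact hx
        · cases hz; exact hx'
        · cases hz; exact hy
      · rw [e1]
        exact ⟨R.sub_trans ht2 h1, hcm⟩
      · rw [e1]
        rintro z hz ⟨h4, h5⟩
        apply hnQ
        refine ⟨z, hz, h4, ?_⟩
        intro h6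
        exact h5 (hY' z hz h6)
      · exact subset_univ _
      · rw [e1]
        refine (cert_sep s (K := 2 * k) (W := D.adh m ∪ D.adh u') ?_ ?_).mono
          (by unfold regN; omega)
        · have h4 := Set.ncard_union_le (D.adh m) (D.adh u')
          have h5 := hadh m hmroot
          have h6 := hadh u' ht1.1
          omega
        · rintro c ⟨hc1, hc2⟩ x hx hfin
          have hx' : ¬ (D.home x ∈ R.sub u' ∧ D.home x ∉ R.sub m) := hx
          by_cases h4 : D.home x ∈ R.sub u'
          · have h5 : D.home x ∈ R.sub m := by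
              by_contra h6
              exact hx' ⟨h4, h6⟩
            obtain ⟨w, hw, h6⟩ := D.sep (c := x) (x := c) h5 hc2
              (by rwa [SimpleGraph.edist_comm])
            refine ⟨w, Or.inl hw, ?_⟩
            rw [SimpleGraph.edist_comm (u := c) (v := w),
              SimpleGraph.edist_comm (u := w) (v := x), add_comm, h6, SimpleGraph.edist_comm]
          · obtain ⟨w, hw, h6⟩ := D.sep hc1 h4 hfin
            exact ⟨w, Or.inr hw, h6.le⟩

end Pool.Agent.BTD
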