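import Pool.Agent.BTD.T5

set_option autoImplicit false

open Classical

namespace Pool.Agent.BTD

open Set Pool.Agent.H81.Balls

universe u

variable {V : Type u}

lemma mem_ball_iff (G : SimpleGraph V) (c x : V) (r : ℕ) :
    x ∈ ball G c (r : ℤ) ↔ binc G (c, r) x := by
  unfold ball binc
  simp only [mem_ofPred_eq]
  constructor
  · rintro ⟨h1, h2⟩
    rw [← h1.coe_dist_eq_edist]
    exact_mod_cast h2
  · intro h
    have h1 : G.Reachable c x := by
      rw [← SimpleGraph.edist_ne_top_iff_reachable]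
      exact ne_top_of_le_ne_top (ENat.natCast_ne_top r) h
    refine ⟨h1, ?_⟩
    rw [← h1.coe_dist_eq_edist] at h
    exact_mod_cast h

/-- Size of the coding. -/
def codeN (N : ℕ) : ℕ := 2 * N + (1 + ((N + 1) ^ N * (N + 1) ^ N) * (N * N))

/-- Index of the decoders. -/
abbrev CodeI (N : ℕ) : Type :=
  Option (((Fin N → Option (Fin N)) × (Fin N → Option (Fin N))) × (Fin N × Fin N))

lemma card_codeI (N : ℕ) :
    Fintype.card (CodeI N) ≤ 2 ^ (1 + ((N + 1) ^ N * (N + 1) ^ N) * (N * N)) := by
  have h : Fintype.card (CodeI N) = 1 + ((N + 1) ^ N * (N + 1) ^ N) * (N * N) := by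
    simp [CodeI, Fintype.card_option, add_comm]
  rw [h]
  exact (Nat.lt_two_pow_self).le

/-- The hints read off from a finite set. -/
noncomputable def hintsOf {N : ℕ} (i : Fin N → Option (Fin N)) (Y : Finset V) :
    Fin N → Option V := fun j => (i j).bind (fun l => Y.toList[(l : ℕ)]?)

lemma exists_hints {N : ℕ} {X : Finset V} (a : Fin N → Option V)
    (ha : ∀ i x, a i = some x → x ∈ X) :
    ∃ (Y : Finset V) (i : Fin N → Option (Fin N)), Y ⊆ X ∧ Y.card ≤ N ∧ hintsOf i Y = a := by
  set Y : Finset V := Finset.univ.biUnion (fun i : Fin N => (a i).toFinset) with hY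
  have hmem : ∀ j x, a j = some x → x ∈ Y := by
    intro j x hx
    rw [hY, Finset.mem_biUnion]
    exact ⟨j, Finset.mem_univ _, by simp [hx]⟩
  have hcard : Y.card ≤ N := by
    refine (Finset.card_biUnion_le).trans ?_
    calc ∑ i : Fin N, (a i).toFinset.card ≤ ∑ _i : Fin N, 1 := by
          apply Finset.sum_le_sum
          intro i _
          cases a i <;> simp
      _ = N := by simp
  have hex : ∀ j : Fin N, ∃ o : Option (Fin N), o.bind (fun l => Y.toList[(l : ℕ)]?) = a j := by
    intro j
    cases haj : a j with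
    | none => exact ⟨none, rfl⟩
    | some x =>
      have h1 : x ∈ Y.toList := by rw [Finset.mem_toList]; exact hmem j x haj
      rw [List.mem_iff_getElem?] at h1
      obtain ⟨l, hl⟩ := h1
      have h2 : l < Y.toList.length := by
        by_contra hcon
        rw [List.getElem?_eq_none (by omega)] at hl
        cases hl
      rw [Finset.length_toList] at h2
      exact ⟨some ⟨l, by omega⟩, hl⟩
  choose i hi using hex
  refine ⟨Y, i, ?_, hcard, funext hi⟩
  intro x hx
  rw [hY, Finset.mem_biUnion] at hx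
  obtain ⟨j, _, hj⟩ := hx
  exact ha j x (by simpa using hj)

theorem scheme_of_cert [Finite V] (G : SimpleGraph V) {N : ℕ}
    (hp : Cert true N (binc G) univ univ) (hn : Cert false N (binc G) univ univ) :
    HasProperScheme (balls G) (codeN N) := by
  by_cases hV : Nonempty V
  swap
  · have hemp : IsEmpty {X // IsSample (balls G) X} := by
      constructor
      rintro ⟨X, e, ⟨c, _⟩, _⟩
      exact hV ⟨c⟩
    exact ⟨fun X => (hemp.false X).elim, fun Y => (hemp.false Y.1).elim, 2 * N, _, le_rfl,
      fun X => (hemp.false X).elim, fun X => (hemp.false X).elim, fun X => (hemp.false X).elim,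
      fun X => (hemp.false X).elim, fun Y => (hemp.false Y.1).elim⟩
  obtain ⟨dp, hdp⟩ := hp.normal
  obtain ⟨dn, hdn⟩ := hn.normal
  let d0 : V := Classical.arbitrary V
  set reg : CodeI N → Finset V × Finset V → Set (V × ℕ) := fun i Y => match i with
    | none => ∅
    | some p => dp (hintsOf p.1.1 Y.1) p.2.1 ∩ dn (hintsOf p.1.2 Y.2) p.2.2 with hreg
  apply scheme_of_decoders (balls G) (2 * N) _ (CodeI N) (card_codeI N)
    (fun i Y => if h : (reg i Y).Nonempty then ball G h.choose.1 (h.choose.2 : ℤ)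
      else ball G d0 (-1))
  · intro i Y
    by_cases h : (reg i Y).Nonempty
    · simp only [dif_pos h]
      exact ⟨_, _, rfl⟩
    · simp only [dif_neg h]
      exact ⟨_, _, rfl⟩
  rintro ⟨Xp, Xm⟩ ⟨e, ⟨c, r, rfl⟩, hXp, hXm⟩
  simp only at hXp hXm ⊢
  by_cases hXe : Xp.Nonempty
  swap
  · rw [Finset.not_nonempty_iff_eq_empty] at hXe
    subst hXe
    refine ⟨(∅, ∅), none, by simp, by simp, by simp, ?_⟩
    have h1 : ¬ (reg none ((∅, ∅) : Finset V × Finset V)).Nonempty := by simp [hreg]
    rw [dif_neg h1]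
    refine ⟨by simp, ?_⟩
    rw [Set.disjoint_left]
    rintro v _ ⟨_, hv⟩
    omega
  obtain ⟨x0, hx0⟩ := hXe
  have hr : 0 ≤ r := by
    have := (hXp hx0).2
    omega
  obtain ⟨n, rfl⟩ := Int.eq_ofNat_of_zero_le hr
  obtain ⟨a, t, h1, h2, h3⟩ := hdp Xp (subset_univ _) (c, n) (mem_univ _) (by
    intro x hx
    simp only [iff_true]
    exact (mem_ball_iff G c x n).mp (hXp hx))
  obtain ⟨b, u, h4, h5, h6⟩ := hdn Xm (subset_univ _) (c, n) (mem_univ _) (by
    intro x hx
    simp only [Bool.false_eq_true, iff_false]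
    intro h
    rw [Set.disjoint_left] at hXm
    exact hXm hx ((mem_ball_iff G c x n).mpr h))
  obtain ⟨Y1, i1, hY1, hc1, hi1⟩ := exists_hints a (fun i x hx => by simpa using h1 i x hx)
  obtain ⟨Y2, i2, hY2, hc2, hi2⟩ := exists_hints b (fun i x hx => by simpa using h4 i x hx)
  refine ⟨(Y1, Y2), some ((i1, i2), (t, u)), hY1, hY2, ?_, ?_⟩
  · refine (Set.ncard_union_le _ _).trans ?_
    simp only [Set.ncard_coe_finset]
    omega
  · have hne : (reg (some ((i1, i2), (t, u))) (Y1, Y2)).Nonempty := by
      refine ⟨(c, n), ?_, ?_⟩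
      · simp only [hi1]; exact h2
      · simp only [hi2]; exact h5
    rw [dif_pos hne]
    have hch := hne.choose_spec
    obtain ⟨hch1, hch2⟩ := hch
    simp only [hi1] at hch1
    simp only [hi2] at hch2
    refine ⟨?_, ?_⟩
    · intro x hx
      rw [mem_ball_iff]
      exact ((h3 _ hch1).2 x hx).mpr rfl
    · rw [Set.disjoint_left]
      intro x hx hxb
      rw [mem_ball_iff] at hxb
      have := (h6 _ hch2).2 x hx
      simp only [Bool.false_eq_true, iff_false] at this
      exact this hxb

end Pool.Agent.BTD
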