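import Pool.Agent.BTD.T6
import Pool.Agent.BTD.T7

set_option autoImplicit false

open Classical

namespace Pool.Agent.BTD

open Set Pool.Agent.H81.Balls

universe u v

variable {V : Type u} {ι : Type v}

/-- A tree decomposition of `G` over the tree `T`: bags covering all vertices and edges such that
the nodes whose bags contain a given vertex induce a connected subgraph of `T`. -/
structure TreeDecomp (G : SimpleGraph V) (T : SimpleGraph ι) where
  isTree : T.IsTree
  bag : ι → Set V
  cover : ∀ v, ∃ i, v ∈ bag i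
  cover_edge : ∀ u v, G.Adj u v → ∃ i, u ∈ bag i ∧ v ∈ bag i
  connected : ∀ v, (T.induce {i | v ∈ bag i}).Preconnected

/-- The torso at the node `s`: two distinct vertices of the bag of `s` are adjacent if they are
adjacent in `G` or both lie in the bag of a neighbouring node `t`, i.e. in the adhesion set
`bag s ∩ bag t`.  (Vertices outside of the bag are isolated.) -/
def TreeDecomp.torso {G : SimpleGraph V} {T : SimpleGraph ι} (D : TreeDecomp G T) (s : ι) :
    SimpleGraph V where
  Adj u v := u ≠ v ∧ (u ∈ D.bag s ∧ v ∈ D.bag s) ∧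
    (G.Adj u v ∨ ∃ t, T.Adj s t ∧ u ∈ D.bag t ∧ v ∈ D.bag t)
  symm := ⟨by
    rintro u v ⟨h1, ⟨h2, h3⟩, h4⟩
    refine ⟨h1.symm, ⟨h3, h2⟩, ?_⟩
    rcases h4 with h4 | ⟨t, h4, h5, h6⟩
    · exact Or.inl h4.symm
    · exact Or.inr ⟨t, h4, h6, h5⟩⟩
  loopless := ⟨fun u h => h.1 rfl⟩

section root

variable {T : SimpleGraph ι} (hT : T.IsTree) (r : ι)

/-- The path to the root. -/
noncomputable def rp (i : ι) : T.Walk i r := (hT.existsUnique_path i r).choose

lemma rp_isPath (i : ι) : (rp hT r i).IsPath := (hT.existsUnique_path i r).choose_spec.1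

lemma rp_unique {i : ι} {p : T.Walk i r} (hp : p.IsPath) : p = rp hT r i :=
  (hT.existsUnique_path i r).choose_spec.2 p hp

/-- The parent map. -/
noncomputable def rpar (i : ι) : ι := (rp hT r i).snd

lemma rpar_root : rpar hT r r = r := by
  unfold rpar
  rw [← rp_unique hT r (SimpleGraph.Walk.IsPath.nil (u := r))]
  rfl

lemma rpar_reach (i : ι) : ∃ n : ℕ, (rpar hT r)^[n] i = r := by
  have key : ∀ n : ℕ, ∀ i : ι, (rp hT r i).length = n → (rpar hT r)^[n] i = r := by
    intro n
    induction n with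
    | zero =>
      intro i hi
      exact SimpleGraph.Walk.eq_of_length_eq_zero hi
    | succ n ih =>
      intro i hi
      rw [Function.iterate_succ_apply]
      apply ih
      have h1 : (rp hT r i).tail.IsPath := (rp_isPath hT r i).tail
      have h2 : (rp hT r i).tail = rp hT r (rpar hT r i) := rp_unique hT r h1
      rw [← h2]
      have h3 : ¬ (rp hT r i).Nil := by
        intro h
        rw [← SimpleGraph.Walk.length_eq_zero_iff] at h
        omega
      have h4 := SimpleGraph.Walk.length_tail_add_one h3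
      have h5 : (rp hT r i).tail.length = n := by omega
      exact h5
  exact ⟨_, key _ i rfl⟩

/-- The rooted tree. -/
noncomputable def rtree : RTree ι where
  root := r
  par := rpar hT r
  par_root := rpar_root hT r
  reach := rpar_reach hT r

lemma rtree_adj {i j : ι} (h : T.Adj i j) : (rtree hT r).IsChild j i ∨ (rtree hT r).IsChild i j := by
  by_cases hj : j ∈ (rp hT r i).support
  · right
    refine ⟨?_, ?_⟩
    · rintro rfl
      have h1 : rp hT i i = SimpleGraph.Walk.nil :=
        (rp_unique hT i (SimpleGraph.Walk.IsPath.nil (u := i))).symm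
      change j ∈ (rp hT i i).support at hj
      rw [h1] at hj
      simp only [SimpleGraph.Walk.support_nil, List.mem_singleton] at hj
      exact h.ne hj.symm
    · exact (hT.isAcyclic.eq_snd_of_adj_start (rp_isPath hT r i) h hj).symm
  · left
    have h1 : (SimpleGraph.Walk.cons h.symm (rp hT r i)).IsPath := by
      rw [SimpleGraph.Walk.cons_isPath_iff]
      exact ⟨rp_isPath hT r i, hj⟩
    refine ⟨?_, ?_⟩
    · rintro rfl
      exact hj (SimpleGraph.Walk.end_mem_support _)
    · have h2 := rp_unique hT r h1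
      show rpar hT r j = i
      unfold rpar
      rw [← h2]
      simp

lemma rtree_adj_iff {i j : ι} :
    T.Adj i j ↔ (rtree hT r).IsChild j i ∨ (rtree hT r).IsChild i j := by
  refine ⟨rtree_adj hT r, ?_⟩
  have key : ∀ i j, (rtree hT r).IsChild j i → T.Adj j i := by
    rintro i j ⟨h1, h2⟩
    have h3 : ¬ (rp hT r j).Nil := by
      intro h
      exact h1 h.eq
    have h4 := SimpleGraph.Walk.adj_snd h3
    have h5 : (rp hT r j).snd = i := h2
    rw [h5] at h4
    exact h4
  rintro (h | h)
  · exact (key i j h).symm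
  · exact key j i h

end root

variable {G : SimpleGraph V} {T : SimpleGraph ι}

/-- A walk leaves a set. -/
lemma walk_exit' {α : Type*} {H : SimpleGraph α} {S : Set α} {x : α} (hx : x ∉ S) :
    ∀ {a : α} (_ : H.Walk a x), a ∈ S → ∃ u w, H.Adj u w ∧ u ∈ S ∧ w ∉ S
  | _, .nil, ha => absurd ha hx
  | a, .cons (v := b) hab q, ha => by
    by_cases hb : b ∈ S
    · exact walk_exit' hx q hb
    · exact ⟨a, b, hab, ha, hb⟩

lemma exists_home (D : TreeDecomp G T) (r : ι) (v : V) :
    ∃ h, v ∈ D.bag h ∧ ∀ i, v ∈ D.bag i → i ≠ h → i ≠ (rtree D.isTree r).root ∧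
      v ∈ D.bag ((rtree D.isTree r).par i) := by
  set R := rtree D.isTree r with hR
  have hne : {d | ∃ i, v ∈ D.bag i ∧ R.depth i = d}.Nonempty := by
    obtain ⟨i, hi⟩ := D.cover v
    exact ⟨_, i, hi, rfl⟩
  obtain ⟨h, hh, hd⟩ := Nat.sInf_mem hne
  refine ⟨h, hh, ?_⟩
  intro i hi hih
  have hdi : R.depth h ≤ R.depth i := by
    rw [hd]; exact Nat.sInf_le ⟨i, hi, rfl⟩
  have hnot : h ∉ R.sub i := by
    intro h1
    have := R.depth_lt_of_mem h1 hih.symm
    omega
  refine ⟨?_, ?_⟩
  · rintro rfl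
    exact hnot (R.mem_sub_root _)
  obtain ⟨p⟩ := D.connected v ⟨i, hi⟩ ⟨h, hh⟩
  obtain ⟨⟨a, ha⟩, ⟨b, hb⟩, h1, h2, h3⟩ := walk_exit' (H := T.induce {i | v ∈ D.bag i})
    (S := {z | z.1 ∈ R.sub i}) (x := ⟨h, hh⟩) hnot p (R.mem_sub_self i)
  have h2' : a ∈ R.sub i := h2
  have h3' : b ∉ R.sub i := h3
  have h4 : T.Adj a b := h1
  rcases (rtree_adj_iff D.isTree r).mp h4 with h5 | h5
  · exact absurd (R.sub_trans h2' h5.mem_sub) h3'
  · have h6 : a = i := by
      by_contra hne
      have h7 := (R.par_mem_sub h2' hne).1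
      rw [h5.2] at h7
      exact h3' h7
    subst h6
    rw [h5.2]
    exact hb

/-- The rooted decomposition. -/
noncomputable def TreeDecomp.rooted (D : TreeDecomp G T) (r : ι) :
    RDec G (rtree D.isTree r) where
  bag := D.bag
  home v := (exists_home D r v).choose
  home_mem v := (exists_home D r v).choose_spec.1
  up v := (exists_home D r v).choose_spec.2
  edge := D.cover_edge

/-- The restriction of the distance metric of a graph to a set containing all its edges. -/
noncomputable def distMetSub (G H : SimpleGraph V) (W : Set V) (K : SimpleGraph W)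
    (hK : ∀ u v : W, K.Adj u v ↔ H.Adj u v) (hW : ∀ u v, H.Adj u v → u ∈ W ∧ v ∈ W) :
    LMet K where
  len u v := tlen G u.1 v.1
  D u v := (distMet G H).D u.1 v.1
  len_pos u v h := (distMet G H).len_pos u.1 v.1 ((hK u v).mp h)
  D_self x := (distMet G H).D_self x.1
  D_le u v x h := (distMet G H).D_le u.1 v.1 x.1 ((hK u v).mp h)
  D_par v x hne hfin := by
    obtain ⟨w, h1, h2⟩ := (distMet G H).D_par v.1 x.1 (fun h => hne (Subtype.ext h)) hfin
    exact ⟨⟨w, (hW _ _ h1).2⟩, (hK _ _).mpr h1, h2⟩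

/-- Size of the schemes. -/
def finN (k N : ℕ) : ℕ := codeN (5 + regN k (N + 1) + 5 * regN k (N + 1))

/-- From certificates of the torsos minus few vertices to proper schemes. -/
theorem scheme_of_torsos [Finite V] [Finite ι] (D : TreeDecomp G T) {k N : ℕ}
    (hadh : ∀ s t, T.Adj s t → (D.bag s ∩ D.bag t).ncard ≤ k)
    (hcore : ∀ s : ι, ∃ A : Set V, A.ncard ≤ k ∧ ∀ (σ : Bool)
      (M : LMet ((D.torso s).induce (D.bag s \ A))), Cert σ N M.inc univ univ) :
    HasProperScheme (balls G) (finN k N) := by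
  obtain ⟨r⟩ : Nonempty ι := D.isTree.connected.nonempty
  set R := rtree D.isTree r with hR
  set E := D.rooted r with hE
  have key : ∀ σ : Bool, Cert σ (5 + regN k (N + 1) + 5 * regN k (N + 1)) (binc G)
      univ univ := by
    intro σ
    apply cert_tree E σ
    · intro a ha
      have h1 : T.Adj a (R.par a) := (rtree_adj_iff D.isTree r).mpr (Or.inr ⟨ha, rfl⟩)
      exact hadh _ _ h1
    · intro s
      obtain ⟨A, hA, hc⟩ := hcore s
      set W : Set V := D.bag s \ A with hW
      let H : SimpleGraph V :=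
        { Adj := fun u v => (D.torso s).Adj u v ∧ u ∈ W ∧ v ∈ W
          symm := ⟨fun u v h => ⟨h.1.symm, h.2.2, h.2.1⟩⟩
          loopless := ⟨fun u h => h.1.ne rfl⟩ }
      refine ⟨A, H, hA, ?_, ?_⟩
      · intro u v
        show ((D.torso s).Adj u v ∧ u ∈ W ∧ v ∈ W) ↔ _
        have h2 : (∃ t, E.Nbr s t ∧ u ∈ E.bag t ∧ v ∈ E.bag t) ↔
            ∃ t, T.Adj s t ∧ u ∈ D.bag t ∧ v ∈ D.bag t := by
          constructor
          · rintro ⟨t, h3, h4⟩
            exact ⟨t, (rtree_adj_iff D.isTree r).mpr h3, h4⟩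
          · rintro ⟨t, h3, h4⟩
            exact ⟨t, (rtree_adj_iff D.isTree r).mp h3, h4⟩
        rw [h2]
        constructor
        · rintro ⟨⟨h3, h4, h5⟩, h6, h7⟩
          exact ⟨h3, h4, ⟨h6.2, h7.2⟩, h5⟩
        · rintro ⟨h3, h4, h5, h6⟩
          exact ⟨⟨h3, h4, h6⟩, ⟨h4.1, h5.1⟩, ⟨h4.2, h5.2⟩⟩
      · set M : LMet ((D.torso s).induce W) := distMetSub G H W ((D.torso s).induce W)
          (fun u v => by
            show (D.torso s).Adj u.1 v.1 ↔ ((D.torso s).Adj u.1 v.1 ∧ u.1 ∈ W ∧ v.1 ∈ W)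
            exact ⟨fun h => ⟨h, u.2, v.2⟩, fun h => h.1⟩)
          (fun u v h => h.2) with hM
        have h3 := (hc σ M).pullback
          (fun e : V × ℕ => if h : e.1 ∈ W then some ((⟨e.1, h⟩ : W), e.2) else none)
          (fun e : V × ℕ => if h : e.1 ∈ W then some ((⟨e.1, h⟩ : W), e.2) else none)
        refine h3.congr ?_
        rintro ⟨w, ρ⟩ _ ⟨q, o⟩ _
        simp only
        constructor
        · rintro ⟨e', x', h4, h5, h6⟩
          split_ifs at h4 with h7
          split_ifs at h5 with h8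
          cases h4; cases h5
          exact ⟨⟨h7.1, h7.2⟩, ⟨h8.1, h8.2⟩, h6⟩
        · rintro ⟨h4, h5, h6⟩
          exact ⟨_, _, dif_pos (show w ∈ W from h4), dif_pos (show q ∈ W from h5), h6⟩
  exact scheme_of_cert G (key true) (key false)

end Pool.Agent.BTD
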